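import Pool.Agent.Helper10.CritPer.Defs

/-!
Uniqueness of solutions, orbits, periods, and linear changes of coordinates.
-/

open Set Filter Topology

namespace Pool.Agent.Helper10.CritPer

variable {V : ℝ × ℝ → ℝ × ℝ} {γ δ : ℝ → ℝ × ℝ} {p q : ℝ × ℝ} {T : ℝ}

theorem IsSol.continuous (h : IsSol V γ) : Continuous γ :=
  continuous_iff_continuousAt.2 fun t => (h t).continuousAt

/-- uniqueness of solutions -/
theorem sol_unique (hV : ContDiff ℝ 1 V) (h1 : IsSol V γ) (h2 : IsSol V δ) {t0 : ℝ}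
    (h0 : γ t0 = δ t0) : γ = δ := by
  have hcl : IsClosed {t | γ t = δ t} := isClosed_eq h1.continuous h2.continuous
  have hop : IsOpen {t | γ t = δ t} := by
    rw [isOpen_iff_mem_nhds]
    intro t1 ht1
    have ht1' : γ t1 = δ t1 := ht1
    obtain ⟨K, s, hs, hK⟩ := (hV.contDiffAt (x := γ t1)).exists_lipschitzOnWith
    have e1 : ∀ᶠ t in 𝓝 t1, γ t ∈ s := h1.continuous.continuousAt.eventually hs
    have e2 : ∀ᶠ t in 𝓝 t1, δ t ∈ s := by
      apply h2.continuous.continuousAt.eventually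
      rw [← ht1']
      exact hs
    exact ODE_solution_unique_of_eventually (v := fun _ => V) (s := fun _ => s) (K := K)
      (Filter.Eventually.of_forall fun _ => hK)
      (e1.mono fun t ht => ⟨h1 t, ht⟩) (e2.mono fun t ht => ⟨h2 t, ht⟩) ht1'
  have := IsClopen.eq_univ ⟨hcl, hop⟩ ⟨t0, h0⟩
  funext t
  have ht : t ∈ {t | γ t = δ t} := by rw [this]; trivial
  exact ht

theorem IsSol.shift (h : IsSol V γ) (s : ℝ) : IsSol V (fun t => γ (t + s)) := by
  intro t
  have h1 := HasDerivAt.comp_add_const t s (h (t + s))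
  exact h1

theorem orbit_eq_range (hV : ContDiff ℝ 1 V) (h : IsSol V γ) (h0 : γ 0 = p) :
    orbit V p = range γ := by
  ext q
  constructor
  · rintro ⟨δ, t, hδ, hδ0, rfl⟩
    have : δ = γ := sol_unique hV hδ h (t0 := 0) (hδ0.trans h0.symm)
    exact ⟨t, by rw [this]⟩
  · rintro ⟨t, rfl⟩
    exact ⟨γ, t, h, h0, rfl⟩

theorem orbit_eq_of_mem (hV : ContDiff ℝ 1 V) (h : q ∈ orbit V p) : orbit V q = orbit V p := by
  obtain ⟨γ, t, hγ, h0, rfl⟩ := h
  rw [orbit_eq_range hV hγ h0, orbit_eq_range hV (hγ.shift t) (by simp)]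
  ext z
  constructor
  · rintro ⟨s, rfl⟩
    exact ⟨s + t, rfl⟩
  · rintro ⟨s, rfl⟩
    exact ⟨s - t, by simp⟩

theorem isPeriod_iff (hV : ContDiff ℝ 1 V) (h : IsSol V γ) (h0 : γ 0 = p) :
    IsPeriod V p T ↔ 0 < T ∧ γ T = p := by
  constructor
  · rintro ⟨hT, δ, hδ, hδ0, hδT⟩
    have : δ = γ := sol_unique hV hδ h (t0 := 0) (hδ0.trans h0.symm)
    exact ⟨hT, by rw [← this]; exact hδT⟩
  · rintro ⟨hT, hγT⟩
    exact ⟨hT, γ, h, h0, hγT⟩

theorem IsSol.periodic (hV : ContDiff ℝ 1 V) (h : IsSol V γ) (hT : γ T = γ 0) (t : ℝ) :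
    γ (t + T) = γ t := by
  have h1 : (fun t => γ (t + T)) = γ :=
    sol_unique hV (h.shift T) h (t0 := 0) (by simpa using hT)
  exact congrFun h1 t

/-- data of a periodic orbit -/
theorem exists_sol (h : ∃ T, IsPeriod V p T) :
    ∃ γ T, IsSol V γ ∧ γ 0 = p ∧ 0 < T ∧ γ T = p := by
  obtain ⟨T, hT, γ, h1, h2, h3⟩ := h
  exact ⟨γ, T, h1, h2, hT, h3⟩

theorem range_eq_image (hV : ContDiff ℝ 1 V) (h : IsSol V γ) (hT0 : 0 < T) (hT : γ T = γ 0) :
    range γ = γ '' Icc 0 T := by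
  have hper : Function.Periodic γ T := fun t => h.periodic hV hT t
  apply subset_antisymm
  · rintro _ ⟨t, rfl⟩
    obtain ⟨y, hy, hy'⟩ := hper.exists_mem_Ico₀ hT0 t
    exact ⟨y, ⟨hy.1, hy.2.le⟩, hy'.symm⟩
  · rintro _ ⟨t, _, rfl⟩
    exact ⟨t, rfl⟩

theorem orbit_isCompact (hV : ContDiff ℝ 1 V) (h : ∃ T, IsPeriod V p T) :
    IsCompact (orbit V p) := by
  obtain ⟨γ, T, h1, h2, h3, h4⟩ := exists_sol h
  rw [orbit_eq_range hV h1 h2, range_eq_image hV h1 h3 (h4.trans h2.symm)]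
  exact isCompact_Icc.image h1.continuous

theorem orbit_isConnected (hV : ContDiff ℝ 1 V) (h : ∃ T, IsPeriod V p T) :
    IsConnected (orbit V p) := by
  obtain ⟨γ, T, h1, h2, h3, h4⟩ := exists_sol h
  rw [orbit_eq_range hV h1 h2]
  exact isConnected_range h1.continuous

theorem mem_orbit_self (h : ∃ T, IsPeriod V p T) : p ∈ orbit V p := by
  obtain ⟨γ, T, h1, h2, h3, h4⟩ := exists_sol h
  exact ⟨γ, 0, h1, h2, h2⟩

/-- points on the orbit of a periodic point are periodic, with the same periods -/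
theorem isPeriod_of_mem (hV : ContDiff ℝ 1 V) (h : q ∈ orbit V p) :
    IsPeriod V q T ↔ IsPeriod V p T := by
  obtain ⟨γ, t, hγ, h0, rfl⟩ := h
  rw [isPeriod_iff hV hγ h0, isPeriod_iff hV (hγ.shift t) (by simp)]
  constructor
  · rintro ⟨hT, h1⟩
    refine ⟨hT, ?_⟩
    have h2 := (hγ.shift t).periodic hV (T := T) (by simpa using h1) (-t)
    simp only [neg_add_cancel] at h2
    rw [show -t + T + t = T by ring] at h2
    rw [h2, h0]
  · rintro ⟨hT, h1⟩
    refine ⟨hT, ?_⟩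
    have h2 := hγ.periodic hV (T := T) (by rw [h1, h0]) t
    rw [add_comm] at h2
    exact h2

theorem surr_of_mem (hV : ContDiff ℝ 1 V) (hp : p ∈ surr V) (h : q ∈ orbit V p) : q ∈ surr V := by
  obtain ⟨h1, ⟨T, hT⟩, h3, h4⟩ := hp
  have ho := orbit_eq_of_mem hV h
  refine ⟨?_, ⟨T, (isPeriod_of_mem hV h).2 hT⟩, by rw [ho]; exact h3, by rw [ho]; exact h4⟩
  intro hq
  obtain ⟨γ, t, hγ, h0, rfl⟩ := h
  -- the constant solution
  have hc : IsSol V (fun _ => γ t) := by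
    intro s
    have := hasDerivAt_const (x := s) (c := γ t)
    rw [← hq] at this
    exact this
  have := sol_unique hV hγ hc (t0 := t) rfl
  apply h1
  have h5 : p = γ t := by rw [← h0, this]
  rw [h5]
  exact hq

end Pool.Agent.Helper10.CritPer
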