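import Pool.Agent.Helper10.CritPer.Flow

/-!
The canonical system has a centre; its critical periods are the zeros of the derivative of `Per`.
-/

open Set Filter Topology Metric MeasureTheory

namespace Pool.Agent.Helper10.CritPer

variable {n : ℕ} {α D : ℝ}

theorem HH_zero : HH n α D 0 = 0 := by
  simp [HH, AA_zero]

theorem HH_nonneg (hα : 0 < α) (p : ℝ × ℝ) : 0 ≤ HH n α D p := by
  unfold HH
  have h1 := BB_pos (n := n) (D := D) (p.1 ^ 2)
  have h2 := AA_nonneg (n := n) (D := D) hα (sq_nonneg p.1)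
  positivity

theorem HH_pos (hα : 0 < α) {p : ℝ × ℝ} (hp : p ≠ 0) : 0 < HH n α D p := by
  unfold HH
  have h1 := BB_pos (n := n) (D := D) (p.1 ^ 2)
  have h2 := AA_nonneg (n := n) (D := D) hα (sq_nonneg p.1)
  by_cases hx : p.1 = 0
  · have hy : p.2 ≠ 0 := by
      intro hy
      exact hp (Prod.ext hx hy)
    have : 0 < p.2 ^ 2 * BB n D (p.1 ^ 2) := by positivity
    linarith
  · have h3 := AA_pos (n := n) (D := D) hα (by positivity : 0 < p.1 ^ 2)
    have : 0 ≤ p.2 ^ 2 * BB n D (p.1 ^ 2) := by positivity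
    linarith

theorem HH_continuous : Continuous (HH n α D) := by
  unfold HH BB
  have := AA_continuous (n := n) (α := α) (D := D)
  fun_prop

/-- the values of the first integral on the periodic orbits -/
def Om (n : ℕ) (α D : ℝ) : Set (ℝ × ℝ) := {p | ∃ m, 0 ≤ m ∧ AA n α D m = HH n α D p}

theorem exists_mu (hα : 0 < α) {p : ℝ × ℝ} (hp : p ∈ Om n α D) (hp0 : p ≠ 0) :
    ∃ μ, HH n α D p = AA n α D (Real.exp μ) := by
  obtain ⟨m, hm, h⟩ := hp
  have hpos := HH_pos (n := n) (D := D) hα hp0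
  have hm0 : 0 < m := by
    rcases hm.eq_or_lt with h1 | h1
    · rw [← h1, AA_zero] at h
      rw [← h] at hpos
      exact absurd hpos (lt_irrefl _)
    · exact h1
  exact ⟨Real.log m, by rw [Real.exp_log hm0, h]⟩

theorem mem_Om_of_mu {p : ℝ × ℝ} {μ : ℝ} (h : HH n α D p = AA n α D (Real.exp μ)) :
    p ∈ Om n α D := ⟨Real.exp μ, (Real.exp_pos μ).le, h.symm⟩

theorem mem_Om_of_lt (hα : 0 < α) {p : ℝ × ℝ} {m : ℝ} (hm : 0 ≤ m) (h : HH n α D p ≤ AA n α D m) :
    p ∈ Om n α D := by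
  have h1 : HH n α D p ∈ Icc (AA n α D 0) (AA n α D m) := by
    rw [AA_zero]
    exact ⟨HH_nonneg hα p, h⟩
  obtain ⟨m', hm', h2⟩ := intermediate_value_Icc hm AA_continuous.continuousOn h1
  exact ⟨m', hm'.1, h2⟩

theorem VV_zero : VV n α D 0 = 0 := by
  simp [VV]

theorem VV_eq_zero (hα : 0 < α) {p : ℝ × ℝ} (h : VV n α D p = 0) : p = 0 := by
  unfold VV at h
  rw [Prod.mk_eq_zero] at h
  obtain ⟨h1, h2⟩ := h
  rw [h1] at h2
  simp only [ne_eq, OfNat.ofNat_ne_zero, not_false_eq_true, zero_pow, mul_zero, add_zero,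
    neg_mul, neg_eq_zero, mul_eq_zero, hα.ne', false_or] at h2
  have h3 := (pow_eq_zero_iff (by omega)).1 h2
  exact Prod.ext h3 h1

/-- the first integral is constant along solutions -/
theorem HH_const {γ : ℝ → ℝ × ℝ} (h : IsSol (VV n α D) γ) (t s : ℝ) :
    HH n α D (γ t) = HH n α D (γ s) := by
  have hx : ∀ t, HasDerivAt (fun t => (γ t).1) (γ t).2 t := fun t =>
    (hasFDerivAt_fst (𝕜 := ℝ) (E := ℝ) (F := ℝ) (p := γ t)).comp_hasDerivAt t (h t)
  have hy : ∀ t, HasDerivAt (fun t => (γ t).2) (-α * (γ t).1 ^ (2 * n + 3) +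
      (n + 1) * D * (γ t).1 ^ (2 * n + 1) * (γ t).2 ^ 2) t := fun t =>
    (hasFDerivAt_snd (𝕜 := ℝ) (E := ℝ) (F := ℝ) (p := γ t)).comp_hasDerivAt t (h t)
  have hd : ∀ t, HasDerivAt (fun t => HH n α D (γ t)) 0 t := by
    intro t
    have h1 := (hx t).fun_pow 2
    have h2 := (BB_hasDerivAt (n := n) (D := D) ((γ t).1 ^ 2)).comp t h1
    have h3 := (AA_hasDerivAt (n := n) (α := α) (D := D) ((γ t).1 ^ 2)).comp t h1
    have h4 := (((hy t).fun_pow 2).mul h2).add h3
    refine h4.congr_deriv ?_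
    simp only [Function.comp_apply]
    rw [ff_eq]
    push_cast
    ring
  exact is_const_of_deriv_eq_zero (fun t => (hd t).differentiableAt) (fun t => (hd t).deriv) t s

theorem IsSol.fst' {γ : ℝ → ℝ × ℝ} (h : IsSol (VV n α D) γ) (t : ℝ) :
    HasDerivAt (fun t => (γ t).1) (γ t).2 t :=
  (hasFDerivAt_fst (𝕜 := ℝ) (E := ℝ) (F := ℝ) (p := γ t)).comp_hasDerivAt t (h t)

theorem mem_Om_of_periodic (hα : 0 < α) {p : ℝ × ℝ} (h : ∃ T, IsPeriod (VV n α D) p T) :
    p ∈ Om n α D := by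
  by_contra hcon
  have hlt : ∀ m, 0 ≤ m → AA n α D m < HH n α D p := by
    intro m hm
    by_contra h1
    push Not at h1
    exact hcon (mem_Om_of_lt hα hm h1)
  obtain ⟨γ, T, h1, h2, h3, h4⟩ := exists_sol h
  have hne : ∀ t, (γ t).2 ≠ 0 := by
    intro t h0
    have h5 := HH_const h1 t 0
    rw [h2] at h5
    unfold HH at h5
    rw [h0] at h5
    simp only [ne_eq, OfNat.ofNat_ne_zero, not_false_eq_true, zero_pow, zero_mul, zero_add] at h5
    have := hlt _ (sq_nonneg (γ t).1)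
    rw [h5] at this
    unfold HH at this
    exact lt_irrefl _ this
  have hcont : Continuous fun t => (γ t).2 := h1.continuous.snd
  have hxd : ∀ t, HasDerivAt (fun t => (γ t).1) (γ t).2 t := fun t => h1.fst' t
  have hxT : (γ T).1 = (γ 0).1 := by rw [h4, h2]
  rcases lt_or_gt_of_ne (hne 0) with h5 | h5
  · have hneg : ∀ t, (γ t).2 < 0 := by
      intro t
      by_contra h6
      push Not at h6
      have h7 : (0 : ℝ) ∈ range fun t => (γ t).2 :=
        mem_range_of_exists_le_of_exists_ge hcont ⟨0, h5.le⟩ ⟨t, h6⟩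
      obtain ⟨s, hs⟩ := h7
      exact hne s hs
    have hanti : StrictAnti fun t => (γ t).1 := by
      apply strictAnti_of_deriv_neg
      intro t
      rw [(hxd t).deriv]
      exact hneg t
    exact (hanti h3).ne hxT
  · have hpos : ∀ t, 0 < (γ t).2 := by
      intro t
      by_contra h6
      push Not at h6
      have h7 : (0 : ℝ) ∈ range fun t => (γ t).2 :=
        mem_range_of_exists_le_of_exists_ge hcont ⟨t, h6⟩ ⟨0, h5.le⟩
      obtain ⟨s, hs⟩ := h7
      exact hne s hs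
    have hmono : StrictMono fun t => (γ t).1 := by
      apply strictMono_of_deriv_pos
      intro t
      rw [(hxd t).deriv]
      exact hpos t
    exact (hmono h3).ne' hxT

theorem bounded_sub (hα : 0 < α) (μ : ℝ) :
    Bornology.IsBounded {q : ℝ × ℝ | HH n α D q < AA n α D (Real.exp μ)} := by
  set R := Real.exp μ with hR
  have hR0 : 0 < R := Real.exp_pos μ
  set C := AA n α D R * Real.exp (|D| * R ^ (n + 1)) with hC
  have hA := AA_pos (n := n) (D := D) hα hR0
  have hC0 : 0 < C := by positivity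
  apply (isBounded_closedBall (x := (0 : ℝ × ℝ)) (r := max (Real.sqrt R) (Real.sqrt C))).subset
  intro q hq
  have hq' : HH n α D q < AA n α D R := hq
  unfold HH at hq'
  have hB := BB_pos (n := n) (D := D) (q.1 ^ 2)
  have hx : q.1 ^ 2 ≤ R := by
    by_contra hcon
    push Not at hcon
    have h1 := AA_strictMonoOn (n := n) (D := D) hα hR0.le (sq_nonneg q.1) hcon
    have h2 : 0 ≤ q.2 ^ 2 * BB n D (q.1 ^ 2) := by positivity
    linarith
  have hy : q.2 ^ 2 ≤ C := by
    have h1 := AA_nonneg (n := n) (D := D) hα (sq_nonneg q.1)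
    have h2 : q.2 ^ 2 * BB n D (q.1 ^ 2) ≤ AA n α D R := by linarith
    have h3 : Real.exp (-(|D| * R ^ (n + 1))) ≤ BB n D (q.1 ^ 2) := by
      unfold BB
      apply Real.exp_le_exp.2
      have e1 : (q.1 ^ 2) ^ (n + 1) ≤ R ^ (n + 1) := pow_le_pow_left₀ (sq_nonneg _) hx _
      have e2 : D * (q.1 ^ 2) ^ (n + 1) ≤ |D| * R ^ (n + 1) :=
        mul_le_mul (le_abs_self D) e1 (by positivity) (abs_nonneg _)
      linarith
    have h4 : q.2 ^ 2 * Real.exp (-(|D| * R ^ (n + 1))) ≤ AA n α D R :=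
      le_trans (mul_le_mul_of_nonneg_left h3 (sq_nonneg _)) h2
    rw [Real.exp_neg, ← div_eq_mul_inv, div_le_iff₀ (Real.exp_pos _)] at h4
    exact h4
  rw [mem_closedBall_zero_iff, Prod.norm_def]
  apply max_le_max
  · rw [Real.norm_eq_abs]
    exact Real.abs_le_sqrt hx
  · rw [Real.norm_eq_abs]
    exact Real.abs_le_sqrt hy

theorem surr_iff (hα : 0 < α) {p : ℝ × ℝ} :
    p ∈ surr (VV n α D) ↔ p ≠ 0 ∧ p ∈ Om n α D := by
  constructor
  · rintro ⟨h1, h2, h3, h4⟩
    refine ⟨?_, mem_Om_of_periodic hα h2⟩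
    rintro rfl
    exact h1 VV_zero
  · rintro ⟨h1, h2⟩
    obtain ⟨μ, hμ⟩ := exists_mu hα h2 h1
    have horb := orbit_level hα μ hμ
    have hpos := HH_pos (n := n) (D := D) hα h1
    refine ⟨fun h => h1 (VV_eq_zero hα h), ⟨_, (period_level hα μ hμ).1⟩, ?_, ?_⟩
    · rw [horb]
      intro h
      have h' : HH n α D 0 = HH n α D p := h
      rw [HH_zero] at h'
      exact hpos.ne h'
    · apply (bounded_sub hα μ).subset
      rw [← hμ]
      intro q hq
      by_contra hcon
      have hcon' : HH n α D p ≤ HH n α D q := not_lt.1 hcon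
      have hpre : IsPreconnected (HH n α D '' connectedComponentIn (orbit (VV n α D) p)ᶜ 0) :=
        isPreconnected_connectedComponentIn.image _ HH_continuous.continuousOn
      have h0 : (0 : ℝ × ℝ) ∈ (orbit (VV n α D) p)ᶜ := by
        rw [horb]
        intro h
        have h' : HH n α D 0 = HH n α D p := h
        rw [HH_zero] at h'
        exact hpos.ne h'
      have h3 : HH n α D p ∈ HH n α D '' connectedComponentIn (orbit (VV n α D) p)ᶜ 0 := by
        apply hpre.Icc_subset (a := HH n α D 0) (b := HH n α D q)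
        · exact ⟨0, mem_connectedComponentIn h0, rfl⟩
        · exact ⟨q, hq, rfl⟩
        · rw [HH_zero]
          exact ⟨hpos.le, hcon'⟩
      obtain ⟨z, hz, hz'⟩ := h3
      have h4 := connectedComponentIn_subset _ _ hz
      apply h4
      rw [horb]
      exact hz'

theorem zero_mem_Om : (0 : ℝ × ℝ) ∈ Om n α D := ⟨0, le_rfl, by rw [AA_zero, HH_zero]⟩

theorem isOpen_Om (hα : 0 < α) : IsOpen (Om n α D) := by
  rw [isOpen_iff_mem_nhds]
  intro p hp
  obtain ⟨m, hm, h⟩ := hp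
  have h1 : HH n α D p < AA n α D (m + 1) := by
    rw [← h]
    exact AA_strictMonoOn hα hm (by simp only [mem_Ici]; linarith) (by linarith)
  filter_upwards [HH_continuous.continuousAt.eventually (gt_mem_nhds h1)] with q hq
  exact mem_Om_of_lt hα (by linarith : (0 : ℝ) ≤ m + 1) (le_of_lt hq)

theorem surr_union (hα : 0 < α) : surr (VV n α D) ∪ {0} = Om n α D := by
  ext p
  constructor
  · rintro (h | h)
    · exact ((surr_iff hα).1 h).2
    · have : p = 0 := h
      rw [this]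
      exact zero_mem_Om
  · intro h
    by_cases hp : p = 0
    · right
      exact hp
    · left
      exact (surr_iff hα).2 ⟨hp, h⟩

/-- the origin is a centre of the canonical system -/
theorem isCenter_VV (hα : 0 < α) : IsCenter (VV n α D) := by
  refine ⟨VV_zero, ?_⟩
  rw [eventually_nhdsWithin_iff]
  filter_upwards [(isOpen_Om (n := n) (D := D) hα).mem_nhds zero_mem_Om] with p hp hp0
  exact (surr_iff hα).2 ⟨hp0, hp⟩

theorem annulus_eq (hα : 0 < α) :
    annulus (VV n α D) = connectedComponentIn (Om n α D) 0 := by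
  unfold annulus
  rw [surr_union hα, (isOpen_Om hα).interior_eq]

theorem annulus_subset (hα : 0 < α) : annulus (VV n α D) ⊆ Om n α D := by
  rw [annulus_eq hα]
  exact connectedComponentIn_subset _ _

theorem axis_mem_annulus (hα : 0 < α) (r : ℝ) : ((r, 0) : ℝ × ℝ) ∈ annulus (VV n α D) := by
  rw [annulus_eq hα]
  have h1 : IsPreconnected (range fun r : ℝ => ((r, 0) : ℝ × ℝ)) :=
    isPreconnected_range (by fun_prop)
  have h2 : (range fun r : ℝ => ((r, 0) : ℝ × ℝ)) ⊆ Om n α D := by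
    rintro _ ⟨r, rfl⟩
    exact ⟨r ^ 2, sq_nonneg r, by simp [HH]⟩
  exact h1.subset_connectedComponentIn (x := (0 : ℝ × ℝ)) ⟨0, rfl⟩ h2 ⟨r, rfl⟩

/-! derivatives -/

theorem Per_contDiff (hα : 0 < α) : ContDiff ℝ 1 (Per n α D) := by
  have h1 : ContDiff ℝ 1 (Function.uncurry fun μ φ => (gg n α D μ φ)⁻¹) := by
    have h2 : ContDiff ℝ 1 fun z : ℝ × ℝ => Real.sqrt (Gam n α D z) :=
      Gam_contDiff.sqrt fun z => (Gam_pos hα z).ne'
    exact h2.inv fun z => (Real.sqrt_pos.2 (Gam_pos hα z)).ne'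
  exact contDiff_param h1 0 (2 * Real.pi)

theorem AA_contDiff : ContDiff ℝ 1 (AA n α D) := by
  rw [contDiff_one_iff_deriv]
  refine ⟨fun s => (AA_hasDerivAt s).differentiableAt, ?_⟩
  have : deriv (AA n α D) = ff n α D := funext fun s => (AA_hasDerivAt s).deriv
  rw [this]
  exact ff_continuous

theorem HH_contDiff : ContDiff ℝ 1 (HH n α D) := by
  unfold HH BB
  have := AA_contDiff (n := n) (α := α) (D := D)
  fun_prop

theorem HH_fderiv_ne (hα : 0 < α) {p : ℝ × ℝ} (hp : p ≠ 0) : fderiv ℝ (HH n α D) p ≠ 0 := by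
  intro h0
  have hd : HasFDerivAt (HH n α D) (0 : ℝ × ℝ →L[ℝ] ℝ) p := by
    rw [← h0]
    exact (HH_contDiff.differentiable (by norm_num) p).hasFDerivAt
  have hB := BB_pos (n := n) (D := D) (p.1 ^ 2)
  by_cases hy : p.2 = 0
  · have hx : p.1 ≠ 0 := fun hx => hp (Prod.ext hx hy)
    have h1 : HasDerivAt (fun t : ℝ => ((p.1 + t, 0) : ℝ × ℝ)) (1, 0) 0 := by
      have e1 : HasDerivAt (fun t : ℝ => p.1 + t) 1 0 := (hasDerivAt_id (0 : ℝ)).const_add p.1
      exact e1.prodMk (hasDerivAt_const _ _)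
    have hd' : HasFDerivAt (HH n α D) (0 : ℝ × ℝ →L[ℝ] ℝ) (p.1 + 0, 0) := by
      have : ((p.1 + 0, 0) : ℝ × ℝ) = p := Prod.ext (by simp) hy.symm
      rw [this]
      exact hd
    have h2 := HasFDerivAt.comp_hasDerivAt (f := fun t : ℝ => ((p.1 + t, 0) : ℝ × ℝ)) (0 : ℝ)
      hd' h1
    have h3 : HasDerivAt (fun t : ℝ => AA n α D ((p.1 + t) ^ 2))
        (ff n α D ((p.1 + 0) ^ 2) * (2 * (p.1 + 0))) 0 := by
      have e1 : HasDerivAt (fun t : ℝ => p.1 + t) 1 0 := (hasDerivAt_id (0 : ℝ)).const_add p.1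
      have e2 := (AA_hasDerivAt (n := n) (α := α) (D := D) ((p.1 + 0) ^ 2)).comp (0 : ℝ)
        (e1.fun_pow 2)
      refine e2.congr_deriv ?_
      simp
    have h4 : (HH n α D ∘ fun t : ℝ => ((p.1 + t, 0) : ℝ × ℝ)) =
        fun t : ℝ => AA n α D ((p.1 + t) ^ 2) := by
      funext t
      simp [HH]
    rw [h4] at h2
    have h5 := h2.unique h3
    simp only [ContinuousLinearMap.zero_apply, add_zero] at h5
    have h6 := ff_pos (n := n) (D := D) hα (by positivity : 0 < p.1 ^ 2)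
    have h7 : ff n α D (p.1 ^ 2) * (2 * p.1) ≠ 0 := by positivity
    exact h7 h5.symm
  · have h1 : HasDerivAt (fun t : ℝ => ((p.1, p.2 + t) : ℝ × ℝ)) (0, 1) 0 := by
      have e1 : HasDerivAt (fun t : ℝ => p.2 + t) 1 0 := (hasDerivAt_id (0 : ℝ)).const_add p.2
      exact (hasDerivAt_const _ _).prodMk e1
    have hd' : HasFDerivAt (HH n α D) (0 : ℝ × ℝ →L[ℝ] ℝ) (p.1, p.2 + 0) := by
      have : ((p.1, p.2 + 0) : ℝ × ℝ) = p := Prod.ext rfl (by simp)
      rw [this]
      exact hd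
    have h2 := HasFDerivAt.comp_hasDerivAt (f := fun t : ℝ => ((p.1, p.2 + t) : ℝ × ℝ)) (0 : ℝ)
      hd' h1
    have h3 : HasDerivAt (fun t : ℝ => (p.2 + t) ^ 2 * BB n D (p.1 ^ 2) + AA n α D (p.1 ^ 2))
        (2 * (p.2 + 0) * BB n D (p.1 ^ 2)) 0 := by
      have e1 : HasDerivAt (fun t : ℝ => p.2 + t) 1 0 := (hasDerivAt_id (0 : ℝ)).const_add p.2
      have e2 := ((e1.fun_pow 2).mul_const (BB n D (p.1 ^ 2))).add_const (AA n α D (p.1 ^ 2))
      refine e2.congr_deriv ?_
      simp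
    have h4 : (HH n α D ∘ fun t : ℝ => ((p.1, p.2 + t) : ℝ × ℝ)) =
        fun t : ℝ => (p.2 + t) ^ 2 * BB n D (p.1 ^ 2) + AA n α D (p.1 ^ 2) := by
      funext t
      simp [HH]
    rw [h4] at h2
    have h5 := h2.unique h3
    simp only [ContinuousLinearMap.zero_apply, add_zero] at h5
    have h7 : 2 * p.2 * BB n D (p.1 ^ 2) ≠ 0 := by positivity
    exact h7 h5.symm

/-- derivative of the period function -/
theorem period_fderiv (hα : 0 < α) {p : ℝ × ℝ} {μ : ℝ} (hp0 : p ≠ 0)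
    (hμ : HH n α D p = AA n α D (Real.exp μ)) :
    fderiv ℝ (period (VV n α D)) p = 0 ↔ deriv (Per n α D) μ = 0 := by
  set a : ℝ → ℝ := fun μ => AA n α D (Real.exp μ) with ha
  have had : HasStrictDerivAt a (ff n α D (Real.exp μ) * Real.exp μ) μ := by
    have h1 : HasStrictDerivAt (AA n α D) (ff n α D (Real.exp μ)) (Real.exp μ) :=
      ff_continuous.integral_hasStrictDerivAt 0 _
    exact h1.comp μ (Real.hasStrictDerivAt_exp μ)
  have hne : ff n α D (Real.exp μ) * Real.exp μ ≠ 0 := by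
    have := ff_pos (n := n) (D := D) hα (Real.exp_pos μ)
    positivity
  set L := had.localInverse a _ μ hne with hL
  have hLd : HasStrictDerivAt L (ff n α D (Real.exp μ) * Real.exp μ)⁻¹ (a μ) :=
    had.to_localInverse hne
  have hL0 : L (a μ) = μ :=
    HasStrictFDerivAt.localInverse_apply_image (had.hasStrictFDerivAt_equiv hne)
  have hLr : ∀ᶠ y in 𝓝 (a μ), a (L y) = y :=
    HasStrictFDerivAt.eventually_right_inverse (had.hasStrictFDerivAt_equiv hne)
  have hPer : HasDerivAt (Per n α D) (deriv (Per n α D) μ) (L (HH n α D p)) := by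
    rw [hμ]
    change HasDerivAt (Per n α D) (deriv (Per n α D) μ) (L (a μ))
    rw [hL0]
    exact ((Per_contDiff hα).differentiable (by norm_num) μ).hasDerivAt
  have hLd' : HasDerivAt L (ff n α D (Real.exp μ) * Real.exp μ)⁻¹ (HH n α D p) := by
    rw [hμ]
    exact hLd.hasDerivAt
  have hcomp : HasDerivAt (Per n α D ∘ L) (deriv (Per n α D) μ *
      (ff n α D (Real.exp μ) * Real.exp μ)⁻¹) (HH n α D p) := hPer.comp _ hLd'
  have hHd : HasFDerivAt (HH n α D) (fderiv ℝ (HH n α D) p) p :=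
    (HH_contDiff.differentiable (by norm_num) p).hasFDerivAt
  have hfin := hcomp.comp_hasFDerivAt p hHd
  have hev : period (VV n α D) =ᶠ[𝓝 p] (Per n α D ∘ L) ∘ HH n α D := by
    have h1 : Tendsto (HH n α D) (𝓝 p) (𝓝 (a μ)) := by
      have : HH n α D p = a μ := hμ
      rw [← this]
      exact HH_continuous.continuousAt
    filter_upwards [h1.eventually hLr] with q hq
    have h2 : HH n α D q = AA n α D (Real.exp (L (HH n α D q))) := hq.symm
    exact (period_level hα _ h2).2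
  have hfin2 := hfin.congr_of_eventuallyEq hev
  rw [hfin2.fderiv]
  constructor
  · intro h
    have h1 := (smul_eq_zero.1 h).resolve_right (HH_fderiv_ne hα hp0)
    exact (mul_eq_zero.1 h1).resolve_right (inv_ne_zero hne)
  · intro h
    rw [h]
    simp

theorem AAexp_injective (hα : 0 < α) :
    Function.Injective fun μ : ℝ => AA n α D (Real.exp μ) := by
  intro μ ν h
  have h1 := (AA_strictMonoOn (n := n) (D := D) hα).injOn (Real.exp_pos μ).le (Real.exp_pos ν).le h
  exact Real.exp_injective h1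

/-- at most one critical period -/
theorem critOrbits_le_one (hα : 0 < α)
    (h : ∀ μ ν, deriv (Per n α D) μ = 0 → deriv (Per n α D) ν = 0 → μ = ν) :
    (critOrbits (VV n α D)).encard ≤ 1 := by
  rw [encard_le_one_iff]
  rintro O O' ⟨p, hp, hp0, rfl, hf, -⟩ ⟨p', hp', hp0', rfl, hf', -⟩
  obtain ⟨μ, hμ⟩ := exists_mu hα (annulus_subset hα hp) hp0
  obtain ⟨ν, hν⟩ := exists_mu hα (annulus_subset hα hp') hp0'
  have h1 := h μ ν ((period_fderiv hα hp0 hμ).1 hf) ((period_fderiv hα hp0' hν).1 hf')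
  rw [orbit_level hα μ hμ, orbit_level hα ν hν, hμ, hν, h1]

/-- at least one critical period -/
theorem one_le_critOrbits (hα : 0 < α) {μ : ℝ} (h0 : deriv (Per n α D) μ = 0)
    (h : ∀ ν, ν ≠ μ → deriv (Per n α D) ν ≠ 0) :
    1 ≤ (critOrbits (VV n α D)).encard := by
  rw [one_le_encard_iff_nonempty]
  have hR := Real.exp_pos (μ / 2)
  set p : ℝ × ℝ := (Real.exp (μ / 2), 0) with hp
  have hp0 : p ≠ 0 := by
    intro h1
    have := congrArg Prod.fst h1
    simp only [hp, Prod.fst_zero] at this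
    exact hR.ne' this
  have hμ : HH n α D p = AA n α D (Real.exp μ) := by
    simp only [HH, hp]
    rw [exp_half_sq]
    ring
  refine ⟨orbit (VV n α D) p, p, axis_mem_annulus hα _, hp0, rfl,
    (period_fderiv hα hp0 hμ).2 h0, Om n α D ∩ {0}ᶜ, ?_, ?_⟩
  · exact ((isOpen_Om hα).inter isOpen_compl_singleton).mem_nhds ⟨mem_Om_of_mu hμ, hp0⟩
  · rintro q ⟨hq, hq0⟩ hqO
    have hq0' : q ≠ 0 := hq0
    obtain ⟨ν, hν⟩ := exists_mu hα hq hq0'
    rw [ne_eq, period_fderiv hα hq0' hν]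
    apply h
    rintro rfl
    apply hqO
    rw [orbit_level hα ν hμ]
    exact hν.trans hμ.symm

end Pool.Agent.Helper10.CritPer
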