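import Pool.Agent.Helper10.CritPer.Small

/-!
Necessary conditions for a centre in the family with `(k, l) = (0, 1)`.
-/

open Set Filter Topology Metric

namespace Pool.Agent.Helper10.CritPer

theorem form_contDiff (n : ℕ) (c : ℕ → ℝ) : ContDiff ℝ ⊤ (form n c) := by
  unfold form
  fun_prop

theorem field_contDiff (k l : ℕ) (a b : ℕ → ℝ) : ContDiff ℝ ⊤ (field k l a b) := by
  unfold field
  exact (form_contDiff _ _).prodMk (form_contDiff _ _)

theorem field_contDiff_one (k l : ℕ) (a b : ℕ → ℝ) : ContDiff ℝ 1 (field k l a b) :=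
  (field_contDiff k l a b).of_le le_top

/-- a periodic function with nonnegative derivative has derivative zero -/
theorem periodic_deriv_zero {u g : ℝ → ℝ} {T : ℝ} (hT : 0 < T) (hu : ∀ t, HasDerivAt u (g t) t)
    (hper : ∀ t, u (t + T) = u t) (hg : ∀ t, 0 ≤ g t) (t : ℝ) : g t = 0 := by
  have hmono : Monotone u := monotone_of_hasDerivAt_nonneg (f' := g) hu hg
  have hp : Function.Periodic u T := hper
  have hconst : ∀ s, u s = u t := by
    intro s
    obtain ⟨n, hn⟩ : ∃ n : ℕ, |s - t| < n * T := by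
      obtain ⟨n, hn⟩ := exists_nat_gt (|s - t| / T)
      exact ⟨n, (div_lt_iff₀ hT).1 hn⟩
    have h1 := abs_lt.1 hn
    have h2 : u (t + n * T) = u t := hp.nat_mul n t
    have h3 : u (s + n * T) = u s := hp.nat_mul n s
    apply le_antisymm
    · rw [← h2]
      exact hmono (by linarith [h1.2])
    · rw [← h3]
      exact hmono (by linarith [h1.1])
  have h4 : HasDerivAt u 0 t := by
    have : u = fun _ => u t := funext hconst
    rw [this]
    exact hasDerivAt_const t _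
  exact (hu t).unique h4

/-- there are small periodic orbits of the system `x' = Y`, `Y' = eY + c0 x³ + ...` -/
def SmallSys (e c0 c1 c2 c3 : ℝ) : Prop := ∀ η > 0, ∃ (x Y : ℝ → ℝ) (T : ℝ), 0 < T ∧
  (∀ t, HasDerivAt x (Y t) t) ∧
  (∀ t, HasDerivAt Y (e * Y t + c0 * x t ^ 3 + c1 * x t ^ 2 * Y t + c2 * x t * Y t ^ 2
    + c3 * Y t ^ 3) t) ∧
  (∀ t, x (t + T) = x t) ∧ (∀ t, Y (t + T) = Y t) ∧ (∀ t, |x t| ≤ η) ∧ (∀ t, |Y t| ≤ η) ∧
  ∃ t, Y t ≠ 0

theorem SmallSys.e_eq {e c0 c1 c2 c3 : ℝ} (h : SmallSys e c0 c1 c2 c3) : e = 0 := by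
  by_contra he
  have he' : 0 < |e| := abs_pos.2 he
  set S := |c1| + |c2| + |c3| + 1 with hS
  have hS0 : 0 < S := by positivity
  obtain ⟨x, Y, T, hT, hx, hY, hxp, hYp, hxs, hYs, t0, ht0⟩ :=
    h (min 1 (|e| / (2 * S))) (lt_min one_pos (by positivity))
  have key : ∀ t, |c1 * x t ^ 2 + c2 * x t * Y t + c3 * Y t ^ 2| ≤ |e| / 2 := by
    intro t
    have h1 : |x t| ≤ 1 := le_trans (hxs t) (min_le_left _ _)
    have h2 : |Y t| ≤ 1 := le_trans (hYs t) (min_le_left _ _)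
    have h3 : |x t| ≤ |e| / (2 * S) := le_trans (hxs t) (min_le_right _ _)
    have h4 : |Y t| ≤ |e| / (2 * S) := le_trans (hYs t) (min_le_right _ _)
    have hq : 0 ≤ |e| / (2 * S) := by positivity
    have e1 : |c1 * x t ^ 2| ≤ |c1| * (|e| / (2 * S)) := by
      rw [abs_mul, abs_pow]
      apply mul_le_mul_of_nonneg_left _ (abs_nonneg _)
      nlinarith [abs_nonneg (x t)]
    have e2 : |c2 * x t * Y t| ≤ |c2| * (|e| / (2 * S)) := by
      rw [abs_mul, abs_mul, mul_assoc]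
      apply mul_le_mul_of_nonneg_left _ (abs_nonneg _)
      nlinarith [abs_nonneg (x t), abs_nonneg (Y t)]
    have e3 : |c3 * Y t ^ 2| ≤ |c3| * (|e| / (2 * S)) := by
      rw [abs_mul, abs_pow]
      apply mul_le_mul_of_nonneg_left _ (abs_nonneg _)
      nlinarith [abs_nonneg (Y t)]
    have e4 : (|c1| + |c2| + |c3|) * (|e| / (2 * S)) ≤ |e| / 2 := by
      have : S * (|e| / (2 * S)) = |e| / 2 := by
        field_simp
      rw [← this]
      apply mul_le_mul_of_nonneg_right _ hq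
      rw [hS]
      linarith
    calc |c1 * x t ^ 2 + c2 * x t * Y t + c3 * Y t ^ 2|
        ≤ |c1 * x t ^ 2| + |c2 * x t * Y t| + |c3 * Y t ^ 2| := abs_add_three _ _ _
      _ ≤ (|c1| + |c2| + |c3|) * (|e| / (2 * S)) := by linarith
      _ ≤ |e| / 2 := e4
  have hder : ∀ t, HasDerivAt (fun t => e * (Y t ^ 2 / 2 - c0 * x t ^ 4 / 4))
      (e * (Y t ^ 2 * (e + (c1 * x t ^ 2 + c2 * x t * Y t + c3 * Y t ^ 2)))) t := by
    intro t
    have h1 := (((hY t).pow 2).div_const 2).sub ((((hx t).pow 4).const_mul c0).div_const 4)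
    refine (h1.const_mul e).congr_deriv ?_
    push_cast
    ring
  have hnn : ∀ t, e ^ 2 / 2 * Y t ^ 2 ≤
      e * (Y t ^ 2 * (e + (c1 * x t ^ 2 + c2 * x t * Y t + c3 * Y t ^ 2))) := by
    intro t
    set z := c1 * x t ^ 2 + c2 * x t * Y t + c3 * Y t ^ 2 with hz
    have h1 := key t
    have h2 : -(e ^ 2 / 2) ≤ e * z := by
      have h3 : |e * z| ≤ e ^ 2 / 2 := by
        rw [abs_mul]
        have : |e| * |z| ≤ |e| * (|e| / 2) := mul_le_mul_of_nonneg_left h1 (abs_nonneg _)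
        have h5 : |e| * |e| = e ^ 2 := by rw [← sq, sq_abs]
        linarith [h5]
      exact (abs_le.1 h3).1
    nlinarith [sq_nonneg (Y t)]
  have h0 := periodic_deriv_zero hT hder (fun t => by simp only [hxp, hYp])
    (fun t => le_trans (by positivity) (hnn t)) t0
  have h5 := hnn t0
  rw [h0] at h5
  have h6 : 0 < e ^ 2 / 2 * Y t0 ^ 2 := by positivity
  linarith

theorem SmallSys.c0_neg {c0 c1 c2 c3 : ℝ} (h : SmallSys 0 c0 c1 c2 c3) : c0 < 0 := by
  by_contra hc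
  push Not at hc
  set S := |c2| + |c3| + 1 with hS
  have hS0 : 0 < S := by positivity
  obtain ⟨x, Y, T, hT, hx, hY, hxp, hYp, hxs, hYs, t0, ht0⟩ :=
    h (min 1 (1 / (2 * S))) (lt_min one_pos (by positivity))
  have key : ∀ t, |c2 * x t ^ 2 + c3 * x t * Y t| ≤ 1 / 2 := by
    intro t
    have h1 : |x t| ≤ 1 := le_trans (hxs t) (min_le_left _ _)
    have h2 : |Y t| ≤ 1 := le_trans (hYs t) (min_le_left _ _)
    have h3 : |x t| ≤ 1 / (2 * S) := le_trans (hxs t) (min_le_right _ _)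
    have hq : 0 ≤ 1 / (2 * S) := by positivity
    have e1 : |c2 * x t ^ 2| ≤ |c2| * (1 / (2 * S)) := by
      rw [abs_mul, abs_pow]
      apply mul_le_mul_of_nonneg_left _ (abs_nonneg _)
      nlinarith [abs_nonneg (x t)]
    have e2 : |c3 * x t * Y t| ≤ |c3| * (1 / (2 * S)) := by
      rw [abs_mul, abs_mul, mul_assoc]
      apply mul_le_mul_of_nonneg_left _ (abs_nonneg _)
      nlinarith [abs_nonneg (x t), abs_nonneg (Y t)]
    have e4 : (|c2| + |c3|) * (1 / (2 * S)) ≤ 1 / 2 := by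
      have : S * (1 / (2 * S)) = 1 / 2 := by
        field_simp
      rw [← this]
      apply mul_le_mul_of_nonneg_right _ hq
      rw [hS]
      linarith
    calc |c2 * x t ^ 2 + c3 * x t * Y t|
        ≤ |c2 * x t ^ 2| + |c3 * x t * Y t| := abs_add_le _ _
      _ ≤ (|c2| + |c3|) * (1 / (2 * S)) := by linarith
      _ ≤ 1 / 2 := e4
  have hder : ∀ t, HasDerivAt (fun t => x t * Y t - c1 * x t ^ 4 / 4)
      (Y t ^ 2 * (1 + (c2 * x t ^ 2 + c3 * x t * Y t)) + c0 * x t ^ 4) t := by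
    intro t
    have h1 := ((hx t).mul (hY t)).sub ((((hx t).pow 4).const_mul c1).div_const 4)
    refine h1.congr_deriv ?_
    push_cast
    ring
  have hnn : ∀ t, 1 / 2 * Y t ^ 2 ≤
      Y t ^ 2 * (1 + (c2 * x t ^ 2 + c3 * x t * Y t)) + c0 * x t ^ 4 := by
    intro t
    have h1 := (abs_le.1 (key t)).1
    have h2 : 0 ≤ c0 * x t ^ 4 := by positivity
    nlinarith [sq_nonneg (Y t)]
  have h0 := periodic_deriv_zero hT hder (fun t => by simp only [hxp, hYp])
    (fun t => le_trans (by positivity) (hnn t)) t0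
  have h5 := hnn t0
  rw [h0] at h5
  have h6 : 0 < 1 / 2 * Y t0 ^ 2 := by positivity
  linarith

/-- the first integral of the reversible part -/
noncomputable def kint (c : ℝ) (x : ℝ) : ℝ := ∫ s in (0 : ℝ)..x, s ^ 3 * Real.exp (-c * s ^ 2)

theorem kint_hasDerivAt (c x : ℝ) : HasDerivAt (kint c) (x ^ 3 * Real.exp (-c * x ^ 2)) x := by
  have h1 : Continuous fun s : ℝ => s ^ 3 * Real.exp (-c * s ^ 2) := by fun_prop
  exact (h1.integral_hasStrictDerivAt 0 x).hasDerivAt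

/-- derivative of the function `H` along the flow -/
theorem hder_A {c0 c1 c2 c3 : ℝ} {x Y : ℝ → ℝ} (hx : ∀ t, HasDerivAt x (Y t) t)
    (hY : ∀ t, HasDerivAt Y (0 * Y t + c0 * x t ^ 3 + c1 * x t ^ 2 * Y t + c2 * x t * Y t ^ 2
      + c3 * Y t ^ 3) t) (t : ℝ) :
    HasDerivAt (fun t => Y t ^ 2 / 2 * Real.exp (-c2 * x t ^ 2) - c0 * kint c2 (x t))
      (Real.exp (-c2 * x t ^ 2) * (Y t ^ 2 * (c1 * x t ^ 2 + c3 * Y t ^ 2))) t := by
  have h1 := (((hx t).pow 2).const_mul (-c2)).exp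
  have h2 := (((hY t).pow 2).div_const 2).mul h1
  have h3 := ((kint_hasDerivAt c2 (x t)).comp t (hx t)).const_mul c0
  have h4 := h2.sub h3
  refine h4.congr_deriv ?_
  simp only [Pi.pow_apply]
  push_cast
  ring

theorem SmallSys.c1_eq {c0 c1 c2 c3 : ℝ} (h : SmallSys 0 c0 c1 c2 c3) : c1 = 0 := by
  by_contra hc
  have hc1 : 0 < c1 ^ 2 := by positivity
  set M := 4 * |c1 * c3| + 2 with hM
  have hM0 : 0 < M := by positivity
  set S := 3 * M * (|c0| + |c1|) + 1 with hS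
  have hS0 : 0 < S := by positivity
  set S2 := 3 * |c2| + 3 * |c3| + 1 with hS2
  have hS20 : 0 < S2 := by positivity
  -- the choice of the size of the orbit
  set η := min (min 1 (1 / (2 * S2))) (min (c1 ^ 2 / (2 * S)) (Real.log 2 / (|c2| + 1))) with hη
  have hlog : 0 < Real.log 2 := Real.log_pos (by norm_num)
  have hη0 : 0 < η := lt_min (lt_min one_pos (by positivity)) (lt_min (by positivity) (by positivity))
  have hη1 : η ≤ 1 := le_trans (min_le_left _ _) (min_le_left _ _)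
  have hη2 : η ≤ 1 / (2 * S2) := le_trans (min_le_left _ _) (min_le_right _ _)
  have hη3 : η ≤ c1 ^ 2 / (2 * S) := le_trans (min_le_right _ _) (min_le_left _ _)
  have hη4 : η ≤ Real.log 2 / (|c2| + 1) := le_trans (min_le_right _ _) (min_le_right _ _)
  obtain ⟨x, Y, T, hT, hx, hY, hxp, hYp, hxs, hYs, t0, ht0⟩ := h η hη0
  have hx2 : ∀ t, x t ^ 2 ≤ η := by
    intro t
    have h1 := hxs t
    have : x t ^ 2 = |x t| ^ 2 := (sq_abs _).symm
    rw [this]
    nlinarith [abs_nonneg (x t)]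
  have hY2 : ∀ t, Y t ^ 2 ≤ η := by
    intro t
    have h1 := hYs t
    have : Y t ^ 2 = |Y t| ^ 2 := (sq_abs _).symm
    rw [this]
    nlinarith [abs_nonneg (Y t)]
  have hxY : ∀ t, |x t * Y t| ≤ η := by
    intro t
    rw [abs_mul]
    have h1 := hxs t
    have h2 := hYs t
    nlinarith [abs_nonneg (x t), abs_nonneg (Y t)]
  -- bounds for the exponential
  have hexp : ∀ t, 1 / 2 ≤ Real.exp (-c2 * x t ^ 2) ∧ Real.exp (-c2 * x t ^ 2) ≤ 2 := by
    intro t
    have h1 : |(-c2 * x t ^ 2)| ≤ Real.log 2 := by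
      rw [abs_mul, abs_neg, abs_of_nonneg (sq_nonneg (x t))]
      have h2 : |c2| * x t ^ 2 ≤ (|c2| + 1) * η := by
        apply mul_le_mul _ (hx2 t) (sq_nonneg _) (by positivity)
        linarith
      have h3 : (|c2| + 1) * η ≤ Real.log 2 := by
        have h4 : (|c2| + 1) * (Real.log 2 / (|c2| + 1)) = Real.log 2 := by
          field_simp
        rw [← h4]
        exact mul_le_mul_of_nonneg_left hη4 (by positivity)
      linarith
    have h5 := abs_le.1 h1
    constructor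
    · have : Real.exp (-Real.log 2) ≤ Real.exp (-c2 * x t ^ 2) := Real.exp_le_exp.2 h5.1
      rw [Real.exp_neg, Real.exp_log (by norm_num)] at this
      linarith
    · have : Real.exp (-c2 * x t ^ 2) ≤ Real.exp (Real.log 2) := Real.exp_le_exp.2 h5.2
      rw [Real.exp_log (by norm_num)] at this
      exact this
  -- the second function
  have hder_B : ∀ t, HasDerivAt (fun t => x t * Y t ^ 3)
      (Y t ^ 4 * (1 + (3 * c2 * x t ^ 2 + 3 * c3 * (x t * Y t)))
        + 3 * (c0 * x t ^ 2 + c1 * (x t * Y t)) * (x t ^ 2 * Y t ^ 2)) t := by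
    intro t
    have h1 := (hx t).mul ((hY t).pow 3)
    refine h1.congr_deriv ?_
    simp only [Pi.pow_apply]
    push_cast
    ring
  have hder : ∀ t, HasDerivAt (fun t => c1 * (Y t ^ 2 / 2 * Real.exp (-c2 * x t ^ 2)
      - c0 * kint c2 (x t)) + M * (x t * Y t ^ 3))
      (c1 * (Real.exp (-c2 * x t ^ 2) * (Y t ^ 2 * (c1 * x t ^ 2 + c3 * Y t ^ 2)))
        + M * (Y t ^ 4 * (1 + (3 * c2 * x t ^ 2 + 3 * c3 * (x t * Y t)))
        + 3 * (c0 * x t ^ 2 + c1 * (x t * Y t)) * (x t ^ 2 * Y t ^ 2))) t := by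
    intro t
    exact ((hder_A hx hY t).const_mul c1).add ((hder_B t).const_mul M)
  have hnn : ∀ t, Y t ^ 4 ≤
      c1 * (Real.exp (-c2 * x t ^ 2) * (Y t ^ 2 * (c1 * x t ^ 2 + c3 * Y t ^ 2)))
        + M * (Y t ^ 4 * (1 + (3 * c2 * x t ^ 2 + 3 * c3 * (x t * Y t)))
        + 3 * (c0 * x t ^ 2 + c1 * (x t * Y t)) * (x t ^ 2 * Y t ^ 2)) := by
    intro t
    set E := Real.exp (-c2 * x t ^ 2) with hE
    obtain ⟨hE1, hE2⟩ := hexp t
    have hY4 : 0 ≤ Y t ^ 4 := by positivity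
    have hxY2 : 0 ≤ x t ^ 2 * Y t ^ 2 := by positivity
    -- first part
    have p1 : 1 / 2 * c1 ^ 2 * (x t ^ 2 * Y t ^ 2) - 2 * |c1 * c3| * Y t ^ 4 ≤
        c1 * (E * (Y t ^ 2 * (c1 * x t ^ 2 + c3 * Y t ^ 2))) := by
      have e1 : c1 * (E * (Y t ^ 2 * (c1 * x t ^ 2 + c3 * Y t ^ 2))) =
          E * (c1 ^ 2 * (x t ^ 2 * Y t ^ 2)) + (E * Y t ^ 4) * (c1 * c3) := by ring
      rw [e1]
      have e2 : 1 / 2 * (c1 ^ 2 * (x t ^ 2 * Y t ^ 2)) ≤ E * (c1 ^ 2 * (x t ^ 2 * Y t ^ 2)) :=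
        mul_le_mul_of_nonneg_right hE1 (by positivity)
      have e3 : -(2 * Y t ^ 4 * |c1 * c3|) ≤ (E * Y t ^ 4) * (c1 * c3) := by
        have e4 : |(E * Y t ^ 4) * (c1 * c3)| ≤ 2 * Y t ^ 4 * |c1 * c3| := by
          rw [abs_mul, abs_of_nonneg (by positivity : 0 ≤ E * Y t ^ 4)]
          apply mul_le_mul_of_nonneg_right _ (abs_nonneg _)
          exact mul_le_mul_of_nonneg_right hE2 hY4
        exact (abs_le.1 e4).1
      linarith
    -- second part
    have q1 : |3 * c2 * x t ^ 2 + 3 * c3 * (x t * Y t)| ≤ 1 / 2 := by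
      have f1 : |3 * c2 * x t ^ 2| ≤ 3 * |c2| * η := by
        rw [abs_mul, abs_mul, abs_of_nonneg (sq_nonneg (x t)),
          abs_of_nonneg (by norm_num : (0 : ℝ) ≤ 3)]
        exact mul_le_mul_of_nonneg_left (hx2 t) (by positivity)
      have f2 : |3 * c3 * (x t * Y t)| ≤ 3 * |c3| * η := by
        rw [abs_mul, abs_mul 3, abs_of_nonneg (by norm_num : (0 : ℝ) ≤ 3)]
        exact mul_le_mul_of_nonneg_left (hxY t) (by positivity)
      have f3 : S2 * η ≤ 1 / 2 := by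
        have : S2 * (1 / (2 * S2)) = 1 / 2 := by field_simp
        rw [← this]
        exact mul_le_mul_of_nonneg_left hη2 hS20.le
      have f4 := abs_add_le (3 * c2 * x t ^ 2) (3 * c3 * (x t * Y t))
      have f5 : 3 * |c2| * η + 3 * |c3| * η ≤ S2 * η := by
        rw [hS2]
        nlinarith
      linarith
    have p2 : 1 / 2 * Y t ^ 4 ≤ Y t ^ 4 * (1 + (3 * c2 * x t ^ 2 + 3 * c3 * (x t * Y t))) := by
      have := (abs_le.1 q1).1
      nlinarith
    have q2 : |c0 * x t ^ 2 + c1 * (x t * Y t)| ≤ (|c0| + |c1|) * η := by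
      have f1 : |c0 * x t ^ 2| ≤ |c0| * η := by
        rw [abs_mul, abs_of_nonneg (sq_nonneg (x t))]
        exact mul_le_mul_of_nonneg_left (hx2 t) (by positivity)
      have f2 : |c1 * (x t * Y t)| ≤ |c1| * η := by
        rw [abs_mul]
        exact mul_le_mul_of_nonneg_left (hxY t) (by positivity)
      have f4 := abs_add_le (c0 * x t ^ 2) (c1 * (x t * Y t))
      linarith
    have p3 : -(3 * ((|c0| + |c1|) * η) * (x t ^ 2 * Y t ^ 2)) ≤
        3 * (c0 * x t ^ 2 + c1 * (x t * Y t)) * (x t ^ 2 * Y t ^ 2) := by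
      have := (abs_le.1 q2).1
      nlinarith
    have p4 : 3 * M * (|c0| + |c1|) * η ≤ c1 ^ 2 / 2 := by
      have f1 : 3 * M * (|c0| + |c1|) * η ≤ S * η := by
        rw [hS]
        nlinarith
      have f2 : S * η ≤ S * (c1 ^ 2 / (2 * S)) := mul_le_mul_of_nonneg_left hη3 hS0.le
      have f3 : S * (c1 ^ 2 / (2 * S)) = c1 ^ 2 / 2 := by field_simp
      linarith
    have p5 : M * (1 / 2 * Y t ^ 4 - 3 * ((|c0| + |c1|) * η) * (x t ^ 2 * Y t ^ 2)) ≤
        M * (Y t ^ 4 * (1 + (3 * c2 * x t ^ 2 + 3 * c3 * (x t * Y t)))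
        + 3 * (c0 * x t ^ 2 + c1 * (x t * Y t)) * (x t ^ 2 * Y t ^ 2)) := by
      apply mul_le_mul_of_nonneg_left _ hM0.le
      linarith
    have p6 : 3 * M * (|c0| + |c1|) * η * (x t ^ 2 * Y t ^ 2) ≤
        c1 ^ 2 / 2 * (x t ^ 2 * Y t ^ 2) := mul_le_mul_of_nonneg_right p4 hxY2
    have p7 : M * (1 / 2 * Y t ^ 4) = 2 * |c1 * c3| * Y t ^ 4 + Y t ^ 4 := by
      rw [hM]
      ring
    nlinarith [p1, p5, p6, p7]
  have h0 := periodic_deriv_zero hT hder (fun t => by simp only [hxp, hYp])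
    (fun t => le_trans (by positivity) (hnn t)) t0
  have h5 := hnn t0
  rw [h0] at h5
  have h6 : 0 < Y t0 ^ 4 := by positivity
  linarith

theorem SmallSys.c3_eq {c0 c2 c3 : ℝ} (h : SmallSys 0 c0 0 c2 c3) : c3 = 0 := by
  by_contra hc
  obtain ⟨x, Y, T, hT, hx, hY, hxp, hYp, hxs, hYs, t0, ht0⟩ := h 1 one_pos
  have hder : ∀ t, HasDerivAt (fun t => c3 * (Y t ^ 2 / 2 * Real.exp (-c2 * x t ^ 2)
      - c0 * kint c2 (x t))) (c3 * (Real.exp (-c2 * x t ^ 2) * (Y t ^ 2 * (0 * x t ^ 2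
        + c3 * Y t ^ 2)))) t := fun t => (hder_A hx hY t).const_mul c3
  have hnn : ∀ t, c3 * (Real.exp (-c2 * x t ^ 2) * (Y t ^ 2 * (0 * x t ^ 2
        + c3 * Y t ^ 2))) = Real.exp (-c2 * x t ^ 2) * (c3 ^ 2 * Y t ^ 4) := by
    intro t
    ring
  have h0 := periodic_deriv_zero hT hder (fun t => by simp only [hxp, hYp])
    (fun t => by rw [hnn]; positivity) t0
  rw [hnn] at h0
  have : 0 < Real.exp (-c2 * x t0 ^ 2) * (c3 ^ 2 * Y t0 ^ 4) := by positivity
  linarith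

end Pool.Agent.Helper10.CritPer
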