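import Pool.Agent.Helper10.CritPer.Class

/-!
The centres of the family with `(k, l) = (0, 1)`.
-/

open Set Filter Topology Metric

namespace Pool.Agent.Helper10.CritPer

theorem IsSol.fst {V : ℝ × ℝ → ℝ × ℝ} {γ : ℝ → ℝ × ℝ} (h : IsSol V γ) (t : ℝ) :
    HasDerivAt (fun t => (γ t).1) (V (γ t)).1 t :=
  (hasFDerivAt_fst (𝕜 := ℝ) (E := ℝ) (F := ℝ) (p := γ t)).comp_hasDerivAt t (h t)

theorem IsSol.snd {V : ℝ × ℝ → ℝ × ℝ} {γ : ℝ → ℝ × ℝ} (h : IsSol V γ) (t : ℝ) :
    HasDerivAt (fun t => (γ t).2) (V (γ t)).2 t :=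
  (hasFDerivAt_snd (𝕜 := ℝ) (E := ℝ) (F := ℝ) (p := γ t)).comp_hasDerivAt t (h t)

theorem field01_eq (a b : ℕ → ℝ) (z : ℝ × ℝ) : field 0 1 a b z =
    (a 0 * z.1 + a 1 * z.2,
      b 0 * z.1 ^ 3 + b 1 * z.1 ^ 2 * z.2 + b 2 * z.1 * z.2 ^ 2 + b 3 * z.2 ^ 3) := by
  unfold field form
  simp [Finset.sum_range_succ]

theorem IsCenter.exists_axis {V : ℝ × ℝ → ℝ × ℝ} (h : IsCenter V) :
    ∃ r : ℝ, 0 < r ∧ ((r, 0) : ℝ × ℝ) ∈ surr V := by
  have h1 := h.2
  rw [eventually_nhdsWithin_iff, Metric.eventually_nhds_iff] at h1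
  obtain ⟨ε, hε, h1⟩ := h1
  refine ⟨ε / 2, by linarith, h1 ?_ ?_⟩
  · rw [dist_zero_right, Prod.norm_def]
    simp [abs_of_pos hε, hε]
  · intro hz
    have := congrArg Prod.fst hz
    simp only [Prod.fst_zero] at this
    linarith

theorem center01_a1 {a b : ℕ → ℝ} (h : IsCenter (field 0 1 a b)) : a 1 ≠ 0 := by
  intro ha1
  have hV := field_contDiff_one 0 1 a b
  obtain ⟨r, hr, hs⟩ := h.exists_axis
  obtain ⟨γ, T, h1, h2, h3, h4⟩ := exists_sol hs.2.1
  have hper : ∀ t, γ (t + T) = γ t := h1.periodic hV (h4.trans h2.symm)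
  by_cases ha0 : a 0 = 0
  · -- x is constant
    have hx : ∀ t, HasDerivAt (fun t => (γ t).1) 0 t := by
      intro t
      have := h1.fst t
      rw [field01_eq] at this
      simpa [ha0, ha1] using this
    have hconst : ∀ t, (γ t).1 = r := by
      intro t
      have h5 : (γ t).1 = (γ 0).1 :=
        is_const_of_deriv_eq_zero (fun t => (hx t).differentiableAt) (fun t => (hx t).deriv) t 0
      rw [h5, h2]
    have hy : ∀ t, HasDerivAt (fun t => (γ t).2)
        (b 0 * r ^ 3 + b 1 * r ^ 2 * (γ t).2 + b 2 * r * (γ t).2 ^ 2 + b 3 * (γ t).2 ^ 3) t := by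
      intro t
      have := h1.snd t
      rw [field01_eq] at this
      simp only [hconst t] at this
      exact this
    have hder : ∀ t, HasDerivAt (fun t => b 0 * r ^ 3 * (γ t).2 + b 1 * r ^ 2 * ((γ t).2 ^ 2 / 2)
        + b 2 * r * ((γ t).2 ^ 3 / 3) + b 3 * ((γ t).2 ^ 4 / 4))
        ((b 0 * r ^ 3 + b 1 * r ^ 2 * (γ t).2 + b 2 * r * (γ t).2 ^ 2 + b 3 * (γ t).2 ^ 3) ^ 2) t := by
      intro t
      have e1 := (hy t).const_mul (b 0 * r ^ 3)
      have e2 := (((hy t).fun_pow 2).div_const 2).const_mul (b 1 * r ^ 2)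
      have e3 := (((hy t).fun_pow 3).div_const 3).const_mul (b 2 * r)
      have e4 := (((hy t).fun_pow 4).div_const 4).const_mul (b 3)
      refine (((e1.add e2).add e3).add e4).congr_deriv ?_
      push_cast
      ring
    have h0 := periodic_deriv_zero h3 hder (fun t => by simp only [hper]) (fun t => sq_nonneg _) 0
    apply hs.1
    rw [field01_eq]
    rw [h2] at h0
    have h6 := pow_eq_zero_iff (n := 2) (by norm_num) |>.1 h0
    simp only [ha0, ha1]
    simp only [zero_mul, add_zero]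
    ext
    · simp
    · simp only [Prod.snd_zero]
      linarith [h6]
  · have hder : ∀ t, HasDerivAt (fun t => a 0 * ((γ t).1 ^ 2 / 2)) (a 0 ^ 2 * (γ t).1 ^ 2) t := by
      intro t
      have := h1.fst t
      rw [field01_eq] at this
      refine ((((this).fun_pow 2).div_const 2).const_mul (a 0)).congr_deriv ?_
      push_cast
      rw [ha1]
      ring
    have h0 := periodic_deriv_zero h3 hder (fun t => by simp only [hper])
      (fun t => by positivity) 0
    rw [h2] at h0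
    have : 0 < a 0 ^ 2 * r ^ 2 := by positivity
    simp only at h0
    linarith

theorem center01_small {a b : ℕ → ℝ} (h : IsCenter (field 0 1 a b)) :
    SmallSys (a 0)
      (a 1 * (b 0 - b 1 * (a 0 / a 1) + b 2 * (a 0 / a 1) ^ 2 - b 3 * (a 0 / a 1) ^ 3))
      (b 1 - 2 * b 2 * (a 0 / a 1) + 3 * b 3 * (a 0 / a 1) ^ 2)
      ((b 2 - 3 * b 3 * (a 0 / a 1)) / a 1) (b 3 / a 1 ^ 2) := by
  have ha1 := center01_a1 h
  have hV := field_contDiff_one 0 1 a b
  intro η hη
  set C := |a 0| + |a 1| + 1 with hC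
  have hC0 : 0 < C := by positivity
  obtain ⟨p, hp, hsub⟩ := exists_small hV h (δ := η / C) (by positivity)
  obtain ⟨γ, T, h1, h2, h3, h4⟩ := exists_sol hp.2.1
  have hper : ∀ t, γ (t + T) = γ t := h1.periodic hV (h4.trans h2.symm)
  have hx : ∀ t, HasDerivAt (fun t => (γ t).1) (a 0 * (γ t).1 + a 1 * (γ t).2) t := by
    intro t
    have := h1.fst t
    rw [field01_eq] at this
    exact this
  have hy : ∀ t, HasDerivAt (fun t => (γ t).2) (b 0 * (γ t).1 ^ 3 + b 1 * (γ t).1 ^ 2 * (γ t).2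
      + b 2 * (γ t).1 * (γ t).2 ^ 2 + b 3 * (γ t).2 ^ 3) t := by
    intro t
    have := h1.snd t
    rw [field01_eq] at this
    exact this
  have hnorm : ∀ t, |(γ t).1| < η / C ∧ |(γ t).2| < η / C := by
    intro t
    have h5 : γ t ∈ orbit (field 0 1 a b) p := ⟨γ, t, h1, h2, rfl⟩
    have h6 := hsub h5
    rw [mem_ball_zero_iff, Prod.norm_def, max_lt_iff] at h6
    exact h6
  have hCη : C * (η / C) = η := by field_simp
  have hCle : η / C ≤ η := by
    apply div_le_self hη.le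
    rw [hC]
    linarith [abs_nonneg (a 0), abs_nonneg (a 1)]
  refine ⟨fun t => (γ t).1, fun t => a 0 * (γ t).1 + a 1 * (γ t).2, T, h3, hx, ?_, ?_, ?_, ?_, ?_, ?_⟩
  · intro t
    refine (((hx t).const_mul (a 0)).add ((hy t).const_mul (a 1))).congr_deriv ?_
    field_simp
    ring
  · intro t
    simp only [hper]
  · intro t
    simp only [hper]
  · intro t
    exact le_trans (hnorm t).1.le hCle
  · intro t
    have e1 : |a 0 * (γ t).1| ≤ |a 0| * (η / C) := by
      rw [abs_mul]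
      exact mul_le_mul_of_nonneg_left (hnorm t).1.le (abs_nonneg _)
    have e2 : |a 1 * (γ t).2| ≤ |a 1| * (η / C) := by
      rw [abs_mul]
      exact mul_le_mul_of_nonneg_left (hnorm t).2.le (abs_nonneg _)
    have e3 := abs_add_le (a 0 * (γ t).1) (a 1 * (γ t).2)
    have e4 : (|a 0| + |a 1|) * (η / C) ≤ C * (η / C) := by
      apply mul_le_mul_of_nonneg_right _ (by positivity)
      rw [hC]
      linarith
    linarith
  · by_contra hcon
    push Not at hcon
    have hder := ((hx 0).const_mul (a 0)).add ((hy 0).const_mul (a 1))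
    have hzero : HasDerivAt (fun t => a 0 * (γ t).1 + a 1 * (γ t).2) 0 0 := by
      have : (fun t => a 0 * (γ t).1 + a 1 * (γ t).2) = fun _ => 0 := funext hcon
      rw [this]
      exact hasDerivAt_const _ _
    have heq := hder.unique hzero
    have h0 := hcon 0
    rw [h0, mul_zero, zero_add] at heq
    apply hp.1
    rw [field01_eq]
    rw [h2] at heq h0
    have h7 := (mul_eq_zero.1 heq).resolve_left ha1
    ext
    · simpa using h0
    · simpa using h7

/-- the centre conditions for `(k, l) = (0, 1)` -/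
theorem center01 {a b : ℕ → ℝ} (h : IsCenter (field 0 1 a b)) :
    a 1 ≠ 0 ∧ a 0 = 0 ∧ a 1 * b 0 < 0 ∧ b 1 = 0 ∧ b 3 = 0 := by
  have ha1 := center01_a1 h
  have hs := center01_small h
  have ha0 := hs.e_eq
  rw [ha0] at hs
  simp only [zero_div, mul_zero, sub_zero, add_zero, ne_eq, OfNat.ofNat_ne_zero,
    not_false_eq_true, zero_pow] at hs
  have hc0 := hs.c0_neg
  have hb1 := hs.c1_eq
  rw [hb1] at hs
  have hb3 := hs.c3_eq
  refine ⟨ha1, ha0, hc0, hb1, ?_⟩
  rcases div_eq_zero_iff.1 hb3 with h5 | h5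
  · exact h5
  · exact absurd h5 (pow_ne_zero _ ha1)

end Pool.Agent.Helper10.CritPer
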