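import Pool.Agent.Helper10.CritPer.Basic

/-!
Linear changes of coordinates.
-/

open Set Filter Topology

namespace Pool.Agent.Helper10.CritPer

/-- the vector field in the coordinates `L z` -/
def conj (L : (ℝ × ℝ) ≃L[ℝ] (ℝ × ℝ)) (V : ℝ × ℝ → ℝ × ℝ) : ℝ × ℝ → ℝ × ℝ :=
  fun z => L (V (L.symm z))

variable {V : ℝ × ℝ → ℝ × ℝ} {γ δ : ℝ → ℝ × ℝ} {p q : ℝ × ℝ} {T : ℝ}
  (L : (ℝ × ℝ) ≃L[ℝ] (ℝ × ℝ))

theorem conj_symm_conj : conj L.symm (conj L V) = V := by
  funext z
  simp [conj]

theorem IsSol.conj (h : IsSol V γ) : IsSol (conj L V) (fun t => L (γ t)) := by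
  intro t
  have h1 := (L : (ℝ × ℝ) →L[ℝ] (ℝ × ℝ)).hasFDerivAt.comp_hasDerivAt t (h t)
  change HasDerivAt (fun t => L (γ t)) (L (V (L.symm (L (γ t))))) t
  rw [L.symm_apply_apply]
  exact h1

theorem IsPeriod.conj (h : IsPeriod V p T) : IsPeriod (conj L V) (L p) T := by
  obtain ⟨hT, γ, h1, h2, h3⟩ := h
  exact ⟨hT, _, h1.conj L, by simp [h2], by simp [h3]⟩

theorem isPeriod_conj : IsPeriod (conj L V) (L p) T ↔ IsPeriod V p T := by
  constructor
  · intro h
    have := h.conj L.symm
    rw [conj_symm_conj] at this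
    simpa using this
  · intro h
    exact h.conj L

theorem period_conj : period (conj L V) = period V ∘ L.symm := by
  funext z
  have h1 : {T | IsPeriod (conj L V) z T} = {T | IsPeriod V (L.symm z) T} := by
    ext T
    have := isPeriod_conj (V := V) (p := L.symm z) (T := T) L
    simpa using this
  simp only [period, Function.comp_apply, h1]

theorem orbit_conj_subset : L '' orbit V p ⊆ orbit (conj L V) (L p) := by
  rintro _ ⟨q, ⟨γ, t, h1, h2, h3⟩, rfl⟩
  exact ⟨_, t, h1.conj L, by simp [h2], by simp [h3]⟩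

theorem orbit_conj : orbit (conj L V) (L p) = L '' orbit V p := by
  apply subset_antisymm _ (orbit_conj_subset L)
  intro q hq
  have h1 := orbit_conj_subset (V := conj L V) (p := L p) L.symm
  rw [conj_symm_conj] at h1
  simp only [ContinuousLinearEquiv.symm_apply_apply] at h1
  exact ⟨L.symm q, h1 ⟨q, hq, rfl⟩, by simp⟩

theorem surr_conj_of (h : p ∈ surr V) : L p ∈ surr (conj L V) := by
  obtain ⟨h1, ⟨T, h2⟩, h3, h4⟩ := h
  refine ⟨?_, ⟨T, h2.conj L⟩, ?_, ?_⟩
  · simpa [conj] using h1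
  · rw [orbit_conj]
    rintro ⟨q, hq, hq0⟩
    have : q = 0 := by simpa using hq0
    exact h3 (this ▸ hq)
  · rw [orbit_conj]
    have e1 : (L '' orbit V p)ᶜ = L.toHomeomorph '' (orbit V p)ᶜ := by
      rw [image_compl_eq L.toHomeomorph.bijective]
      rfl
    have e2 : (0 : ℝ × ℝ) ∈ (orbit V p)ᶜ := h3
    have e3 := L.toHomeomorph.image_connectedComponentIn e2
    have e4 : L.toHomeomorph (0 : ℝ × ℝ) = 0 := by simp
    rw [e4] at e3
    rw [e1, ← e3]
    exact (L : (ℝ × ℝ) →L[ℝ] (ℝ × ℝ)).lipschitz.isBounded_image h4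

theorem surr_conj : surr (conj L V) = L '' surr V := by
  apply subset_antisymm
  · intro z hz
    have h1 := surr_conj_of L.symm hz
    rw [conj_symm_conj] at h1
    exact ⟨L.symm z, h1, by simp⟩
  · rintro _ ⟨p, hp, rfl⟩
    exact surr_conj_of L hp

theorem IsCenter.conj (h : IsCenter V) : IsCenter (conj L V) := by
  obtain ⟨h0, h1⟩ := h
  refine ⟨by simp [CritPer.conj, h0], ?_⟩
  have h2 : Tendsto L.symm (𝓝[≠] (0 : ℝ × ℝ)) (𝓝[≠] (0 : ℝ × ℝ)) := by
    apply tendsto_nhdsWithin_of_tendsto_nhds_of_eventually_within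
    · have h3 : Tendsto L.symm (𝓝 (0 : ℝ × ℝ)) (𝓝 (L.symm 0)) := L.symm.continuous.continuousAt
      rw [map_zero] at h3
      exact h3.mono_left nhdsWithin_le_nhds
    · filter_upwards [self_mem_nhdsWithin] with z hz
      have hz' : z ≠ 0 := hz
      change L.symm z ≠ 0
      simpa using hz'
  filter_upwards [h2.eventually h1] with z hz
  rw [surr_conj]
  exact ⟨L.symm z, hz, by simp⟩

theorem IsCenter.mem_interior (h : IsCenter V) : (0 : ℝ × ℝ) ∈ interior (surr V ∪ {0}) := by
  rw [mem_interior_iff_mem_nhds]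
  have h1 := h.2
  rw [eventually_nhdsWithin_iff] at h1
  filter_upwards [h1] with z hz
  by_cases hz0 : z = 0
  · right
    exact hz0
  · left
    exact hz hz0

theorem annulus_conj (h : IsCenter V) : annulus (conj L V) = L '' annulus V := by
  have e1 : surr (conj L V) ∪ {0} = L.toHomeomorph '' (surr V ∪ {0}) := by
    rw [surr_conj, image_union, image_singleton]
    simp
  have e3 := L.toHomeomorph.image_connectedComponentIn h.mem_interior
  have e4 : L.toHomeomorph (0 : ℝ × ℝ) = 0 := by simp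
  rw [e4] at e3
  unfold annulus
  rw [e1, ← L.toHomeomorph.image_interior, ← e3]
  rfl

theorem fderiv_period_conj : fderiv ℝ (period (conj L V)) (L p) = 0 ↔ fderiv ℝ (period V) p = 0 := by
  rw [period_conj, L.symm.comp_right_fderiv]
  simp only [ContinuousLinearEquiv.symm_apply_apply]
  constructor
  · intro h
    refine ContinuousLinearMap.ext fun z => ?_
    have := DFunLike.congr_fun h (L z)
    simpa using this
  · intro h
    rw [h]
    simp

theorem critOrbits_conj_subset (h : IsCenter V) :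
    (fun O => L '' O) '' critOrbits V ⊆ critOrbits (conj L V) := by
  rintro _ ⟨O, ⟨p, hp, hp0, rfl, hf, U, hU, hU'⟩, rfl⟩
  refine ⟨L p, ?_, by simpa using hp0, (orbit_conj L).symm, (fderiv_period_conj L).2 hf,
    L '' U, ?_, ?_⟩
  · rw [annulus_conj L h]
    exact ⟨p, hp, rfl⟩
  · exact L.toHomeomorph.isOpenMap.image_mem_nhds hU
  · rintro _ ⟨q, hq, rfl⟩ hqO
    rw [ne_eq, fderiv_period_conj]
    apply hU' q hq
    intro hq2
    exact hqO ⟨q, hq2, rfl⟩

theorem critOrbits_conj (h : IsCenter V) :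
    critOrbits (conj L V) = (fun O => L '' O) '' critOrbits V := by
  apply subset_antisymm _ (critOrbits_conj_subset L h)
  intro O hO
  have h1 := critOrbits_conj_subset L.symm (h.conj L)
  rw [conj_symm_conj] at h1
  refine ⟨L.symm '' O, h1 ⟨O, hO, rfl⟩, ?_⟩
  simp only [← image_comp]
  have : (L ∘ L.symm : ℝ × ℝ → ℝ × ℝ) = id := by
    funext z
    simp
  rw [this, image_id]

theorem encard_conj (h : IsCenter V) :
    (critOrbits (conj L V)).encard = (critOrbits V).encard := by
  rw [critOrbits_conj L h]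
  exact (image_injective.2 L.injective).encard_image _

end Pool.Agent.Helper10.CritPer
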