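import Mathlib

/-!
Moments of the exponential function and the positivity which gives the convexity.
-/

open Set Filter Topology Metric MeasureTheory

namespace Pool.Agent.Helper10.CritPer

/-- `x = Z (1 - t^(n+1))` -/
noncomputable def xx (n : ℕ) (Z t : ℝ) : ℝ := Z * (1 - t ^ (n + 1))

/-- `∫_0^1 t^(n+1) x^i e^x dt` -/
noncomputable def JJ (n i : ℕ) (Z : ℝ) : ℝ :=
  ∫ t in (0 : ℝ)..1, t ^ (n + 1) * (xx n Z t ^ i * Real.exp (xx n Z t))

variable {n : ℕ} {Z : ℝ}

theorem JJ_cont (i : ℕ) :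
    Continuous fun t : ℝ => t ^ (n + 1) * (xx n Z t ^ i * Real.exp (xx n Z t)) := by
  unfold xx
  fun_prop

theorem JJ_int (a : ℝ) (i : ℕ) : IntervalIntegrable
    (fun t : ℝ => a * (t ^ (n + 1) * (xx n Z t ^ i * Real.exp (xx n Z t)))) volume 0 1 := by
  have h : Continuous fun t : ℝ => a * (t ^ (n + 1) * (xx n Z t ^ i * Real.exp (xx n Z t))) := by
    unfold xx
    fun_prop
  exact h.intervalIntegrable _ _

theorem JJ_comb2 (a b : ℝ) (i k : ℕ) : ∫ t in (0 : ℝ)..1,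
    (a * (t ^ (n + 1) * (xx n Z t ^ i * Real.exp (xx n Z t))) +
      b * (t ^ (n + 1) * (xx n Z t ^ k * Real.exp (xx n Z t)))) =
    a * JJ n i Z + b * JJ n k Z := by
  rw [intervalIntegral.integral_add (JJ_int a i) (JJ_int b k),
    intervalIntegral.integral_const_mul, intervalIntegral.integral_const_mul]
  rfl

theorem JJ_comb3 (a b c : ℝ) (i k m : ℕ) : ∫ t in (0 : ℝ)..1,
    (a * (t ^ (n + 1) * (xx n Z t ^ i * Real.exp (xx n Z t))) +
      (b * (t ^ (n + 1) * (xx n Z t ^ k * Real.exp (xx n Z t))) +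
      c * (t ^ (n + 1) * (xx n Z t ^ m * Real.exp (xx n Z t))))) =
    a * JJ n i Z + (b * JJ n k Z + c * JJ n m Z) := by
  rw [intervalIntegral.integral_add (JJ_int a i) ((JJ_int b k).add (JJ_int c m)), JJ_comb2,
    intervalIntegral.integral_const_mul]
  rfl

theorem xx_hasDerivAt (t : ℝ) : HasDerivAt (xx n Z) (-(Z * ((n + 1) * t ^ n))) t := by
  have h1 := ((hasDerivAt_pow (n + 1) t).const_sub 1).const_mul Z
  refine h1.congr_deriv ?_
  push_cast
  ring

theorem JJ_one (n : ℕ) (Z : ℝ) :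
    ((n : ℝ) + 1) * JJ n 1 Z = 1 - (n + 2 - (n + 1) * Z) * JJ n 0 Z := by
  have hd : ∀ t ∈ uIcc (0 : ℝ) 1, HasDerivAt (fun t => t ^ (n + 2) * Real.exp (xx n Z t))
      (((n : ℝ) + 2 - (n + 1) * Z) * (t ^ (n + 1) * (xx n Z t ^ 0 * Real.exp (xx n Z t))) +
        ((n : ℝ) + 1) * (t ^ (n + 1) * (xx n Z t ^ 1 * Real.exp (xx n Z t)))) t := by
    intro t _
    have h1 := (hasDerivAt_pow (n + 2) t).mul (xx_hasDerivAt (n := n) (Z := Z) t).exp
    refine h1.congr_deriv ?_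
    have e1 : n + 2 - 1 = n + 1 := by omega
    rw [e1]
    push_cast
    simp only [pow_zero, pow_one, one_mul]
    have e2 : Z * t ^ (n + 1) = Z - xx n Z t := by
      unfold xx
      ring
    have e3 : t ^ (n + 2) * (Real.exp (xx n Z t) * -(Z * (((n : ℝ) + 1) * t ^ n))) =
        -((n : ℝ) + 1) * t ^ (n + 1) * (Z * t ^ (n + 1)) * Real.exp (xx n Z t) := by
      ring
    rw [e3, e2]
    ring
  have h1 := intervalIntegral.integral_eq_sub_of_hasDerivAt hd ((JJ_int _ 0).add (JJ_int _ 1))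
  rw [JJ_comb2] at h1
  have e1 : xx n Z 1 = 0 := by simp [xx]
  rw [e1] at h1
  simp only [one_pow, Real.exp_zero, mul_one, ne_eq, Nat.add_eq_zero_iff, OfNat.ofNat_ne_zero,
    and_false, not_false_eq_true, zero_pow, zero_mul, sub_zero] at h1
  linarith

theorem JJ_two (n : ℕ) (Z : ℝ) :
    ((n : ℝ) + 1) * JJ n 2 Z = (n + 1) * Z * JJ n 0 Z - (2 * (n + 1) + 1 - (n + 1) * Z) * JJ n 1 Z := by
  have hd : ∀ t ∈ uIcc (0 : ℝ) 1, HasDerivAt (fun t => t ^ (n + 2) * (xx n Z t * Real.exp (xx n Z t)))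
      ((-((n : ℝ) + 1) * Z) * (t ^ (n + 1) * (xx n Z t ^ 0 * Real.exp (xx n Z t))) +
        ((2 * ((n : ℝ) + 1) + 1 - (n + 1) * Z) * (t ^ (n + 1) * (xx n Z t ^ 1 * Real.exp (xx n Z t))) +
        ((n : ℝ) + 1) * (t ^ (n + 1) * (xx n Z t ^ 2 * Real.exp (xx n Z t))))) t := by
    intro t _
    have h0 := (xx_hasDerivAt (n := n) (Z := Z) t)
    have h1 := (hasDerivAt_pow (n + 2) t).mul (h0.mul h0.exp)
    refine h1.congr_deriv ?_
    have e1 : n + 2 - 1 = n + 1 := by omega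
    rw [e1]
    push_cast
    simp only [pow_zero, pow_one, one_mul]
    have e2 : Z * t ^ (n + 1) = Z - xx n Z t := by
      unfold xx
      ring
    have e3 : t ^ (n + 2) * (-(Z * (((n : ℝ) + 1) * t ^ n)) * Real.exp (xx n Z t) +
        xx n Z t * (Real.exp (xx n Z t) * -(Z * (((n : ℝ) + 1) * t ^ n)))) =
        -((n : ℝ) + 1) * t ^ (n + 1) * (Z * t ^ (n + 1)) * (1 + xx n Z t) *
          Real.exp (xx n Z t) := by
      ring
    simp only [Pi.mul_apply]
    rw [e3, e2]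
    ring
  have h1 := intervalIntegral.integral_eq_sub_of_hasDerivAt hd
    ((JJ_int _ 0).add ((JJ_int _ 1).add (JJ_int _ 2)))
  rw [JJ_comb3] at h1
  have e1 : xx n Z 1 = 0 := by simp [xx]
  rw [e1] at h1
  simp only [one_pow, zero_mul, mul_zero, ne_eq, Nat.add_eq_zero_iff, OfNat.ofNat_ne_zero,
    and_false, not_false_eq_true, zero_pow, sub_zero] at h1
  linarith

/-- a function with nonnegative derivative on `[0, ∞)` -/
theorem ge_of_deriv {f f' : ℝ → ℝ} (hf : ∀ x, HasDerivAt f (f' x) x) (h : ∀ x, 0 ≤ x → 0 ≤ f' x)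
    {x : ℝ} (hx : 0 ≤ x) : f 0 ≤ f x := by
  have hmono : MonotoneOn f (Ici 0) := by
    apply monotoneOn_of_deriv_nonneg (convex_Ici 0)
    · exact (continuous_iff_continuousAt.2 fun x => (hf x).continuousAt).continuousOn
    · exact fun x _ => (hf x).differentiableAt.differentiableWithinAt
    · intro x hx
      rw [interior_Ici] at hx
      rw [(hf x).deriv]
      exact h x (le_of_lt hx)
  exact hmono (by simp) hx hx

theorem exp_ineq1 {x : ℝ} (hx : 0 ≤ x) : -1 + x ^ 2 / 2 ≤ Real.exp x * (x - 1) := by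
  have h := ge_of_deriv (f := fun x => Real.exp x * (x - 1) - x ^ 2 / 2)
    (f' := fun x => x * (Real.exp x - 1)) (fun x => by
      have h1 := ((Real.hasDerivAt_exp x).mul ((hasDerivAt_id x).sub_const 1)).sub
        (((hasDerivAt_id x).fun_pow 2).div_const 2)
      refine h1.congr_deriv ?_
      simp only [id]
      push_cast
      ring) (fun x hx => by
      have : 1 ≤ Real.exp x := Real.one_le_exp hx
      nlinarith) hx
  simp only [Real.exp_zero] at h
  linarith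

theorem exp_ineq2 {L x : ℝ} (hL : 1 ≤ L) (hx : 0 ≤ x) :
    L + 1 / 2 ≤ Real.exp x * (L * x ^ 2 - (L + 1 / 2) * (x - 1)) := by
  have h := ge_of_deriv (f := fun x => Real.exp x * (L * x ^ 2 - (L + 1 / 2) * (x - 1)))
    (f' := fun x => Real.exp x * (L * x ^ 2 + (L - 1 / 2) * x)) (fun x => by
      have h1 := (Real.hasDerivAt_exp x).mul ((((hasDerivAt_id x).fun_pow 2).const_mul L).sub
        (((hasDerivAt_id x).sub_const 1).const_mul (L + 1 / 2)))
      refine h1.congr_deriv ?_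
      simp only [id, Pi.sub_apply]
      push_cast
      ring) (fun x hx => by
      have h1 : 0 ≤ L * x ^ 2 := by positivity
      have h2 : 0 ≤ (L - 1 / 2) * x := mul_nonneg (by linarith) hx
      have h3 := Real.exp_pos x
      positivity) hx
  simp only [Real.exp_zero] at h
  linarith

/-- the quantity which has to be positive -/
noncomputable def WW (n : ℕ) (Z : ℝ) : ℝ :=
  ((n + 1) * Z / 2 - (n + 1) - 1 / 2) * (JJ n 1 Z - JJ n 0 Z) + (n + 1) * JJ n 2 Z

theorem WW_eq (n : ℕ) (Z : ℝ) : WW n Z = ∫ t in (0 : ℝ)..1, t ^ (n + 1) *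
    (Real.exp (xx n Z t) * (((n + 1) * Z / 2 - (n + 1) - 1 / 2) * (xx n Z t - 1) +
      (n + 1) * xx n Z t ^ 2)) := by
  have h1 : ∀ t : ℝ, t ^ (n + 1) *
    (Real.exp (xx n Z t) * (((n + 1) * Z / 2 - (n + 1) - 1 / 2) * (xx n Z t - 1) +
      (n + 1) * xx n Z t ^ 2)) =
      (-((((n : ℝ) + 1) * Z / 2 - (n + 1) - 1 / 2))) * (t ^ (n + 1) *
        (xx n Z t ^ 0 * Real.exp (xx n Z t))) +
      (((((n : ℝ) + 1) * Z / 2 - (n + 1) - 1 / 2)) * (t ^ (n + 1) *
        (xx n Z t ^ 1 * Real.exp (xx n Z t))) +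
      ((n : ℝ) + 1) * (t ^ (n + 1) * (xx n Z t ^ 2 * Real.exp (xx n Z t)))) := by
    intro t
    ring
  simp only [h1]
  rw [JJ_comb3]
  unfold WW
  ring

theorem WW_integrand_cont (n : ℕ) (Z : ℝ) : Continuous fun t : ℝ => t ^ (n + 1) *
    (Real.exp (xx n Z t) * (((n + 1) * Z / 2 - (n + 1) - 1 / 2) * (xx n Z t - 1) +
      (n + 1) * xx n Z t ^ 2)) := by
  unfold xx
  fun_prop

theorem poly_int (n : ℕ) (Z : ℝ) : ∫ t in (0 : ℝ)..1, t ^ (n + 1) *
    ((n + 1) * Z / 2 * (-1 + xx n Z t ^ 2 / 2) + (n + 1 + 1 / 2)) =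
    ((n + 1 + 1 / 2) - (n + 1) * Z / 2) / (n + 2) + (n + 1) * Z ^ 3 / 4 *
      (1 / (n + 2) - 2 / (2 * n + 3) + 1 / (3 * n + 4)) := by
  have h1 : ∀ t : ℝ, t ^ (n + 1) *
    (((n : ℝ) + 1) * Z / 2 * (-1 + xx n Z t ^ 2 / 2) + (n + 1 + 1 / 2)) =
    (((n + 1 + 1 / 2) - (n + 1) * Z / 2) + (n + 1) * Z ^ 3 / 4) * t ^ (n + 1) +
      ((-(2 * ((n + 1) * Z ^ 3 / 4))) * t ^ (2 * n + 2) + ((n + 1) * Z ^ 3 / 4) * t ^ (3 * n + 3)) := by
    intro t
    unfold xx
    ring
  simp only [h1]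
  have c : ∀ (a : ℝ) (k : ℕ), IntervalIntegrable (fun t : ℝ => a * t ^ k) volume 0 1 :=
    fun a k => (by fun_prop : Continuous fun t : ℝ => a * t ^ k).intervalIntegrable _ _
  rw [intervalIntegral.integral_add (c _ _) ((c _ _).add (c _ _)),
    intervalIntegral.integral_add (c _ _) (c _ _), intervalIntegral.integral_const_mul,
    intervalIntegral.integral_const_mul, intervalIntegral.integral_const_mul, integral_pow,
    integral_pow, integral_pow]
  push_cast
  simp only [one_pow, ne_eq, Nat.add_eq_zero_iff, one_ne_zero, and_false, not_false_eq_true,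
    zero_pow, sub_zero]
  have p1 : (n : ℝ) + 1 + 1 = n + 2 := by ring
  have p2 : 2 * (n : ℝ) + 2 + 1 = 2 * n + 3 := by ring
  have p3 : 3 * (n : ℝ) + 3 + 1 = 3 * n + 4 := by ring
  rw [p1, p2, p3]
  ring

theorem WW_pos (n : ℕ) (Z : ℝ) : 0 < WW n Z := by
  rw [WW_eq]
  have hn : (0 : ℝ) ≤ n := Nat.cast_nonneg n
  rcases le_or_gt Z 0 with hZ | hZ
  · apply intervalIntegral.intervalIntegral_pos_of_pos_on
      ((WW_integrand_cont n Z).intervalIntegrable _ _) _ one_pos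
    intro t ht
    have h1 : t ^ (n + 1) ≤ 1 := pow_le_one₀ ht.1.le ht.2.le
    have h2 : xx n Z t ≤ 0 := by
      unfold xx
      exact mul_nonpos_of_nonpos_of_nonneg hZ (by linarith)
    have h3 : 0 < t ^ (n + 1) := pow_pos ht.1 _
    have h4 : ((n : ℝ) + 1) * Z / 2 - (n + 1) - 1 / 2 < 0 := by nlinarith
    have h5 : 0 < (((n : ℝ) + 1) * Z / 2 - (n + 1) - 1 / 2) * (xx n Z t - 1) :=
      mul_pos_of_neg_of_neg h4 (by linarith)
    have h6 := Real.exp_pos (xx n Z t)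
    positivity
  · have h1 : ∫ t in (0 : ℝ)..1, t ^ (n + 1) *
        ((n + 1) * Z / 2 * (-1 + xx n Z t ^ 2 / 2) + (n + 1 + 1 / 2)) ≤
        ∫ t in (0 : ℝ)..1, t ^ (n + 1) *
    (Real.exp (xx n Z t) * (((n + 1) * Z / 2 - (n + 1) - 1 / 2) * (xx n Z t - 1) +
      (n + 1) * xx n Z t ^ 2)) := by
      apply intervalIntegral.integral_mono_on (by norm_num)
      · have : Continuous fun t : ℝ => t ^ (n + 1) *
          (((n : ℝ) + 1) * Z / 2 * (-1 + xx n Z t ^ 2 / 2) + (n + 1 + 1 / 2)) := by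
          unfold xx
          fun_prop
        exact this.intervalIntegrable _ _
      · exact (WW_integrand_cont n Z).intervalIntegrable _ _
      · intro t ht
        have h1 : t ^ (n + 1) ≤ 1 := pow_le_one₀ ht.1 ht.2
        have h2 : 0 ≤ xx n Z t := by
          unfold xx
          exact mul_nonneg hZ.le (by linarith)
        have h3 : 0 ≤ t ^ (n + 1) := pow_nonneg ht.1 _
        apply mul_le_mul_of_nonneg_left _ h3
        have e1 := exp_ineq1 h2
        have e2 := exp_ineq2 (L := (n : ℝ) + 1) (by linarith) h2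
        have e3 : 0 ≤ ((n : ℝ) + 1) * Z / 2 := by positivity
        have e4 := mul_le_mul_of_nonneg_left e1 e3
        have e5 : Real.exp (xx n Z t) * ((((n : ℝ) + 1) * Z / 2 - (n + 1) - 1 / 2) *
            (xx n Z t - 1) + (n + 1) * xx n Z t ^ 2) =
            ((n : ℝ) + 1) * Z / 2 * (Real.exp (xx n Z t) * (xx n Z t - 1)) +
            Real.exp (xx n Z t) * ((n + 1) * xx n Z t ^ 2 - (n + 1 + 1 / 2) * (xx n Z t - 1)) := by
          ring
        rw [e5]
        linarith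
    refine lt_of_lt_of_le ?_ h1
    rw [poly_int]
    have hb : 1 / (6 * ((n : ℝ) + 2)) ≤ 1 / (n + 2) - 2 / (2 * n + 3) + 1 / (3 * n + 4) := by
      have p1 : (0 : ℝ) < n + 2 := by positivity
      have p2 : (0 : ℝ) < 2 * n + 3 := by positivity
      have p3 : (0 : ℝ) < 3 * n + 4 := by positivity
      have e1 : 1 / ((n : ℝ) + 2) - 2 / (2 * n + 3) + 1 / (3 * n + 4) - 1 / (6 * ((n : ℝ) + 2)) =
          (6 * n ^ 2 + 7 * n) / (6 * (n + 2) * (2 * n + 3) * (3 * n + 4)) := by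
        field_simp
        ring
      have e2 : 0 ≤ (6 * (n : ℝ) ^ 2 + 7 * n) / (6 * (n + 2) * (2 * n + 3) * (3 * n + 4)) := by
        positivity
      linarith
    have hc : 0 ≤ ((n : ℝ) + 1) * Z ^ 3 / 4 := by positivity
    have h2 := mul_le_mul_of_nonneg_left hb hc
    have h3 : 0 < (((n : ℝ) + 1 + 1 / 2) - (n + 1) * Z / 2) / (n + 2) + (n + 1) * Z ^ 3 / 4 *
        (1 / (6 * (n + 2))) := by
      have e1 : (((n : ℝ) + 1 + 1 / 2) - (n + 1) * Z / 2) / (n + 2) + (n + 1) * Z ^ 3 / 4 *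
        (1 / (6 * (n + 2))) = ((n + 1) * ((Z - 2) ^ 2 * (Z + 4) + 8) / 24 + 1 / 2) / (n + 2) := by
        field_simp
        ring
      rw [e1]
      have e2 : 0 ≤ (Z - 2) ^ 2 * (Z + 4) := by positivity
      positivity
    linarith

theorem JJ_zero_pos (n : ℕ) (Z : ℝ) : 0 < JJ n 0 Z := by
  unfold JJ
  apply intervalIntegral.intervalIntegral_pos_of_pos_on ((JJ_cont 0).intervalIntegrable _ _) _
    one_pos
  intro t ht
  have := pow_pos ht.1 (n + 1)
  positivity

end Pool.Agent.Helper10.CritPer
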