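import Pool.Agent.Helper10.CritPer.Canon
import Pool.Agent.Helper10.CritPer.JW

/-!
The period is a strictly convex function of `√A(m)`.
-/

open Set Filter Topology Metric MeasureTheory

namespace Pool.Agent.Helper10.CritPer

variable {n : ℕ} {α D : ℝ}

/-- `√A(s)` -/
noncomputable def zz (n : ℕ) (α D s : ℝ) : ℝ := Real.sqrt (AA n α D s)

/-- the denominator of `NN` -/
noncomputable def kk (n : ℕ) (α D s : ℝ) : ℝ :=
  α * s ^ (n + 1) * Real.sqrt s * Real.exp (-D * s ^ (n + 1) / 2)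

/-- the density of the time with respect to the angle of `(u, v)` -/
noncomputable def NN (n : ℕ) (α D s : ℝ) : ℝ := zz n α D s / kk n α D s

/-- the derivative of `NN` with respect to `zz` -/
noncomputable def rr (n : ℕ) (α D s : ℝ) : ℝ :=
  (1 - (2 * (n + 1) + 1 - (n + 1) * (D * s ^ (n + 1))) *
    (AA n α D s / (α * s ^ (n + 2) * BB n D s))) / kk n α D s

theorem AA_eq_JJ (s : ℝ) :
    AA n α D s = α * s ^ (n + 2) * BB n D s * JJ n 0 (D * s ^ (n + 1)) := by
  have h2 := intervalIntegral.mul_integral_comp_mul_left (a := (0 : ℝ)) (b := 1)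
    (f := ff n α D) s
  rw [mul_zero, mul_one] at h2
  unfold AA
  rw [← h2]
  unfold JJ
  rw [mul_comm (α * s ^ (n + 2) * BB n D s), ← intervalIntegral.integral_mul_const, mul_comm s,
    ← intervalIntegral.integral_mul_const]
  apply intervalIntegral.integral_congr
  intro t _
  simp only
  unfold ff BB xx
  rw [mul_pow]
  have e1 : Real.exp (-D * (s ^ (n + 1) * t ^ (n + 1))) =
      Real.exp (D * s ^ (n + 1) * (1 - t ^ (n + 1))) * Real.exp (-D * s ^ (n + 1)) := by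
    rw [← Real.exp_add]
    congr 1
    ring
  rw [e1]
  ring

theorem AA_div (hα : 0 < α) {s : ℝ} (hs : 0 < s) :
    AA n α D s / (α * s ^ (n + 2) * BB n D s) = JJ n 0 (D * s ^ (n + 1)) := by
  have hB := BB_pos (n := n) (D := D) s
  rw [AA_eq_JJ]
  field_simp

theorem zz_pos (hα : 0 < α) {s : ℝ} (hs : 0 < s) : 0 < zz n α D s :=
  Real.sqrt_pos.2 (AA_pos hα hs)

theorem zz_sq (hα : 0 < α) {s : ℝ} (hs : 0 ≤ s) : zz n α D s ^ 2 = AA n α D s :=
  Real.sq_sqrt (AA_nonneg hα hs)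

theorem kk_pos (hα : 0 < α) {s : ℝ} (hs : 0 < s) : 0 < kk n α D s := by
  unfold kk
  have := Real.sqrt_pos.2 hs
  positivity

theorem zz_hasDerivAt (hα : 0 < α) {s : ℝ} (hs : 0 < s) :
    HasDerivAt (zz n α D) (ff n α D s / (2 * zz n α D s)) s :=
  (AA_hasDerivAt s).sqrt (AA_pos hα hs).ne'

theorem kk_hasDerivAt (hα : 0 < α) {s : ℝ} (hs : 0 < s) :
    HasDerivAt (kk n α D) (kk n α D s * ((n + 1 + 1 / 2) - (n + 1) * (D * s ^ (n + 1)) / 2) / s) s := by
  have h1 := (hasDerivAt_pow (n + 1) s).const_mul α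
  have h2 := (hasDerivAt_id s).sqrt hs.ne'
  have h3 := (((hasDerivAt_pow (n + 1) s).const_mul (-D)).div_const 2).exp
  have h4 := (h1.mul h2).mul h3
  have hq := Real.sqrt_pos.2 hs
  have hqs : Real.sqrt s ^ 2 = s := Real.sq_sqrt hs.le
  refine HasDerivAt.congr_deriv (f := kk n α D) h4 ?_
  · unfold kk
    have e1 : n + 1 - 1 = n := by omega
    simp only [Pi.mul_apply, id]
    rw [e1, eq_div_iff hs.ne']
    push_cast
    have e2 : α * s ^ (n + 1) * (1 / (2 * Real.sqrt s)) * s =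
        α * s ^ (n + 1) * Real.sqrt s / 2 := by
      have hgen : ∀ q : ℝ, 0 < q → (1 / (2 * q)) * q ^ 2 = q / 2 := by
        intro q hq
        field_simp
      have : (1 / (2 * Real.sqrt s)) * s = Real.sqrt s / 2 := by
        have h := hgen _ hq
        rwa [hqs] at h
      rw [mul_assoc, this]
      ring
    have e3 : ((α * (((n : ℝ) + 1) * s ^ n) * Real.sqrt s + α * s ^ (n + 1) *
        (1 / (2 * Real.sqrt s))) * Real.exp (-D * s ^ (n + 1) / 2) +
        α * s ^ (n + 1) * Real.sqrt s * (Real.exp (-D * s ^ (n + 1) / 2) *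
          (-D * (((n : ℝ) + 1) * s ^ n) / 2))) * s =
        (α * ((n : ℝ) + 1) * s ^ (n + 1) * Real.sqrt s + α * s ^ (n + 1) *
        (1 / (2 * Real.sqrt s)) * s) * Real.exp (-D * s ^ (n + 1) / 2) +
        α * s ^ (n + 1) * Real.sqrt s * (Real.exp (-D * s ^ (n + 1) / 2) *
          (-D * (((n : ℝ) + 1) * s ^ (n + 1)) / 2)) := by
      ring
    rw [e3, e2]
    ring

theorem NN_hasDerivAt (hα : 0 < α) {s : ℝ} (hs : 0 < s) :
    HasDerivAt (NN n α D) (rr n α D s * (ff n α D s / (2 * zz n α D s))) s := by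
  have h1 := (zz_hasDerivAt (n := n) (D := D) hα hs).div (kk_hasDerivAt (n := n) (D := D) hα hs)
    (kk_pos hα hs).ne'
  refine HasDerivAt.congr_deriv (f := NN n α D) h1 ?_
  have hz := zz_pos (n := n) (D := D) hα hs
  have hk := kk_pos (n := n) (D := D) hα hs
  have hB := BB_pos (n := n) (D := D) s
  have hzs := zz_sq (n := n) (D := D) hα hs.le
  unfold rr
  rw [ff_eq, ← hzs]
  field_simp
  ring

theorem rr_hasDerivAt (hα : 0 < α) {s : ℝ} (hs : 0 < s) :
    HasDerivAt (rr n α D) ((n + 1) * WW n (D * s ^ (n + 1)) / (s * kk n α D s)) s := by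
  have hk := kk_pos (n := n) (D := D) hα hs
  have hB := BB_pos (n := n) (D := D) s
  have hZ : HasDerivAt (fun s : ℝ => 2 * ((n : ℝ) + 1) + 1 - (n + 1) * (D * s ^ (n + 1)))
      (-((n + 1) * (D * ((n + 1) * s ^ n)))) s := by
    have h1 := (((hasDerivAt_pow (n + 1) s).const_mul D).const_mul ((n : ℝ) + 1)).const_sub
      (2 * ((n : ℝ) + 1) + 1)
    refine h1.congr_deriv ?_
    push_cast
    simp
  have hden : HasDerivAt (fun s : ℝ => α * s ^ (n + 2) * BB n D s)
      (α * s ^ (n + 1) * BB n D s * ((n + 2) - (n + 1) * (D * s ^ (n + 1)))) s := by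
    have h1 := ((hasDerivAt_pow (n + 2) s).const_mul α).mul (BB_hasDerivAt (n := n) (D := D) s)
    refine h1.congr_deriv ?_
    have e1 : n + 2 - 1 = n + 1 := by omega
    rw [e1]
    push_cast
    ring
  have hq := (AA_hasDerivAt (n := n) (α := α) (D := D) s).div hden (by positivity)
  have hJ : HasDerivAt (fun s : ℝ => AA n α D s / (α * s ^ (n + 2) * BB n D s))
      ((1 - (n + 2 - (n + 1) * (D * s ^ (n + 1))) *
        (AA n α D s / (α * s ^ (n + 2) * BB n D s))) / s) s := by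
    refine HasDerivAt.congr_deriv hq ?_
    rw [ff_eq]
    field_simp
    ring
  have hnum := (hZ.mul hJ).const_sub 1
  have h1 := hnum.div (kk_hasDerivAt (n := n) (D := D) hα hs) hk.ne'
  refine HasDerivAt.congr_deriv (f := rr n α D) h1 ?_
  simp only [Pi.mul_apply]
  rw [AA_div hα hs]
  set Z := D * s ^ (n + 1) with hZdef
  have f1 := JJ_one n Z
  have f2 := JJ_two n Z
  have hW : ((n : ℝ) + 1) * WW n Z = (n + 1) * Z * ((n + 1) * JJ n 0 Z) -
      (2 * (n + 1) + 1 - (n + 1) * Z) * (1 - (n + 2 - (n + 1) * Z) * JJ n 0 Z) +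
      ((n + 1) * Z / 2 - (n + 1) - 1 / 2) *
        (1 - (2 * (n + 1) + 1 - (n + 1) * Z) * JJ n 0 Z) := by
    unfold WW
    have e1 : ((n : ℝ) + 1) * (((n + 1) * Z / 2 - (n + 1) - 1 / 2) * (JJ n 1 Z - JJ n 0 Z) +
        (n + 1) * JJ n 2 Z) = ((n + 1) * Z / 2 - (n + 1) - 1 / 2) * (((n : ℝ) + 1) * JJ n 1 Z -
        (n + 1) * JJ n 0 Z) + (n + 1) * (((n : ℝ) + 1) * JJ n 2 Z) := by ring
    have e2 : ((n : ℝ) + 1) * (((n : ℝ) + 1) * JJ n 2 Z) = (n + 1) * ((n + 1) * Z * JJ n 0 Z) -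
        (2 * (n + 1) + 1 - (n + 1) * Z) * ((n + 1) * JJ n 1 Z) := by
      rw [f2]
      ring
    rw [e1, e2, f1]
    ring
  have e3 : (n + 1) * (D * ((n + 1) * s ^ n)) * s = ((n : ℝ) + 1) * ((n + 1) * Z) := by
    rw [hZdef]
    ring
  rw [hW, div_eq_div_iff (by positivity) (by positivity)]
  have e4 : (-((-((n + 1) * (D * ((n + 1) * s ^ n))) * JJ n 0 Z +
      (2 * ((n : ℝ) + 1) + 1 - (n + 1) * Z) * ((1 - (n + 2 - (n + 1) * Z) * JJ n 0 Z) / s))) *
      kk n α D s - (1 - (2 * ((n : ℝ) + 1) + 1 - (n + 1) * Z) * JJ n 0 Z) *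
      (kk n α D s * ((n + 1 + 1 / 2) - (n + 1) * Z / 2) / s)) * (s * kk n α D s) =
      (((n + 1) * (D * ((n + 1) * s ^ n)) * s) * JJ n 0 Z -
      (2 * ((n : ℝ) + 1) + 1 - (n + 1) * Z) * (1 - (n + 2 - (n + 1) * Z) * JJ n 0 Z) -
      (1 - (2 * ((n : ℝ) + 1) + 1 - (n + 1) * Z) * JJ n 0 Z) *
      ((n + 1 + 1 / 2) - (n + 1) * Z / 2)) * kk n α D s ^ 2 := by
    field_simp
    ring
  rw [e4, e3]
  ring

theorem rr_strictMonoOn (hα : 0 < α) : StrictMonoOn (rr n α D) (Ioi 0) := by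
  apply strictMonoOn_of_deriv_pos (convex_Ioi 0)
  · intro s hs
    exact (rr_hasDerivAt hα hs).continuousAt.continuousWithinAt
  · intro s hs
    rw [interior_Ioi] at hs
    have hs' : 0 < s := hs
    rw [(rr_hasDerivAt hα hs').deriv]
    have := WW_pos n (D * s ^ (n + 1))
    have := kk_pos (n := n) (D := D) hα hs'
    positivity

theorem zz_strictMonoOn (hα : 0 < α) : StrictMonoOn (zz n α D) (Ici 0) := by
  intro a ha b hb hab
  exact Real.sqrt_lt_sqrt (AA_nonneg hα ha) (AA_strictMonoOn hα ha hb hab)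

theorem exists_rr (hα : 0 < α) {a b : ℝ} (ha : 0 < a) (hab : a < b) :
    ∃ c ∈ Ioo a b, (NN n α D b - NN n α D a) / (zz n α D b - zz n α D a) = rr n α D c := by
  have hpos : ∀ x ∈ Icc a b, 0 < x := fun x hx => lt_of_lt_of_le ha hx.1
  obtain ⟨c, hc, h⟩ := exists_ratio_hasDerivAt_eq_ratio_slope (NN n α D)
    (fun s => rr n α D s * (ff n α D s / (2 * zz n α D s))) hab
    (fun x hx => (NN_hasDerivAt hα (hpos x hx)).continuousAt.continuousWithinAt)
    (fun x hx => NN_hasDerivAt hα (hpos x ⟨hx.1.le, hx.2.le⟩))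
    (zz n α D) (fun s => ff n α D s / (2 * zz n α D s))
    (fun x hx => (zz_hasDerivAt hα (hpos x hx)).continuousAt.continuousWithinAt)
    (fun x hx => zz_hasDerivAt hα (hpos x ⟨hx.1.le, hx.2.le⟩))
  refine ⟨c, hc, ?_⟩
  have hc0 : 0 < c := lt_trans ha hc.1
  have hz := zz_strictMonoOn (n := n) (D := D) hα ha.le (ha.trans hab).le hab
  have hf := ff_pos (n := n) (D := D) hα hc0
  have hzc := zz_pos (n := n) (D := D) hα hc0
  have hne : ff n α D c / (2 * zz n α D c) ≠ 0 := by positivity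
  rw [div_eq_iff (sub_pos.2 hz).ne']
  have h2 : ((zz n α D b - zz n α D a) * rr n α D c) * (ff n α D c / (2 * zz n α D c)) =
      (NN n α D b - NN n α D a) * (ff n α D c / (2 * zz n α D c)) := by
    rw [← h]
    ring
  have h3 := mul_right_cancel₀ hne h2
  rw [← h3]
  ring

/-- the values of `zz` -/
def SS (n : ℕ) (α D : ℝ) : Set ℝ := zz n α D '' Ioi 0

/-- `NN` as a function of `zz` -/
noncomputable def Nt (n : ℕ) (α D z : ℝ) : ℝ := NN n α D (Function.invFunOn (zz n α D) (Ioi 0) z)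

theorem zz_injOn (hα : 0 < α) : InjOn (zz n α D) (Ioi 0) :=
  ((zz_strictMonoOn hα).mono Ioi_subset_Ici_self).injOn

theorem Nt_zz (hα : 0 < α) {s : ℝ} (hs : 0 < s) : Nt n α D (zz n α D s) = NN n α D s := by
  unfold Nt
  have h1 : Function.invFunOn (zz n α D) (Ioi 0) (zz n α D s) = s :=
    (zz_injOn hα).leftInvOn_invFunOn hs
  rw [h1]

theorem SS_down (hα : 0 < α) {z z' : ℝ} (hz : z ∈ SS n α D) (h0 : 0 < z') (h : z' ≤ z) :
    z' ∈ SS n α D := by
  obtain ⟨s, hs, rfl⟩ := hz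
  have hs' : 0 < s := hs
  have hcont : Continuous (zz n α D) := AA_continuous.sqrt
  have h1 : z' ∈ Icc (zz n α D 0) (zz n α D s) := by
    have : zz n α D 0 = 0 := by simp [zz, AA_zero]
    rw [this]
    exact ⟨h0.le, h⟩
  obtain ⟨s', hs'', h2⟩ := intermediate_value_Icc hs'.le hcont.continuousOn h1
  refine ⟨s', ?_, h2⟩
  rcases hs''.1.eq_or_lt with h3 | h3
  · rw [← h3] at h2
    have : zz n α D 0 = 0 := by simp [zz, AA_zero]
    rw [this] at h2
    exact absurd h2 h0.ne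
  · exact h3

theorem SS_pos (hα : 0 < α) {z : ℝ} (hz : z ∈ SS n α D) : 0 < z := by
  obtain ⟨s, hs, rfl⟩ := hz
  exact zz_pos hα hs

theorem SS_convex (hα : 0 < α) : Convex ℝ (SS n α D) := by
  apply OrdConnected.convex
  constructor
  intro x hx y hy z hz
  exact SS_down hα hy (lt_of_lt_of_le (SS_pos hα hx) hz.1) hz.2

theorem Nt_strictConvexOn (hα : 0 < α) : StrictConvexOn ℝ (SS n α D) (Nt n α D) := by
  apply strictConvexOn_of_slope_strict_mono_adjacent (SS_convex hα)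
  intro x y z hx hz hxy hyz
  have hy : y ∈ SS n α D := (SS_convex hα).ordConnected.out hx hz ⟨hxy.le, hyz.le⟩
  obtain ⟨a, ha, rfl⟩ := hx
  obtain ⟨b, hb, rfl⟩ := hy
  obtain ⟨c, hc, rfl⟩ := hz
  have ha' : 0 < a := ha
  have hb' : 0 < b := hb
  have hc' : 0 < c := hc
  have hab : a < b := ((zz_strictMonoOn hα).lt_iff_lt ha'.le hb'.le).1 hxy
  have hbc : b < c := ((zz_strictMonoOn hα).lt_iff_lt hb'.le hc'.le).1 hyz
  rw [Nt_zz hα ha', Nt_zz hα hb', Nt_zz hα hc']
  obtain ⟨p, hp, h1⟩ := exists_rr (n := n) (D := D) hα ha' hab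
  obtain ⟨q, hq, h2⟩ := exists_rr (n := n) (D := D) hα hb' hbc
  rw [h1, h2]
  exact rr_strictMonoOn hα (ha'.trans hp.1) (hb'.trans hq.1) (hp.2.trans hq.1)

end Pool.Agent.Helper10.CritPer
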