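import Mathlib

/-!
Planar systems `x' = P(x,y)`, `y' = Q(x,y)` with homogeneous `P`, `Q` of degrees `2k+1`, `2l+1`,
centres at the origin, period annulus, period function and critical periods.
-/

open Set Filter Topology

namespace Pool.Agent.Helper10.CritPer

/-- the real binary form `∑_{j ≤ n} c j * x^(n-j) * y^j` of degree `n` -/
def form (n : ℕ) (c : ℕ → ℝ) (z : ℝ × ℝ) : ℝ :=
  ∑ j ∈ Finset.range (n + 1), c j * z.1 ^ (n - j) * z.2 ^ j

/-- the vector field `(P, Q)` with `P`, `Q` binary forms of degrees `2k+1` and `2l+1` -/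
def field (k l : ℕ) (a b : ℕ → ℝ) (z : ℝ × ℝ) : ℝ × ℝ :=
  (form (2 * k + 1) a z, form (2 * l + 1) b z)

/-- `γ` is a solution, defined for all times -/
def IsSol (V : ℝ × ℝ → ℝ × ℝ) (γ : ℝ → ℝ × ℝ) : Prop := ∀ t, HasDerivAt γ (V (γ t)) t

/-- the solution through `p` returns to `p` after the positive time `T` -/
def IsPeriod (V : ℝ × ℝ → ℝ × ℝ) (p : ℝ × ℝ) (T : ℝ) : Prop :=
  0 < T ∧ ∃ γ, IsSol V γ ∧ γ 0 = p ∧ γ T = p

/-- the minimal period of (the orbit through) `p` -/
noncomputable def period (V : ℝ × ℝ → ℝ × ℝ) (p : ℝ × ℝ) : ℝ := sInf {T | IsPeriod V p T}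

/-- the orbit through `p` -/
def orbit (V : ℝ × ℝ → ℝ × ℝ) (p : ℝ × ℝ) : Set (ℝ × ℝ) :=
  {q | ∃ γ t, IsSol V γ ∧ γ 0 = p ∧ γ t = q}

/-- the points on periodic orbits (not equilibria) which surround the origin, that is, the origin
lies in a bounded connected component of the complement of the orbit -/
def surr (V : ℝ × ℝ → ℝ × ℝ) : Set (ℝ × ℝ) :=
  {p | V p ≠ 0 ∧ (∃ T, IsPeriod V p T) ∧ (0 : ℝ × ℝ) ∉ orbit V p ∧
    Bornology.IsBounded (connectedComponentIn (orbit V p)ᶜ 0)}

/-- the origin is a centre: a punctured neighbourhood is filled with periodic orbits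
surrounding it -/
def IsCenter (V : ℝ × ℝ → ℝ × ℝ) : Prop := V 0 = 0 ∧ ∀ᶠ p in 𝓝[≠] (0 : ℝ × ℝ), p ∈ surr V

/-- the period annulus, together with the origin -/
def annulus (V : ℝ × ℝ → ℝ × ℝ) : Set (ℝ × ℝ) :=
  connectedComponentIn (interior (surr V ∪ {0})) 0

/-- the orbits of the period annulus which are isolated critical points of the period function -/
def critOrbits (V : ℝ × ℝ → ℝ × ℝ) : Set (Set (ℝ × ℝ)) :=
  {O | ∃ p ∈ annulus V, p ≠ 0 ∧ O = orbit V p ∧ fderiv ℝ (period V) p = 0 ∧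
    ∃ U ∈ 𝓝 p, ∀ q ∈ U, q ∉ O → fderiv ℝ (period V) q ≠ 0}

/-- `N k l`: the supremum, over all systems of the family with a centre at the origin, of the
number of critical periods of the period function on the period annulus of the origin -/
noncomputable def N (k l : ℕ) : ℕ∞ :=
  ⨆ (a : ℕ → ℝ) (b : ℕ → ℝ) (_ : IsCenter (field k l a b)), (critOrbits (field k l a b)).encard

end Pool.Agent.Helper10.CritPer
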