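import Pool.Agent.Helper10.CritPer.Gam
import Pool.Agent.Helper10.CritPer.Basic

/-!
Explicit solutions of the canonical system.
-/

open Set Filter Topology Metric MeasureTheory

namespace Pool.Agent.Helper10.CritPer

/-- the canonical system `x' = y`, `y' = -α x^(2n+3) + (n+1) D x^(2n+1) y^2` -/
noncomputable def VV (n : ℕ) (α D : ℝ) (z : ℝ × ℝ) : ℝ × ℝ :=
  (z.2, -α * z.1 ^ (2 * n + 3) + (n + 1) * D * z.1 ^ (2 * n + 1) * z.2 ^ 2)

/-- the first integral -/
noncomputable def HH (n : ℕ) (α D : ℝ) (z : ℝ × ℝ) : ℝ :=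
  z.2 ^ 2 * BB n D (z.1 ^ 2) + AA n α D (z.1 ^ 2)

/-- the angular speed -/
noncomputable def gg (n : ℕ) (α D μ θ : ℝ) : ℝ := Real.sqrt (Gam n α D (μ, θ))

/-- the time to reach the angle `θ` -/
noncomputable def tau (n : ℕ) (α D μ θ : ℝ) : ℝ := ∫ φ in (0 : ℝ)..θ, (gg n α D μ φ)⁻¹

variable {n : ℕ} {α D : ℝ}

theorem VV_contDiff : ContDiff ℝ 1 (VV n α D) := by
  unfold VV
  fun_prop

theorem sin_sq_le (θ : ℝ) : 0 ≤ Real.sin θ ^ 2 ∧ Real.sin θ ^ 2 ≤ 1 := by
  have := Real.sin_sq_add_cos_sq θ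
  constructor
  · positivity
  · nlinarith [sq_nonneg (Real.cos θ)]

/-- an upper bound for the square of the speed -/
theorem Gam_le (hα : 0 < α) (μ θ : ℝ) :
    Gam n α D (μ, θ) ≤ α * Real.exp μ ^ (n + 1) * Real.exp (|D| * Real.exp μ ^ (n + 1)) := by
  set C := α * Real.exp μ ^ (n + 1) * Real.exp (|D| * Real.exp μ ^ (n + 1)) with hC
  have hcont : Continuous (GamI n α D (μ, θ)) :=
    (GamI_contDiff (n := n) (α := α) (D := D)).continuous.comp
      (by fun_prop : Continuous fun t : ℝ => ((μ, θ), t))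
  have h1 : ∫ t in (0 : ℝ)..1, GamI n α D (μ, θ) t ≤ ∫ _t in (0 : ℝ)..1, C := by
    apply intervalIntegral.integral_mono_on (by norm_num) (hcont.intervalIntegrable _ _)
      intervalIntegrable_const
    intro t ht
    obtain ⟨q0, q1⟩ := sin_sq_le θ
    have hsc := Real.sin_sq_add_cos_sq θ
    have c0 : 0 ≤ Real.cos θ ^ 2 := sq_nonneg _
    have p0 : 0 ≤ Real.sin θ ^ 2 + t * Real.cos θ ^ 2 := by
      have := mul_nonneg ht.1 c0
      linarith
    have p1 : Real.sin θ ^ 2 + t * Real.cos θ ^ 2 ≤ 1 := by nlinarith [ht.2]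
    have a0 : 0 ≤ (Real.sin θ ^ 2 + t * Real.cos θ ^ 2) ^ (n + 1) := by positivity
    have a1 : (Real.sin θ ^ 2 + t * Real.cos θ ^ 2) ^ (n + 1) ≤ 1 := pow_le_one₀ p0 p1
    have b0 : 0 ≤ (Real.sin θ ^ 2) ^ (n + 1) := by positivity
    have b1 : (Real.sin θ ^ 2) ^ (n + 1) ≤ 1 := pow_le_one₀ q0 q1
    unfold GamI
    simp only
    rw [hC]
    have e0 : 0 ≤ α * Real.exp μ ^ (n + 1) := by positivity
    have e1 : α * Real.exp μ ^ (n + 1) * (Real.sin θ ^ 2 + t * Real.cos θ ^ 2) ^ (n + 1) ≤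
        α * Real.exp μ ^ (n + 1) * 1 := mul_le_mul_of_nonneg_left a1 e0
    have e2 : Real.exp (-D * Real.exp μ ^ (n + 1) *
        ((Real.sin θ ^ 2 + t * Real.cos θ ^ 2) ^ (n + 1) - (Real.sin θ ^ 2) ^ (n + 1))) ≤
        Real.exp (|D| * Real.exp μ ^ (n + 1)) := by
      apply Real.exp_le_exp.2
      have hm : 0 ≤ Real.exp μ ^ (n + 1) := by positivity
      have habs : |(Real.sin θ ^ 2 + t * Real.cos θ ^ 2) ^ (n + 1) - (Real.sin θ ^ 2) ^ (n + 1)| ≤ 1 := by
        rw [abs_le]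
        constructor <;> linarith
      calc -D * Real.exp μ ^ (n + 1) *
          ((Real.sin θ ^ 2 + t * Real.cos θ ^ 2) ^ (n + 1) - (Real.sin θ ^ 2) ^ (n + 1))
          ≤ |(-D * Real.exp μ ^ (n + 1) *
          ((Real.sin θ ^ 2 + t * Real.cos θ ^ 2) ^ (n + 1) - (Real.sin θ ^ 2) ^ (n + 1)))| :=
            le_abs_self _
        _ = |D| * Real.exp μ ^ (n + 1) *
          |(Real.sin θ ^ 2 + t * Real.cos θ ^ 2) ^ (n + 1) - (Real.sin θ ^ 2) ^ (n + 1)| := by
            rw [abs_mul, abs_mul, abs_neg, abs_of_nonneg hm]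
        _ ≤ |D| * Real.exp μ ^ (n + 1) * 1 :=
            mul_le_mul_of_nonneg_left habs (by positivity)
        _ = |D| * Real.exp μ ^ (n + 1) := mul_one _
    calc _ ≤ (α * Real.exp μ ^ (n + 1) * 1) * Real.exp (|D| * Real.exp μ ^ (n + 1)) :=
          mul_le_mul e1 e2 (Real.exp_pos _).le (by positivity)
      _ = _ := by ring
  rw [intervalIntegral.integral_const] at h1
  simpa [Gam] using h1

theorem gg_pos (hα : 0 < α) (μ θ : ℝ) : 0 < gg n α D μ θ := Real.sqrt_pos.2 (Gam_pos hα _)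

theorem gg_sq (hα : 0 < α) (μ θ : ℝ) : gg n α D μ θ ^ 2 = Gam n α D (μ, θ) :=
  Real.sq_sqrt (Gam_pos hα _).le

theorem gg_hasDerivAt (hα : 0 < α) (μ θ : ℝ) :
    HasDerivAt (gg n α D μ) (dGam n α D μ θ / (2 * gg n α D μ θ)) θ :=
  (Gam_hasDerivAt μ θ).sqrt (Gam_pos hα _).ne'

theorem gg_continuous (μ : ℝ) : Continuous (gg n α D μ) :=
  (Gam_slice μ).continuous.sqrt

theorem gg_inv_continuous (hα : 0 < α) (μ : ℝ) : Continuous fun φ => (gg n α D μ φ)⁻¹ :=
  (gg_continuous μ).inv₀ fun φ => (gg_pos hα μ φ).ne'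

theorem tau_hasDerivAt (hα : 0 < α) (μ θ : ℝ) :
    HasDerivAt (tau n α D μ) (gg n α D μ θ)⁻¹ θ :=
  ((gg_inv_continuous hα μ).integral_hasStrictDerivAt 0 θ).hasDerivAt

theorem tau_zero (μ : ℝ) : tau n α D μ 0 = 0 := by simp [tau]

theorem tau_strictMono (hα : 0 < α) (μ : ℝ) : StrictMono (tau n α D μ) := by
  apply strictMono_of_deriv_pos
  intro θ
  rw [(tau_hasDerivAt hα μ θ).deriv]
  exact inv_pos.2 (gg_pos hα μ θ)

theorem tau_surjective (hα : 0 < α) (μ : ℝ) : Function.Surjective (tau n α D μ) := by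
  have hcont : Continuous (tau n α D μ) :=
    continuous_iff_continuousAt.2 fun θ => (tau_hasDerivAt hα μ θ).continuousAt
  set C := Real.sqrt (α * Real.exp μ ^ (n + 1) * Real.exp (|D| * Real.exp μ ^ (n + 1))) with hC
  have hC0 : 0 < C := Real.sqrt_pos.2 (by positivity)
  have hle : ∀ φ, C⁻¹ ≤ (gg n α D μ φ)⁻¹ := by
    intro φ
    apply inv_anti₀ (gg_pos hα μ φ)
    exact Real.sqrt_le_sqrt (Gam_le hα μ φ)
  -- the difference is monotone
  have hmono : Monotone fun θ => tau n α D μ θ - C⁻¹ * θ := by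
    apply monotone_of_hasDerivAt_nonneg (f' := fun θ => (gg n α D μ θ)⁻¹ - C⁻¹)
    · intro θ
      have h1 : HasDerivAt (fun θ : ℝ => C⁻¹ * θ) C⁻¹ θ := by
        simpa using (hasDerivAt_id θ).const_mul C⁻¹
      exact (tau_hasDerivAt hα μ θ).sub h1
    · intro θ
      exact sub_nonneg.2 (hle θ)
  apply hcont.surjective
  · apply tendsto_atTop_mono' (f₁ := fun θ => C⁻¹ * θ)
    · filter_upwards [eventually_ge_atTop (0 : ℝ)] with θ hθ
      have := hmono hθ
      simp only [tau_zero, mul_zero, sub_zero] at this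
      linarith
    · exact tendsto_id.const_mul_atTop (inv_pos.2 hC0)
  · refine tendsto_atBot_mono' atBot (?_ : (tau n α D μ) ≤ᶠ[atBot] fun θ => C⁻¹ * θ) ?_
    · filter_upwards [eventually_le_atBot (0 : ℝ)] with θ hθ
      have := hmono hθ
      simp only [tau_zero, mul_zero, sub_zero] at this
      linarith
    · exact tendsto_id.const_mul_atBot (inv_pos.2 hC0)

/-- the angle at time `t` -/
noncomputable def th (hα : 0 < α) (n : ℕ) (D μ : ℝ) : ℝ → ℝ :=
  ((tau_strictMono (n := n) (D := D) hα μ).orderIsoOfSurjective _ (tau_surjective hα μ)).symm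

theorem tau_th (hα : 0 < α) (μ t : ℝ) : tau n α D μ (th hα n D μ t) = t :=
  ((tau_strictMono (n := n) (D := D) hα μ).orderIsoOfSurjective _
    (tau_surjective hα μ)).apply_symm_apply t

theorem th_tau (hα : 0 < α) (μ θ : ℝ) : th hα n D μ (tau n α D μ θ) = θ :=
  ((tau_strictMono (n := n) (D := D) hα μ).orderIsoOfSurjective _
    (tau_surjective hα μ)).symm_apply_apply θ

theorem th_strictMono (hα : 0 < α) (μ : ℝ) : StrictMono (th hα n D μ) :=
  OrderIso.strictMono _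

theorem th_zero (hα : 0 < α) (μ : ℝ) : th hα n D μ 0 = 0 := by
  have := th_tau (n := n) (D := D) hα μ 0
  rwa [tau_zero] at this

theorem th_hasDerivAt (hα : 0 < α) (μ t : ℝ) :
    HasDerivAt (th hα n D μ) (gg n α D μ (th hα n D μ t)) t := by
  have hcont : Continuous (th hα n D μ) := OrderIso.continuous _
  have h1 := HasDerivAt.of_local_left_inverse (f := tau n α D μ) (g := th hα n D μ) (a := t)
    hcont.continuousAt (tau_hasDerivAt hα μ _) (inv_ne_zero (gg_pos hα μ _).ne')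
    (Filter.Eventually.of_forall fun y => tau_th hα μ y)
  rwa [inv_inv] at h1

/-- the curve with the angle as parameter -/
noncomputable def crv (n : ℕ) (α D μ θ : ℝ) : ℝ × ℝ :=
  (Real.exp (μ / 2) * Real.sin θ, Real.exp (μ / 2) * Real.cos θ * gg n α D μ θ)

/-- the solution -/
noncomputable def sol (hα : 0 < α) (n : ℕ) (D μ t : ℝ) : ℝ × ℝ :=
  crv n α D μ (th hα n D μ t)

theorem exp_half_sq (μ : ℝ) : Real.exp (μ / 2) ^ 2 = Real.exp μ := by
  rw [← Real.exp_nat_mul]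
  congr 1
  push_cast
  ring

theorem sol_isSol (hα : 0 < α) (μ : ℝ) : IsSol (VV n α D) (sol hα n D μ) := by
  intro t
  set θ := th hα n D μ t with hθ
  have hth := th_hasDerivAt (n := n) (D := D) hα μ t
  have hg := gg_hasDerivAt (n := n) (D := D) hα μ θ
  have hgp := gg_pos (n := n) (D := D) hα μ θ
  have hgs := gg_sq (n := n) (D := D) hα μ θ
  have h1 : HasDerivAt (fun t => Real.exp (μ / 2) * Real.sin (th hα n D μ t))
      (Real.exp (μ / 2) * Real.cos θ * gg n α D μ θ) t := by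
    refine (((Real.hasDerivAt_sin θ).comp t hth).const_mul (Real.exp (μ / 2))).congr_deriv ?_
    ring
  have h2 : HasDerivAt (fun t => Real.exp (μ / 2) * Real.cos (th hα n D μ t) *
      gg n α D μ (th hα n D μ t))
      (-α * (Real.exp (μ / 2) * Real.sin θ) ^ (2 * n + 3) + (n + 1) * D *
        (Real.exp (μ / 2) * Real.sin θ) ^ (2 * n + 1) *
          (Real.exp (μ / 2) * Real.cos θ * gg n α D μ θ) ^ 2) t := by
    have e1 := (((Real.hasDerivAt_cos θ).comp t hth).const_mul (Real.exp (μ / 2))).mul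
      (hg.comp t hth)
    refine e1.congr_deriv ?_
    simp only [Function.comp_apply]
    rw [← hθ]
    have e2 : Real.exp (μ / 2) * (-Real.sin θ * gg n α D μ θ) * gg n α D μ θ +
        Real.exp (μ / 2) * Real.cos θ * (dGam n α D μ θ / (2 * gg n α D μ θ) * gg n α D μ θ) =
        Real.exp (μ / 2) * (-Real.sin θ * Gam n α D (μ, θ) + Real.cos θ * dGam n α D μ θ / 2) := by
      rw [← hgs]
      field_simp
    rw [e2, Gam_diff]
    have e3 : Real.exp (μ / 2) ^ (2 * n + 3) = Real.exp (μ / 2) * Real.exp μ ^ (n + 1) := by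
      rw [← exp_half_sq μ, ← pow_mul, ← pow_succ']
      congr 1
    have e4 : Real.exp (μ / 2) ^ (2 * n + 1) * Real.exp (μ / 2) ^ 2 =
        Real.exp (μ / 2) * Real.exp μ ^ (n + 1) := by
      rw [← e3, ← pow_add]
    have e5 : (Real.exp (μ / 2) * Real.sin θ) ^ (2 * n + 1) *
        (Real.exp (μ / 2) * Real.cos θ * gg n α D μ θ) ^ 2 =
        (Real.exp (μ / 2) ^ (2 * n + 1) * Real.exp (μ / 2) ^ 2) * (Real.sin θ ^ (2 * n + 1) *
          (Real.cos θ ^ 2 * Gam n α D (μ, θ))) := by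
      rw [← hgs]
      ring
    have e6 : -α * (Real.exp (μ / 2) * Real.sin θ) ^ (2 * n + 3) + (n + 1) * D *
        (Real.exp (μ / 2) * Real.sin θ) ^ (2 * n + 1) *
          (Real.exp (μ / 2) * Real.cos θ * gg n α D μ θ) ^ 2 =
        -α * (Real.exp (μ / 2) ^ (2 * n + 3) * Real.sin θ ^ (2 * n + 3)) + (n + 1) * D *
        ((Real.exp (μ / 2) * Real.sin θ) ^ (2 * n + 1) *
          (Real.exp (μ / 2) * Real.cos θ * gg n α D μ θ) ^ 2) := by
      rw [mul_pow (Real.exp (μ / 2)) (Real.sin θ) (2 * n + 3)]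
      ring
    rw [e6, e5, e4, e3]
    ring
  exact h1.prodMk h2

/-- the first integral on the curve -/
theorem HH_crv (hα : 0 < α) (μ θ : ℝ) : HH n α D (crv n α D μ θ) = AA n α D (Real.exp μ) := by
  unfold HH crv
  simp only
  have h1 := Gam_key (n := n) (α := α) (D := D) μ θ
  have h2 := gg_sq (n := n) (D := D) hα μ θ
  have e1 : (Real.exp (μ / 2) * Real.sin θ) ^ 2 = Real.exp μ * Real.sin θ ^ 2 := by
    rw [mul_pow, exp_half_sq]
  have e2 : (Real.exp (μ / 2) * Real.cos θ * gg n α D μ θ) ^ 2 =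
      Real.exp μ * Real.cos θ ^ 2 * Gam n α D (μ, θ) := by
    rw [mul_pow, mul_pow, exp_half_sq, h2]
  rw [e1, e2, h1]
  ring

theorem gg_pi_sub (μ θ : ℝ) : gg n α D μ (Real.pi - θ) = gg n α D μ θ := by
  unfold gg
  have : Gam n α D (μ, Real.pi - θ) = Gam n α D (μ, θ) := by
    rw [show Real.pi - θ = -θ + Real.pi by ring, Gam_add_pi, Gam_neg]
  rw [this]

/-- every point of the level set is on the curve -/
theorem exists_crv (hα : 0 < α) (μ : ℝ) {p : ℝ × ℝ} (hp : HH n α D p = AA n α D (Real.exp μ)) :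
    ∃ θ, crv n α D μ θ = p := by
  obtain ⟨x, y⟩ := p
  unfold HH at hp
  simp only at hp
  have hB := BB_pos (n := n) (D := D) (x ^ 2)
  have hR := Real.exp_pos (μ / 2)
  have h1 : x ^ 2 ≤ Real.exp μ := by
    by_contra hcon
    push Not at hcon
    have := AA_strictMonoOn (n := n) (D := D) hα (Real.exp_pos μ).le (sq_nonneg x) hcon
    have h2 : 0 ≤ y ^ 2 * BB n D (x ^ 2) := by positivity
    linarith
  have h2 : |x| ≤ Real.exp (μ / 2) := by
    rw [← exp_half_sq] at h1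
    exact abs_le_of_sq_le_sq h1 hR.le
  set θ := Real.arcsin (x / Real.exp (μ / 2)) with hθ
  have h3 : Real.sin θ = x / Real.exp (μ / 2) := by
    apply Real.sin_arcsin
    · rw [le_div_iff₀ hR]
      linarith [(abs_le.1 h2).1]
    · rw [div_le_iff₀ hR]
      linarith [(abs_le.1 h2).2]
  have h4 : Real.exp (μ / 2) * Real.sin θ = x := by
    rw [h3]
    field_simp
  have h5 : Real.exp μ * Real.sin θ ^ 2 = x ^ 2 := by
    rw [← h4, mul_pow, exp_half_sq]
  have h6 := Gam_key (n := n) (α := α) (D := D) μ θ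
  rw [h5] at h6
  have h7 : (Real.exp (μ / 2) * Real.cos θ * gg n α D μ θ) ^ 2 = y ^ 2 := by
    have e1 : (Real.exp (μ / 2) * Real.cos θ * gg n α D μ θ) ^ 2 =
        Real.exp μ * Real.cos θ ^ 2 * Gam n α D (μ, θ) := by
      rw [mul_pow, mul_pow, exp_half_sq, gg_sq hα]
    rw [e1]
    have e2 : (Real.exp μ * Real.cos θ ^ 2 * Gam n α D (μ, θ)) * BB n D (x ^ 2) =
        y ^ 2 * BB n D (x ^ 2) := by
      rw [h6, ← hp]
      ring
    exact mul_right_cancel₀ hB.ne' e2
  rcases sq_eq_sq_iff_eq_or_eq_neg.1 h7 with h8 | h8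
  · exact ⟨θ, by unfold crv; rw [h4, h8]⟩
  · refine ⟨Real.pi - θ, ?_⟩
    unfold crv
    rw [Real.sin_pi_sub, Real.cos_pi_sub, gg_pi_sub, h4]
    have : Real.exp (μ / 2) * -Real.cos θ * gg n α D μ θ = y := by linarith
    rw [this]

theorem exists_sol_of_level (hα : 0 < α) (μ : ℝ) {p : ℝ × ℝ}
    (hp : HH n α D p = AA n α D (Real.exp μ)) : ∃ t, sol hα n D μ t = p := by
  obtain ⟨θ, hθ⟩ := exists_crv hα μ hp
  refine ⟨tau n α D μ θ, ?_⟩
  unfold sol
  rw [th_tau, hθ]

theorem HH_sol (hα : 0 < α) (μ t : ℝ) :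
    HH n α D (sol hα n D μ t) = AA n α D (Real.exp μ) := HH_crv hα μ _

theorem range_sol (hα : 0 < α) (μ : ℝ) :
    range (sol hα n D μ) = {p | HH n α D p = AA n α D (Real.exp μ)} := by
  ext p
  constructor
  · rintro ⟨t, rfl⟩
    exact HH_sol hα μ t
  · intro hp
    exact exists_sol_of_level hα μ hp

/-- the orbit through a point of a level set is the level set -/
theorem orbit_level (hα : 0 < α) (μ : ℝ) {p : ℝ × ℝ}
    (hp : HH n α D p = AA n α D (Real.exp μ)) :
    orbit (VV n α D) p = {q | HH n α D q = HH n α D p} := by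
  obtain ⟨t, ht⟩ := exists_sol_of_level hα μ hp
  have h1 : orbit (VV n α D) (sol hα n D μ 0) = range (sol hα n D μ) :=
    orbit_eq_range VV_contDiff (sol_isSol hα μ) rfl
  have h2 : p ∈ orbit (VV n α D) (sol hα n D μ 0) := by
    rw [h1]
    exact ⟨t, ht⟩
  rw [orbit_eq_of_mem VV_contDiff h2, h1, range_sol, hp]

/-- the period -/
noncomputable def Per (n : ℕ) (α D μ : ℝ) : ℝ := tau n α D μ (2 * Real.pi)

theorem Per_pos (hα : 0 < α) (μ : ℝ) : 0 < Per n α D μ := by
  have := tau_strictMono (n := n) (D := D) hα μ Real.two_pi_pos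
  rwa [tau_zero] at this

theorem sol_eq_zero_iff (hα : 0 < α) (μ t : ℝ) :
    sol hα n D μ t = sol hα n D μ 0 ↔ ∃ k : ℤ, th hα n D μ t = 2 * Real.pi * k := by
  have hR := Real.exp_pos (μ / 2)
  unfold sol
  rw [th_zero]
  unfold crv
  rw [Real.sin_zero, Real.cos_zero, mul_zero, mul_one, Prod.mk.injEq]
  constructor
  · rintro ⟨h1, h2⟩
    have h3 : Real.sin (th hα n D μ t) = 0 := (mul_eq_zero.1 h1).resolve_left hR.ne'
    have h4 : 0 < Real.cos (th hα n D μ t) := by
      have e1 : 0 < Real.exp (μ / 2) * Real.cos (th hα n D μ t) *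
          gg n α D μ (th hα n D μ t) := by
        rw [h2]
        exact mul_pos hR (gg_pos hα μ 0)
      have e2 := (mul_pos_iff_of_pos_right (gg_pos hα μ _)).1 e1
      exact (mul_pos_iff_of_pos_left hR).1 e2
    have h5 : Real.cos (th hα n D μ t) = 1 := by
      have := Real.sin_sq_add_cos_sq (th hα n D μ t)
      rw [h3] at this
      nlinarith
    obtain ⟨k, hk⟩ := (Real.cos_eq_one_iff _).1 h5
    exact ⟨k, by rw [← hk]; ring⟩
  · rintro ⟨k, hk⟩
    rw [hk]
    have e1 : Real.sin (2 * Real.pi * k) = 0 := by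
      rw [mul_comm]
      have := Real.sin_add_int_mul_two_pi 0 k
      simpa using this
    have e2 : Real.cos (2 * Real.pi * k) = 1 := by
      rw [mul_comm]
      have := Real.cos_add_int_mul_two_pi 0 k
      simpa using this
    have e3 : gg n α D μ (2 * Real.pi * k) = gg n α D μ 0 := by
      unfold gg Gam GamI
      simp only [e1, e2, Real.sin_zero, Real.cos_zero]
    rw [e1, e2, e3]
    simp

theorem sol_Per (hα : 0 < α) (μ : ℝ) : sol hα n D μ (Per n α D μ) = sol hα n D μ 0 := by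
  rw [sol_eq_zero_iff]
  refine ⟨1, ?_⟩
  unfold Per
  rw [th_tau]
  simp

/-- the minimal period on the level set -/
theorem period_level (hα : 0 < α) (μ : ℝ) {p : ℝ × ℝ}
    (hp : HH n α D p = AA n α D (Real.exp μ)) :
    IsPeriod (VV n α D) p (Per n α D μ) ∧ period (VV n α D) p = Per n α D μ := by
  obtain ⟨t, ht⟩ := exists_sol_of_level hα μ hp
  have h1 : orbit (VV n α D) (sol hα n D μ 0) = range (sol hα n D μ) :=
    orbit_eq_range VV_contDiff (sol_isSol hα μ) rfl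
  have h2 : p ∈ orbit (VV n α D) (sol hα n D μ 0) := by
    rw [h1]
    exact ⟨t, ht⟩
  have h3 : ∀ T, IsPeriod (VV n α D) p T ↔ 0 < T ∧ sol hα n D μ T = sol hα n D μ 0 := by
    intro T
    rw [isPeriod_of_mem VV_contDiff h2, isPeriod_iff VV_contDiff (sol_isSol hα μ) rfl]
  have h4 : IsPeriod (VV n α D) p (Per n α D μ) := (h3 _).2 ⟨Per_pos hα μ, sol_Per hα μ⟩
  refine ⟨h4, ?_⟩
  unfold period
  apply IsLeast.csInf_eq
  refine ⟨h4, ?_⟩
  intro T hT
  obtain ⟨hT0, hT1⟩ := (h3 T).1 hT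
  obtain ⟨k, hk⟩ := (sol_eq_zero_iff hα μ T).1 hT1
  have h5 : 0 < th hα n D μ T := by
    have := th_strictMono (n := n) (D := D) hα μ hT0
    rwa [th_zero] at this
  have h6 : (1 : ℝ) ≤ k := by
    rw [hk] at h5
    have h7 : (0 : ℝ) < k := by
      rcases (mul_pos_iff_of_pos_left Real.two_pi_pos).1 h5 with h
      exact h
    have h8 : (0 : ℤ) < k := by exact_mod_cast h7
    exact_mod_cast h8
  have h7 : 2 * Real.pi ≤ th hα n D μ T := by
    rw [hk]
    nlinarith [Real.two_pi_pos]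
  have h8 := (tau_strictMono (n := n) (D := D) hα μ).monotone h7
  rw [tau_th] at h8
  exact h8

end Pool.Agent.Helper10.CritPer
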