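import Pool.Agent.Helper10.CritPer.ParamInt

/-!
The functions `A`, `B` and the speed function of the canonical system
`x' = y`, `y' = -α x^(2n+3) + (n+1) D x^(2n+1) y^2`.
-/

open Set Filter Topology Metric MeasureTheory

namespace Pool.Agent.Helper10.CritPer

/-- `B(s) = exp (-D s^(n+1))` -/
noncomputable def BB (n : ℕ) (D s : ℝ) : ℝ := Real.exp (-D * s ^ (n + 1))

/-- the derivative of `A` -/
noncomputable def ff (n : ℕ) (α D t : ℝ) : ℝ := α * t ^ (n + 1) * Real.exp (-D * t ^ (n + 1))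

/-- `A(s) = α ∫_0^s t^(n+1) exp (-D t^(n+1)) dt` -/
noncomputable def AA (n : ℕ) (α D s : ℝ) : ℝ := ∫ t in (0 : ℝ)..s, ff n α D t

/-- the integrand of `Gam` -/
noncomputable def GamI (n : ℕ) (α D : ℝ) (z : ℝ × ℝ) (t : ℝ) : ℝ :=
  α * Real.exp z.1 ^ (n + 1) * (Real.sin z.2 ^ 2 + t * Real.cos z.2 ^ 2) ^ (n + 1) *
    Real.exp (-D * Real.exp z.1 ^ (n + 1) * ((Real.sin z.2 ^ 2 + t * Real.cos z.2 ^ 2) ^ (n + 1)
      - (Real.sin z.2 ^ 2) ^ (n + 1)))

/-- the square of the angular speed on the orbit through `(√m, 0)`, `m = exp μ` -/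
noncomputable def Gam (n : ℕ) (α D : ℝ) (z : ℝ × ℝ) : ℝ := ∫ t in (0 : ℝ)..1, GamI n α D z t

variable {n : ℕ} {α D : ℝ}

theorem BB_pos (s : ℝ) : 0 < BB n D s := Real.exp_pos _

theorem BB_hasDerivAt (s : ℝ) :
    HasDerivAt (BB n D) (-(D * (n + 1) * s ^ n) * BB n D s) s := by
  have h1 := ((hasDerivAt_pow (n + 1) s).const_mul (-D)).exp
  refine h1.congr_deriv ?_
  unfold BB
  push_cast
  ring

theorem ff_continuous : Continuous (ff n α D) := by
  unfold ff
  fun_prop

theorem ff_eq (s : ℝ) : ff n α D s = α * s ^ (n + 1) * BB n D s := rfl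

theorem AA_hasDerivAt (s : ℝ) : HasDerivAt (AA n α D) (ff n α D s) s :=
  (ff_continuous.integral_hasStrictDerivAt 0 s).hasDerivAt

theorem AA_zero : AA n α D 0 = 0 := by simp [AA]

theorem AA_continuous : Continuous (AA n α D) :=
  continuous_iff_continuousAt.2 fun s => (AA_hasDerivAt s).continuousAt

theorem ff_pos (hα : 0 < α) {s : ℝ} (hs : 0 < s) : 0 < ff n α D s := by
  unfold ff
  positivity

theorem AA_strictMonoOn (hα : 0 < α) : StrictMonoOn (AA n α D) (Ici 0) := by
  apply strictMonoOn_of_deriv_pos (convex_Ici 0) AA_continuous.continuousOn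
  intro s hs
  rw [interior_Ici] at hs
  rw [(AA_hasDerivAt s).deriv]
  exact ff_pos hα hs

theorem AA_pos (hα : 0 < α) {s : ℝ} (hs : 0 < s) : 0 < AA n α D s := by
  have := AA_strictMonoOn (n := n) (D := D) hα (by simp : (0 : ℝ) ∈ Ici 0) hs.le hs
  rwa [AA_zero] at this

theorem AA_nonneg (hα : 0 < α) {s : ℝ} (hs : 0 ≤ s) : 0 ≤ AA n α D s := by
  rcases hs.eq_or_lt with h | h
  · rw [← h, AA_zero]
  · exact (AA_pos hα h).le

/-- the key identity -/
theorem Gam_key (μ θ : ℝ) :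
    Real.exp μ * Real.cos θ ^ 2 * Gam n α D (μ, θ) * BB n D (Real.exp μ * Real.sin θ ^ 2) =
      AA n α D (Real.exp μ) - AA n α D (Real.exp μ * Real.sin θ ^ 2) := by
  have h1 : AA n α D (Real.exp μ) - AA n α D (Real.exp μ * Real.sin θ ^ 2) =
      ∫ t in (Real.exp μ * Real.sin θ ^ 2)..(Real.exp μ), ff n α D t := by
    unfold AA
    rw [intervalIntegral.integral_interval_sub_left (ff_continuous.intervalIntegrable _ _)
      (ff_continuous.intervalIntegrable _ _)]
  rw [h1]
  have h2 := intervalIntegral.mul_integral_comp_mul_add (a := (0 : ℝ)) (b := 1)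
    (f := ff n α D) (Real.exp μ * Real.cos θ ^ 2) (Real.exp μ * Real.sin θ ^ 2)
  have h3 : Real.exp μ * Real.cos θ ^ 2 * 1 + Real.exp μ * Real.sin θ ^ 2 = Real.exp μ := by
    have := Real.sin_sq_add_cos_sq θ
    linear_combination Real.exp μ * this
  rw [h3, mul_zero, zero_add] at h2
  rw [← h2]
  have h4 : ∀ t, ff n α D (Real.exp μ * Real.cos θ ^ 2 * t + Real.exp μ * Real.sin θ ^ 2) =
      GamI n α D (μ, θ) t * BB n D (Real.exp μ * Real.sin θ ^ 2) := by
    intro t
    unfold ff GamI BB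
    simp only
    have e1 : Real.exp μ * Real.cos θ ^ 2 * t + Real.exp μ * Real.sin θ ^ 2 =
        Real.exp μ * (Real.sin θ ^ 2 + t * Real.cos θ ^ 2) := by ring
    rw [e1, mul_pow, mul_assoc _ (Real.exp (-D * _ * _)) _, ← Real.exp_add, mul_pow]
    have e2 : -D * Real.exp μ ^ (n + 1) * ((Real.sin θ ^ 2 + t * Real.cos θ ^ 2) ^ (n + 1) -
        (Real.sin θ ^ 2) ^ (n + 1)) + -D * (Real.exp μ ^ (n + 1) * (Real.sin θ ^ 2) ^ (n + 1)) =
        -D * (Real.exp μ ^ (n + 1) * (Real.sin θ ^ 2 + t * Real.cos θ ^ 2) ^ (n + 1)) := by ring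
    rw [e2]
    ring
  simp only [h4]
  rw [intervalIntegral.integral_mul_const]
  unfold Gam
  ring

theorem GamI_contDiff : ContDiff ℝ 1 (Function.uncurry (GamI n α D)) := by
  unfold Function.uncurry GamI
  fun_prop

theorem Gam_contDiff : ContDiff ℝ 1 (Gam n α D) := contDiff_param GamI_contDiff 0 1

theorem Gam_pos (hα : 0 < α) (z : ℝ × ℝ) : 0 < Gam n α D z := by
  unfold Gam
  apply intervalIntegral.intervalIntegral_pos_of_pos_on
  · have : Continuous (GamI n α D z) :=
      (GamI_contDiff (n := n) (α := α) (D := D)).continuous.comp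
        (by fun_prop : Continuous fun t : ℝ => (z, t))
    exact this.intervalIntegrable _ _
  · intro t ht
    have h1 : 0 < Real.sin z.2 ^ 2 + t * Real.cos z.2 ^ 2 := by
      have := Real.sin_sq_add_cos_sq z.2
      nlinarith [sq_nonneg (Real.sin z.2), sq_nonneg (Real.cos z.2), ht.1, ht.2]
    unfold GamI
    positivity
  · exact one_pos

theorem Gam_neg (μ θ : ℝ) : Gam n α D (μ, -θ) = Gam n α D (μ, θ) := by
  unfold Gam GamI
  simp

theorem Gam_add_pi (μ θ : ℝ) : Gam n α D (μ, θ + Real.pi) = Gam n α D (μ, θ) := by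
  unfold Gam GamI
  simp

/-- the partial derivative of `Gam` -/
noncomputable def dGam (n : ℕ) (α D μ θ : ℝ) : ℝ := deriv (fun θ => Gam n α D (μ, θ)) θ

theorem Gam_slice (μ : ℝ) : ContDiff ℝ 1 (fun θ => Gam n α D (μ, θ)) :=
  Gam_contDiff.comp (by fun_prop : ContDiff ℝ 1 fun θ : ℝ => (μ, θ))

theorem Gam_hasDerivAt (μ θ : ℝ) :
    HasDerivAt (fun θ => Gam n α D (μ, θ)) (dGam n α D μ θ) θ :=
  ((Gam_slice μ).differentiable (by norm_num) θ).hasDerivAt

theorem dGam_continuous (μ : ℝ) : Continuous (dGam n α D μ) :=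
  (Gam_slice μ).continuous_deriv (by norm_num)

theorem dense_cos_ne : Dense {θ : ℝ | Real.cos θ ≠ 0} := by
  have h1 : {θ : ℝ | Real.cos θ ≠ 0} = {θ : ℝ | Real.cos θ = 0}ᶜ := rfl
  rw [h1]
  apply Set.Countable.dense_compl ℝ
  have h2 : {θ : ℝ | Real.cos θ = 0} = range (fun k : ℤ => (2 * (k : ℝ) + 1) * Real.pi / 2) := by
    ext θ
    rw [mem_setOf_eq, Real.cos_eq_zero_iff]
    constructor
    · rintro ⟨k, rfl⟩
      exact ⟨k, rfl⟩
    · rintro ⟨k, rfl⟩
      exact ⟨k, rfl⟩
  rw [h2]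
  exact countable_range _

/-- the differential identity which says that the curve satisfies the second equation -/
theorem Gam_diff (μ θ : ℝ) :
    -Real.sin θ * Gam n α D (μ, θ) + Real.cos θ * dGam n α D μ θ / 2 =
      -α * Real.exp μ ^ (n + 1) * Real.sin θ ^ (2 * n + 3) +
        (n + 1) * D * Real.exp μ ^ (n + 1) * Real.sin θ ^ (2 * n + 1) *
          (Real.cos θ ^ 2 * Gam n α D (μ, θ)) := by
  have hcont : Continuous fun θ => Gam n α D (μ, θ) := (Gam_slice μ).continuous
  have hcont' := dGam_continuous (n := n) (α := α) (D := D) μ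
  have key : (fun θ => -Real.sin θ * Gam n α D (μ, θ) + Real.cos θ * dGam n α D μ θ / 2) =
      fun θ => -α * Real.exp μ ^ (n + 1) * Real.sin θ ^ (2 * n + 3) +
        (n + 1) * D * Real.exp μ ^ (n + 1) * Real.sin θ ^ (2 * n + 1) *
          (Real.cos θ ^ 2 * Gam n α D (μ, θ)) := by
    apply Continuous.ext_on dense_cos_ne (by fun_prop) (by fun_prop)
    intro θ hθ
    have hc : Real.cos θ ≠ 0 := hθ
    simp only
    -- differentiate the key identity
    have hs : HasDerivAt (fun θ => Real.exp μ * Real.sin θ ^ 2)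
        (2 * Real.exp μ * Real.sin θ * Real.cos θ) θ := by
      refine (((Real.hasDerivAt_sin θ).fun_pow 2).const_mul (Real.exp μ)).congr_deriv ?_
      push_cast
      ring
    have h1 : HasDerivAt (fun θ => Real.exp μ * Real.cos θ ^ 2 * Gam n α D (μ, θ) *
        BB n D (Real.exp μ * Real.sin θ ^ 2) + AA n α D (Real.exp μ * Real.sin θ ^ 2))
        ((-2 * Real.exp μ * Real.cos θ * Real.sin θ * Gam n α D (μ, θ) +
          Real.exp μ * Real.cos θ ^ 2 * dGam n α D μ θ) * BB n D (Real.exp μ * Real.sin θ ^ 2) +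
          Real.exp μ * Real.cos θ ^ 2 * Gam n α D (μ, θ) *
            (-(D * (n + 1) * (Real.exp μ * Real.sin θ ^ 2) ^ n) *
              BB n D (Real.exp μ * Real.sin θ ^ 2) * (2 * Real.exp μ * Real.sin θ * Real.cos θ)) +
          ff n α D (Real.exp μ * Real.sin θ ^ 2) * (2 * Real.exp μ * Real.sin θ * Real.cos θ)) θ := by
      have e1 : HasDerivAt (fun θ => Real.exp μ * Real.cos θ ^ 2)
          (-2 * Real.exp μ * Real.cos θ * Real.sin θ) θ := by
        refine (((Real.hasDerivAt_cos θ).fun_pow 2).const_mul (Real.exp μ)).congr_deriv ?_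
        push_cast
        ring
      have e2 := (e1.mul (Gam_hasDerivAt (n := n) (α := α) (D := D) μ θ))
      have e3 := (BB_hasDerivAt (n := n) (D := D) (Real.exp μ * Real.sin θ ^ 2)).comp θ hs
      have e4 := (AA_hasDerivAt (n := n) (α := α) (D := D) (Real.exp μ * Real.sin θ ^ 2)).comp θ hs
      exact (e2.mul e3).add e4
    have h2 : HasDerivAt (fun θ => Real.exp μ * Real.cos θ ^ 2 * Gam n α D (μ, θ) *
        BB n D (Real.exp μ * Real.sin θ ^ 2) + AA n α D (Real.exp μ * Real.sin θ ^ 2)) 0 θ := by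
      have : (fun θ => Real.exp μ * Real.cos θ ^ 2 * Gam n α D (μ, θ) *
        BB n D (Real.exp μ * Real.sin θ ^ 2) + AA n α D (Real.exp μ * Real.sin θ ^ 2)) =
        fun _ => AA n α D (Real.exp μ) := by
        funext θ
        rw [Gam_key]
        ring
      rw [this]
      exact hasDerivAt_const _ _
    have h3 := h1.unique h2
    rw [ff_eq] at h3
    have hB := (BB_pos (n := n) (D := D) (Real.exp μ * Real.sin θ ^ 2)).ne'
    have hm := (Real.exp_pos μ).ne'
    rw [mul_pow (Real.exp μ) (Real.sin θ ^ 2) n, mul_pow (Real.exp μ) (Real.sin θ ^ 2) (n + 1),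
      ← pow_mul, ← pow_mul] at h3
    have h4 : (2 * Real.exp μ * Real.cos θ * BB n D (Real.exp μ * Real.sin θ ^ 2)) *
        ((-Real.sin θ * Gam n α D (μ, θ) + Real.cos θ * dGam n α D μ θ / 2) -
        (-α * Real.exp μ ^ (n + 1) * Real.sin θ ^ (2 * n + 3) +
        (n + 1) * D * Real.exp μ ^ (n + 1) * Real.sin θ ^ (2 * n + 1) *
          (Real.cos θ ^ 2 * Gam n α D (μ, θ)))) = 0 := by
      rw [← h3]
      ring
    have h5 := (mul_eq_zero.1 h4).resolve_left (by positivity)
    linarith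
  exact congrFun key θ

end Pool.Agent.Helper10.CritPer
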