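import Pool.Agent.Helper10.CritPer.Uniq

/-!
For `D > 0` the period tends to infinity at both ends of the annulus.
-/

open Set Filter Topology Metric MeasureTheory

namespace Pool.Agent.Helper10.CritPer

variable {n : ℕ} {α D : ℝ}

/-- lower bound near the origin -/
theorem Per_ge (hα : 0 < α) (μ : ℝ) :
    2 * Real.pi * (Real.sqrt (α * Real.exp μ ^ (n + 1) *
      Real.exp (|D| * Real.exp μ ^ (n + 1))))⁻¹ ≤ Per n α D μ := by
  have h1 : ∫ _θ in (0 : ℝ)..(2 * Real.pi), (Real.sqrt (α * Real.exp μ ^ (n + 1) *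
      Real.exp (|D| * Real.exp μ ^ (n + 1))))⁻¹ ≤ ∫ θ in (0 : ℝ)..(2 * Real.pi), (gg n α D μ θ)⁻¹ := by
    apply intervalIntegral.integral_mono_on Real.two_pi_pos.le intervalIntegrable_const
      ((gg_inv_continuous hα μ).intervalIntegrable _ _)
    intro θ _
    apply inv_anti₀ (gg_pos hα μ θ)
    exact Real.sqrt_le_sqrt (Gam_le hα μ θ)
  rw [intervalIntegral.integral_const, sub_zero, smul_eq_mul] at h1
  exact h1

theorem Per_atBot (hα : 0 < α) : Tendsto (Per n α D) atBot atTop := by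
  apply tendsto_atTop_mono (fun μ => Per_ge (n := n) (D := D) hα μ)
  apply Tendsto.const_mul_atTop Real.two_pi_pos
  apply Tendsto.inv_tendsto_nhdsGT_zero
  rw [tendsto_nhdsWithin_iff]
  constructor
  · have h1 : Continuous fun μ : ℝ => Real.sqrt (α * μ ^ (n + 1) *
        Real.exp (|D| * μ ^ (n + 1))) := by fun_prop
    have h2 := (h1.tendsto 0).comp Real.tendsto_exp_atBot
    simp only [ne_eq, Nat.add_eq_zero_iff, one_ne_zero, and_false, not_false_eq_true, zero_pow,
      mul_zero, Real.exp_zero, mul_one, Real.sqrt_zero] at h2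
    exact h2
  · apply Filter.Eventually.of_forall
    intro μ
    exact Real.sqrt_pos.2 (by positivity)

/-- growth of `A` for `D > 0` -/
theorem AA_diff_le (hα : 0 < α) (hD : 0 < D) {t0 : ℝ} (ht0 : 0 < t0)
    (h : 2 ≤ D * (n + 1) * t0 ^ (n + 1)) {s m : ℝ} (hs : t0 ≤ s) (hm : s ≤ m) :
    AA n α D m - AA n α D s ≤ 2 * α / (D * (n + 1)) * (s * BB n D s) := by
  set K := 2 * α / (D * (n + 1)) with hK
  have hK0 : 0 < K := by positivity
  have hd : ∀ t, HasDerivAt (fun t => AA n α D t + K * (t * BB n D t))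
      (BB n D t * (K - α * t ^ (n + 1))) t := by
    intro t
    have h1 := (AA_hasDerivAt (n := n) (α := α) (D := D) t).add
      (((hasDerivAt_id t).mul (BB_hasDerivAt (n := n) (D := D) t)).const_mul K)
    refine h1.congr_deriv ?_
    rw [ff_eq]
    simp only [id]
    have h2 : K * (D * (n + 1)) = 2 * α := by
      rw [hK]
      field_simp
    have h3 : α * t ^ (n + 1) * BB n D t + K * (1 * BB n D t + t * (-(D * (n + 1) * t ^ n) *
        BB n D t)) = BB n D t * (K + α * t ^ (n + 1) - (K * (D * (n + 1))) * t ^ (n + 1)) := by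
      ring
    rw [h3, h2]
    ring
  have hanti : AntitoneOn (fun t => AA n α D t + K * (t * BB n D t)) (Ici t0) := by
    apply antitoneOn_of_deriv_nonpos (convex_Ici t0)
    · exact (continuous_iff_continuousAt.2 fun t => (hd t).continuousAt).continuousOn
    · exact fun t _ => (hd t).differentiableAt.differentiableWithinAt
    · intro t ht
      rw [interior_Ici] at ht
      have ht' : t0 < t := ht
      rw [(hd t).deriv]
      have hB := BB_pos (n := n) (D := D) t
      have h1 : t0 ^ (n + 1) ≤ t ^ (n + 1) := pow_le_pow_left₀ ht0.le ht'.le _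
      have h2 : K ≤ α * t ^ (n + 1) := by
        rw [hK, div_le_iff₀ (by positivity)]
        have h3 : D * (n + 1) * t0 ^ (n + 1) ≤ D * (n + 1) * t ^ (n + 1) :=
          mul_le_mul_of_nonneg_left h1 (by positivity)
        nlinarith
      have h4 : BB n D t * (K - α * t ^ (n + 1)) ≤ 0 :=
        mul_nonpos_of_nonneg_of_nonpos hB.le (by linarith)
      exact h4
  have h1 := hanti (mem_Ici.2 hs) (mem_Ici.2 (hs.trans hm)) hm
  simp only at h1
  have hB := BB_pos (n := n) (D := D) m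
  have h2 : 0 ≤ K * (m * BB n D m) := by
    have : 0 < m := lt_of_lt_of_le ht0 (hs.trans hm)
    positivity
  linarith

theorem exists_t0 (hD : 0 < D) (n : ℕ) : ∃ t0 : ℝ, 0 < t0 ∧ 2 ≤ D * (n + 1) * t0 ^ (n + 1) := by
  set t0 := max 1 (2 / (D * (n + 1))) with ht0
  have h1 : 1 ≤ t0 := le_max_left _ _
  have h2 : 2 / (D * (n + 1)) ≤ t0 := le_max_right _ _
  refine ⟨t0, by linarith, ?_⟩
  have h3 : t0 ≤ t0 ^ (n + 1) := le_self_pow₀ h1 (by omega)
  have h4 : 2 / (D * (n + 1)) ≤ t0 ^ (n + 1) := h2.trans h3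
  rw [div_le_iff₀ (by positivity)] at h4
  linarith

/-- lower bound at the outer boundary -/
theorem Per_ge_log (hα : 0 < α) (hD : 0 < D) {t0 : ℝ} (ht0 : 0 < t0)
    (h : 2 ≤ D * (n + 1) * t0 ^ (n + 1)) {μ : ℝ} (hμ : Real.log t0 < μ) :
    2 / Real.sqrt (2 * α / (D * (n + 1))) * (μ - Real.log t0) ≤ Per n α D μ := by
  set K := 2 * α / (D * (n + 1)) with hK
  have hK0 : 0 < K := by positivity
  have hm := Real.exp_pos μ
  have hlt : t0 < Real.exp μ := (Real.log_lt_iff_lt_exp ht0).1 hμ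
  set q := Real.sqrt (t0 / Real.exp μ) with hq
  have hq0 : 0 < q := Real.sqrt_pos.2 (by positivity)
  have hq1 : q < 1 := by
    rw [hq, Real.sqrt_lt' one_pos, one_pow, div_lt_one hm]
    exact hlt
  have hqs : q ^ 2 = t0 / Real.exp μ := Real.sq_sqrt (by positivity)
  set θ1 := Real.arcsin q with hθ1
  have hsin1 : Real.sin θ1 = q := Real.sin_arcsin (by linarith) hq1.le
  have hθ0 : 0 < θ1 := Real.arcsin_pos.2 hq0
  have hθ2 : θ1 < Real.pi / 2 := Real.arcsin_lt_pi_div_two.2 hq1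
  have hsinpos : ∀ θ ∈ Icc θ1 (Real.pi / 2), 0 < Real.sin θ := by
    intro θ hθ
    exact Real.sin_pos_of_pos_of_lt_pi (lt_of_lt_of_le hθ0 hθ.1) (by linarith [hθ.2, Real.pi_pos])
  -- pointwise bound
  have hpt : ∀ θ ∈ Icc θ1 (Real.pi / 2), (Real.sqrt K)⁻¹ * (Real.cos θ / Real.sin θ) ≤
      (gg n α D μ θ)⁻¹ := by
    intro θ hθ
    have hS := hsinpos θ hθ
    have hC : 0 ≤ Real.cos θ := Real.cos_nonneg_of_mem_Icc ⟨by linarith [hθ.1, Real.pi_pos], hθ.2⟩
    have hg := gg_pos (n := n) (D := D) hα μ θ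
    have hsK := Real.sqrt_pos.2 hK0
    have h1 : q ≤ Real.sin θ := by
      rw [← hsin1]
      exact Real.strictMonoOn_sin.monotoneOn ⟨by linarith [Real.pi_pos], hθ2.le⟩
        ⟨by linarith [hθ.1, Real.pi_pos], hθ.2⟩ hθ.1
    have h2 : t0 ≤ Real.exp μ * Real.sin θ ^ 2 := by
      have h3 : q ^ 2 ≤ Real.sin θ ^ 2 := pow_le_pow_left₀ hq0.le h1 2
      rw [hqs, div_le_iff₀ hm] at h3
      linarith
    have h4 : Real.exp μ * Real.sin θ ^ 2 ≤ Real.exp μ := by
      have := (sin_sq_le θ).2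
      nlinarith
    have h5 := AA_diff_le (n := n) hα hD ht0 h h2 h4
    rw [← Gam_key] at h5
    have hB := BB_pos (n := n) (D := D) (Real.exp μ * Real.sin θ ^ 2)
    have h6 : Real.cos θ ^ 2 * Gam n α D (μ, θ) ≤ K * Real.sin θ ^ 2 := by
      have e1 : (Real.exp μ * BB n D (Real.exp μ * Real.sin θ ^ 2)) *
          (Real.cos θ ^ 2 * Gam n α D (μ, θ)) ≤
          (Real.exp μ * BB n D (Real.exp μ * Real.sin θ ^ 2)) * (K * Real.sin θ ^ 2) := by
        have e2 : (Real.exp μ * BB n D (Real.exp μ * Real.sin θ ^ 2)) *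
          (Real.cos θ ^ 2 * Gam n α D (μ, θ)) = Real.exp μ * Real.cos θ ^ 2 * Gam n α D (μ, θ) *
            BB n D (Real.exp μ * Real.sin θ ^ 2) := by ring
        have e3 : (Real.exp μ * BB n D (Real.exp μ * Real.sin θ ^ 2)) * (K * Real.sin θ ^ 2) =
          2 * α / (D * (n + 1)) * (Real.exp μ * Real.sin θ ^ 2 *
            BB n D (Real.exp μ * Real.sin θ ^ 2)) := by
          rw [hK]
          ring
        rw [e2, e3]
        exact h5
      exact le_of_mul_le_mul_left e1 (by positivity)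
    have h7 : Real.cos θ * gg n α D μ θ ≤ Real.sqrt K * Real.sin θ := by
      apply abs_le_of_sq_le_sq' _ (by positivity) |>.2
      rw [mul_pow, mul_pow, gg_sq hα, Real.sq_sqrt hK0.le]
      exact h6
    rw [← one_div (gg n α D μ θ), le_div_iff₀ hg]
    have h8 : (Real.sqrt K)⁻¹ * (Real.cos θ / Real.sin θ) * gg n α D μ θ =
        (Real.cos θ * gg n α D μ θ) / (Real.sqrt K * Real.sin θ) := by
      field_simp
    rw [h8, div_le_one (by positivity)]
    exact h7
  have hsK := Real.sqrt_pos.2 hK0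
  -- the integral of the lower bound
  have hF : ∀ θ ∈ uIcc θ1 (Real.pi / 2), HasDerivAt (fun θ => (Real.sqrt K)⁻¹ * Real.log (Real.sin θ))
      ((Real.sqrt K)⁻¹ * (Real.cos θ / Real.sin θ)) θ := by
    intro θ hθ
    rw [uIcc_of_le hθ2.le] at hθ
    have hS := hsinpos θ hθ
    exact ((Real.hasDerivAt_sin θ).log hS.ne').const_mul _
  have hcont : ContinuousOn (fun θ => (Real.sqrt K)⁻¹ * (Real.cos θ / Real.sin θ))
      (uIcc θ1 (Real.pi / 2)) := by
    rw [uIcc_of_le hθ2.le]
    apply ContinuousOn.mul continuousOn_const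
    exact Real.continuous_cos.continuousOn.div Real.continuous_sin.continuousOn
      (fun θ hθ => (hsinpos θ hθ).ne')
  have hI1 : IntervalIntegrable (fun θ => (Real.sqrt K)⁻¹ * (Real.cos θ / Real.sin θ)) volume θ1
      (Real.pi / 2) := hcont.intervalIntegrable
  have hFTC := intervalIntegral.integral_eq_sub_of_hasDerivAt hF hI1
  have hgi := gg_inv_continuous (n := n) (D := D) hα μ
  have h10 : ∫ θ in θ1..(Real.pi / 2), (Real.sqrt K)⁻¹ * (Real.cos θ / Real.sin θ) ≤
      ∫ θ in θ1..(Real.pi / 2), (gg n α D μ θ)⁻¹ :=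
    intervalIntegral.integral_mono_on hθ2.le hI1 (hgi.intervalIntegrable _ _) hpt
  have h11 : 0 ≤ ∫ θ in (0 : ℝ)..θ1, (gg n α D μ θ)⁻¹ :=
    intervalIntegral.integral_nonneg hθ0.le (fun θ _ => (inv_pos.2 (gg_pos hα μ θ)).le)
  have h12 : (∫ θ in (0 : ℝ)..θ1, (gg n α D μ θ)⁻¹) + ∫ θ in θ1..(Real.pi / 2), (gg n α D μ θ)⁻¹ =
      ∫ θ in (0 : ℝ)..(Real.pi / 2), (gg n α D μ θ)⁻¹ :=
    intervalIntegral.integral_add_adjacent_intervals (hgi.intervalIntegrable _ _)
      (hgi.intervalIntegrable _ _)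
  rw [Per_eq_interval hα μ]
  rw [hFTC] at h10
  rw [Real.sin_pi_div_two, Real.log_one, mul_zero, hsin1] at h10
  have h13 : Real.log q = (Real.log t0 - μ) / 2 := by
    rw [hq, Real.log_sqrt (by positivity), Real.log_div ht0.ne' hm.ne', Real.log_exp]
  rw [h13] at h10
  have h14 : 2 / Real.sqrt K * (μ - Real.log t0) =
      4 * (0 - (Real.sqrt K)⁻¹ * ((Real.log t0 - μ) / 2)) := by
    field_simp
    ring
  rw [h14]
  linarith

theorem Per_atTop (hα : 0 < α) (hD : 0 < D) : Tendsto (Per n α D) atTop atTop := by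
  obtain ⟨t0, ht0, h⟩ := exists_t0 hD n
  have hK0 : 0 < 2 * α / (D * (n + 1)) := by positivity
  have hsK := Real.sqrt_pos.2 hK0
  have h1 : Tendsto (fun μ : ℝ => 2 / Real.sqrt (2 * α / (D * (n + 1))) * (μ - Real.log t0))
      atTop atTop := by
    apply Tendsto.const_mul_atTop (by positivity)
    exact tendsto_atTop_add_const_right _ _ tendsto_id
  apply tendsto_atTop_mono' atTop _ h1
  filter_upwards [eventually_gt_atTop (Real.log t0)] with μ hμ
  exact Per_ge_log hα hD ht0 h hμ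

theorem exists_crit (hα : 0 < α) (hD : 0 < D) : ∃ μ, deriv (Per n α D) μ = 0 := by
  have hc : Continuous (Per n α D) := (Per_contDiff hα).continuous
  obtain ⟨μ, hμ⟩ := hc.exists_forall_le (by
    rw [cocompact_eq_atBot_atTop]
    exact (Per_atBot hα).sup (Per_atTop hα hD))
  refine ⟨μ, ?_⟩
  have : IsLocalMin (Per n α D) μ := Filter.Eventually.of_forall hμ
  exact this.deriv_eq_zero

/-- for `D > 0` there is exactly one critical period -/
theorem critOrbits_eq_one (hα : 0 < α) (hD : 0 < D) : (critOrbits (VV n α D)).encard = 1 := by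
  apply le_antisymm (critOrbits_le hα)
  obtain ⟨μ, hμ⟩ := exists_crit (n := n) hα hD
  apply one_le_critOrbits hα hμ
  intro ν hν h0
  exact hν (Per_unique hα h0 hμ)

end Pool.Agent.Helper10.CritPer
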