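import Pool.Agent.Helper10.CritPer.Neg
import Pool.Agent.Helper10.CritPer.Class2
import Pool.Agent.Helper10.CritPer.Conj

/-!
`N(0,1) = N(1,0) = 1`, with the exact number of critical periods of every centre of the family
`x' = P_1`, `y' = Q_3`, and of the systems `x' = a y`, `y' = b x^(2l+1) + c x^(2l-1) y^2`.
-/

open Set Filter Topology Metric MeasureTheory

namespace Pool.Agent.Helper10.CritPer

theorem field_eq_of_support {n : ℕ} {a b : ℕ → ℝ} (ha : a 0 = 0)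
    (hb : ∀ j, j ≤ 2 * (n + 1) + 1 → j ≠ 0 → j ≠ 2 → b j = 0) (z : ℝ × ℝ) :
    field 0 (n + 1) a b z =
      (a 1 * z.2, b 0 * z.1 ^ (2 * n + 3) + b 2 * z.1 ^ (2 * n + 1) * z.2 ^ 2) := by
  unfold field
  apply Prod.ext
  · simp [form, ha, Finset.sum_range_succ]
  · simp only [form]
    rw [show 2 * (n + 1) + 1 + 1 = 2 * n + 1 + 1 + 1 + 1 by ring, Finset.sum_range_succ',
      Finset.sum_range_succ', Finset.sum_range_succ']
    rw [Finset.sum_eq_zero]
    · have h1 : 2 * (n + 1) + 1 - (0 + 1 + 1) = 2 * n + 1 := by omega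
      have h2 : 2 * (n + 1) + 1 - 0 = 2 * n + 3 := by omega
      have h3 : b (0 + 1) = 0 := hb _ (by omega) (by omega) (by omega)
      rw [h1, h2, h3]
      norm_num
      ring
    · intro j hj
      have hj' := Finset.mem_range.1 hj
      rw [hb (j + 1 + 1 + 1) (by omega) (by omega) (by omega)]
      simp

/-- scaling of the second coordinate -/
noncomputable def scal (c : ℝ) (hc : c ≠ 0) : (ℝ × ℝ) ≃L[ℝ] (ℝ × ℝ) :=
  (ContinuousLinearEquiv.refl ℝ ℝ).prodCongr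
    (ContinuousLinearEquiv.smulLeft (Units.mk0 c hc))

theorem scal_apply (c : ℝ) (hc : c ≠ 0) (z : ℝ × ℝ) : scal c hc z = (z.1, c * z.2) := rfl

theorem scal_symm_apply (c : ℝ) (hc : c ≠ 0) (z : ℝ × ℝ) :
    (scal c hc).symm z = (z.1, c⁻¹ * z.2) := by
  rw [ContinuousLinearEquiv.symm_apply_eq, scal_apply]
  simp [hc]

theorem conj_scal {n : ℕ} {a b : ℕ → ℝ} (ha : a 0 = 0) (ha1 : a 1 ≠ 0)
    (hb : ∀ j, j ≤ 2 * (n + 1) + 1 → j ≠ 0 → j ≠ 2 → b j = 0) :
    conj (scal (a 1) ha1) (field 0 (n + 1) a b) =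
      VV n (-(a 1 * b 0)) (b 2 / a 1 / (n + 1)) := by
  funext z
  have hn : (n : ℝ) + 1 ≠ 0 := by positivity
  unfold conj
  rw [scal_symm_apply, scal_apply, field_eq_of_support ha hb]
  unfold VV
  apply Prod.ext
  · simp only
    field_simp
  · simp only
    field_simp

theorem special {n : ℕ} {a b : ℕ → ℝ} (ha : a 0 = 0) (hab : a 1 * b 0 < 0)
    (hb : ∀ j, j ≤ 2 * (n + 1) + 1 → j ≠ 0 → j ≠ 2 → b j = 0) :
    IsCenter (field 0 (n + 1) a b) ∧
      (critOrbits (field 0 (n + 1) a b)).encard = if 0 < a 1 * b 2 then 1 else 0 := by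
  have ha1 : a 1 ≠ 0 := by
    intro h
    rw [h, zero_mul] at hab
    exact lt_irrefl _ hab
  have hα : 0 < -(a 1 * b 0) := by linarith
  have h1 := conj_scal ha ha1 hb
  have hc : IsCenter (field 0 (n + 1) a b) := by
    have h2 := (isCenter_VV (n := n) (D := b 2 / a 1 / (n + 1)) hα).conj (scal (a 1) ha1).symm
    rw [← h1, conj_symm_conj] at h2
    exact h2
  refine ⟨hc, ?_⟩
  rw [← encard_conj (scal (a 1) ha1) hc, h1]
  have e : b 2 / a 1 / ((n : ℝ) + 1) = (a 1 * b 2) / (a 1 ^ 2 * (n + 1)) := by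
    field_simp
  have hpos : 0 < a 1 ^ 2 * ((n : ℝ) + 1) := by positivity
  split_ifs with h
  · apply critOrbits_eq_one hα
    rw [e]
    exact div_pos h hpos
  · apply critOrbits_eq_zero hα
    rw [e]
    exact div_nonpos_of_nonpos_of_nonneg (not_lt.1 h) hpos.le

theorem support01 {b : ℕ → ℝ} (h1 : b 1 = 0) (h3 : b 3 = 0) :
    ∀ j, j ≤ 2 * (0 + 1) + 1 → j ≠ 0 → j ≠ 2 → b j = 0 := by
  intro j hj h0 h2
  have : j = 1 ∨ j = 3 := by omega
  rcases this with rfl | rfl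
  · exact h1
  · exact h3

theorem center01_iff (a b : ℕ → ℝ) :
    IsCenter (field 0 1 a b) ↔ a 0 = 0 ∧ a 1 * b 0 < 0 ∧ b 1 = 0 ∧ b 3 = 0 := by
  constructor
  · intro h
    exact (center01 h).2
  · rintro ⟨h0, h1, h2, h3⟩
    exact (special (n := 0) h0 h1 (support01 h2 h3)).1

theorem count01 {a b : ℕ → ℝ} (h : IsCenter (field 0 1 a b)) :
    (critOrbits (field 0 1 a b)).encard = if 0 < a 1 * b 2 then 1 else 0 := by
  obtain ⟨h0, h1, h2, h3⟩ := (center01 h).2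
  exact (special (n := 0) h0 h1 (support01 h2 h3)).2

theorem N_le_one : N 0 1 ≤ 1 := by
  refine iSup_le fun a => iSup_le fun b => iSup_le fun h => ?_
  rw [count01 h]
  split_ifs <;> simp

/-- the coefficients `(0, 1, 0, …)` -/
def aa (j : ℕ) : ℝ := if j = 1 then 1 else 0

/-- the coefficients `(-1, 0, 1, 0, …)` -/
def bb (j : ℕ) : ℝ := if j = 0 then -1 else if j = 2 then 1 else 0

theorem one_le_N (n : ℕ) : 1 ≤ N 0 (n + 1) := by
  obtain ⟨h1, h2⟩ := special (n := n) (a := aa) (b := bb) (by simp [aa]) (by simp [aa, bb])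
    (fun j _ h0 h2 => by simp [bb, h0, h2])
  have h3 : 0 < aa 1 * bb 2 := by simp [aa, bb]
  rw [if_pos h3] at h2
  calc (1 : ℕ∞) = (critOrbits (field 0 (n + 1) aa bb)).encard := h2.symm
    _ ≤ N 0 (n + 1) := le_iSup_of_le aa (le_iSup_of_le bb (le_iSup_of_le h1 le_rfl))

theorem form_swap (n : ℕ) (c : ℕ → ℝ) (z : ℝ × ℝ) :
    form n c z.swap = form n (fun j => c (n - j)) z := by
  unfold form
  rw [← Finset.sum_range_reflect]
  apply Finset.sum_congr rfl
  intro j hj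
  have hj' : j ≤ n := Nat.lt_succ_iff.1 (Finset.mem_range.1 hj)
  have h1 : n + 1 - 1 - j = n - j := by omega
  have h2 : n - (n - j) = j := by omega
  rw [h1, h2]
  simp only [Prod.fst_swap, Prod.snd_swap]
  ring

theorem conj_swap (k l : ℕ) (a b : ℕ → ℝ) :
    conj (ContinuousLinearEquiv.prodComm ℝ ℝ ℝ) (field k l a b) =
      field l k (fun j => b (2 * l + 1 - j)) (fun j => a (2 * k + 1 - j)) := by
  funext z
  have h1 : (ContinuousLinearEquiv.prodComm ℝ ℝ ℝ).symm z = z.swap := rfl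
  have h2 : ∀ w : ℝ × ℝ, (ContinuousLinearEquiv.prodComm ℝ ℝ ℝ) w = w.swap := fun _ => rfl
  unfold conj
  rw [h1, h2]
  unfold field
  simp only [Prod.swap_prod_mk, form_swap]

theorem N_le_swap (k l : ℕ) : N k l ≤ N l k := by
  refine iSup_le fun a => iSup_le fun b => iSup_le fun h => ?_
  rw [← encard_conj (ContinuousLinearEquiv.prodComm ℝ ℝ ℝ) h]
  have h1 := h.conj (ContinuousLinearEquiv.prodComm ℝ ℝ ℝ)
  rw [conj_swap] at h1 ⊢
  exact le_iSup_of_le _ (le_iSup_of_le _ (le_iSup_of_le h1 le_rfl))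

theorem N_comm (k l : ℕ) : N k l = N l k := le_antisymm (N_le_swap k l) (N_le_swap l k)

/-- **Main theorem** -/
theorem main : N 0 1 = 1 ∧ N 1 0 = 1 ∧
    (∀ a b : ℕ → ℝ,
      IsCenter (field 0 1 a b) ↔ a 0 = 0 ∧ a 1 * b 0 < 0 ∧ b 1 = 0 ∧ b 3 = 0) ∧
    ∀ l : ℕ, 1 ≤ l → ∀ a b : ℕ → ℝ, a 0 = 0 → a 1 * b 0 < 0 →
      (∀ j, j ≤ 2 * l + 1 → j ≠ 0 → j ≠ 2 → b j = 0) →
      IsCenter (field 0 l a b) ∧
        (critOrbits (field 0 l a b)).encard = if 0 < a 1 * b 2 then 1 else 0 := by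
  have h1 : N 0 1 = 1 := le_antisymm N_le_one (one_le_N 0)
  refine ⟨h1, (N_comm 1 0).trans h1, center01_iff, ?_⟩
  intro l hl a b ha hab hb
  obtain ⟨n, rfl⟩ := Nat.exists_eq_add_of_le' hl
  exact special ha hab hb

end Pool.Agent.Helper10.CritPer
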