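import Pool.Agent.Helper10.CritPer.Lim

/-!
For `D ≤ 0` the period function is strictly decreasing, so there is no critical period.
-/

open Set Filter Topology Metric MeasureTheory

namespace Pool.Agent.Helper10.CritPer

variable {n : ℕ} {α D : ℝ}

theorem GamI_mono (hα : 0 < α) (hD : D ≤ 0) {μ ν : ℝ} (h : μ ≤ ν) (θ : ℝ) {t : ℝ}
    (ht : t ∈ Icc (0 : ℝ) 1) : GamI n α D (μ, θ) t ≤ GamI n α D (ν, θ) t := by
  unfold GamI
  have h1 : Real.exp μ ^ (n + 1) ≤ Real.exp ν ^ (n + 1) :=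
    pow_le_pow_left₀ (Real.exp_pos μ).le (Real.exp_le_exp.2 h) _
  have h2 : 0 ≤ t * Real.cos θ ^ 2 := mul_nonneg ht.1 (sq_nonneg _)
  have h3 : (Real.sin θ ^ 2) ^ (n + 1) ≤ (Real.sin θ ^ 2 + t * Real.cos θ ^ 2) ^ (n + 1) :=
    pow_le_pow_left₀ (sq_nonneg _) (by linarith) _
  have h4 : 0 ≤ (Real.sin θ ^ 2 + t * Real.cos θ ^ 2) ^ (n + 1) := by positivity
  simp only
  apply mul_le_mul
  · apply mul_le_mul_of_nonneg_right _ h4
    exact mul_le_mul_of_nonneg_left h1 hα.le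
  · apply Real.exp_le_exp.2
    apply mul_le_mul_of_nonneg_right _ (by linarith)
    exact mul_le_mul_of_nonneg_left h1 (by linarith)
  · exact (Real.exp_pos _).le
  · positivity

theorem GamI_continuous (z : ℝ × ℝ) : Continuous (GamI n α D z) := by
  unfold GamI
  fun_prop

theorem Gam_mono (hα : 0 < α) (hD : D ≤ 0) {μ ν : ℝ} (h : μ ≤ ν) (θ : ℝ) :
    Gam n α D (μ, θ) ≤ Gam n α D (ν, θ) := by
  unfold Gam
  exact intervalIntegral.integral_mono_on zero_le_one
    ((GamI_continuous _).intervalIntegrable _ _) ((GamI_continuous _).intervalIntegrable _ _)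
    (fun t ht => GamI_mono hα hD h θ ht)

theorem Per_antitone (hα : 0 < α) (hD : D ≤ 0) {μ ν : ℝ} (h : μ ≤ ν) :
    Per n α D ν ≤ Per n α D μ := by
  unfold Per
  apply intervalIntegral.integral_mono_on Real.two_pi_pos.le
    ((gg_inv_continuous hα ν).intervalIntegrable _ _)
    ((gg_inv_continuous hα μ).intervalIntegrable _ _)
  intro θ _
  apply inv_anti₀ (gg_pos hα μ θ)
  exact Real.sqrt_le_sqrt (Gam_mono hα hD h θ)

theorem no_crit (hα : 0 < α) (hD : D ≤ 0) (μ : ℝ) : deriv (Per n α D) μ ≠ 0 := by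
  intro h1
  have hlt : μ < μ + 1 := by linarith
  have hz : zz n α D (Real.exp μ) < zz n α D (Real.exp (μ + 1)) :=
    zz_strictMonoOn hα (Real.exp_pos μ).le (Real.exp_pos _).le (Real.exp_lt_exp.2 hlt)
  have a1 := (GG_strictConvexOn hα).lt_slope_of_hasDerivAt (mem_SS μ) (mem_SS (μ + 1)) hz
    (GG_deriv hα h1)
  rw [slope_def_field, lt_div_iff₀ (by linarith), zero_mul] at a1
  have a2 := Per_antitone (n := n) hα hD hlt.le
  rw [Per_eq_GG hα, Per_eq_GG hα] at a2
  linarith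

/-- for `D ≤ 0` there is no critical period -/
theorem critOrbits_eq_zero (hα : 0 < α) (hD : D ≤ 0) : (critOrbits (VV n α D)).encard = 0 := by
  rw [encard_eq_zero, eq_empty_iff_forall_notMem]
  rintro O ⟨p, hp, hp0, rfl, hf, -⟩
  obtain ⟨μ, hμ⟩ := exists_mu hα (annulus_subset hα hp) hp0
  exact no_crit hα hD μ ((period_fderiv hα hp0 hμ).1 hf)

end Pool.Agent.Helper10.CritPer
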