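import Mathlib

/-!
Integrals with a parameter of continuously differentiable functions.
-/

open Set Filter Topology Metric MeasureTheory

namespace Pool.Agent.Helper10.CritPer

variable {E : Type*} [NormedAddCommGroup E] [NormedSpace ℝ E] [ProperSpace E]

/-- an integral over a compact interval of a `C^1` function is a `C^1` function of the parameter -/
theorem contDiff_param {F : E → ℝ → ℝ} (hF : ContDiff ℝ 1 (Function.uncurry F)) (a b : ℝ) :
    ContDiff ℝ 1 (fun z => ∫ t in a..b, F z t) := by
  classical
  set F' : E → ℝ → E →L[ℝ] ℝ := fun z t =>
    (fderiv ℝ (Function.uncurry F) (z, t)).comp (ContinuousLinearMap.inl ℝ E ℝ) with hF'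
  have hcont : Continuous (Function.uncurry F) := hF.continuous
  have hcont' : Continuous (Function.uncurry F') := by
    have h1 : Continuous (fderiv ℝ (Function.uncurry F)) := hF.continuous_fderiv (by norm_num)
    have h2 : Continuous fun z : E × ℝ =>
        (fderiv ℝ (Function.uncurry F) z).comp (ContinuousLinearMap.inl ℝ E ℝ) := by
      fun_prop
    exact h2
  have hder : ∀ z t, HasFDerivAt (fun z => F z t) (F' z t) z := by
    intro z t
    have h1 : HasFDerivAt (Function.uncurry F) (fderiv ℝ (Function.uncurry F) (z, t)) (z, t) :=
      (hF.differentiable (by norm_num) (z, t)).hasFDerivAt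
    have h2 : HasFDerivAt (fun z : E => (z, t)) (ContinuousLinearMap.inl ℝ E ℝ) z :=
      hasFDerivAt_prodMk_left z t
    exact h1.comp z h2
  have hmain : ∀ z0, HasFDerivAt (fun z => ∫ t in a..b, F z t) (∫ t in a..b, F' z0 t) z0 := by
    intro z0
    have hcomp : IsCompact (closedBall z0 1 ×ˢ uIcc a b) :=
      (isCompact_closedBall z0 1).prod isCompact_uIcc
    obtain ⟨C, hC⟩ := hcomp.exists_bound_of_continuousOn (f := Function.uncurry F')
      hcont'.continuousOn
    apply intervalIntegral.hasFDerivAt_integral_of_dominated_of_fderiv_le
      (s := closedBall z0 1) (bound := fun _ => C) (F' := F') (closedBall_mem_nhds z0 one_pos)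
    · apply Filter.Eventually.of_forall
      intro z
      have : Continuous (F z) := hcont.comp (by fun_prop : Continuous fun t : ℝ => (z, t))
      exact this.aestronglyMeasurable
    · have : Continuous (F z0) := hcont.comp (by fun_prop : Continuous fun t : ℝ => (z0, t))
      exact this.intervalIntegrable a b
    · have : Continuous (F' z0) := hcont'.comp (by fun_prop : Continuous fun t : ℝ => (z0, t))
      exact this.aestronglyMeasurable
    · apply Filter.Eventually.of_forall
      intro t ht z hz
      exact hC (z, t) ⟨hz, uIoc_subset_uIcc ht⟩
    · exact intervalIntegrable_const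
    · apply Filter.Eventually.of_forall
      intro t _ z _
      exact hder z t
  rw [contDiff_one_iff_fderiv]
  refine ⟨fun z => (hmain z).differentiableAt, ?_⟩
  have h3 : fderiv ℝ (fun z => ∫ t in a..b, F z t) = fun z => ∫ t in a..b, F' z t :=
    funext fun z => (hmain z).fderiv
  rw [h3]
  exact intervalIntegral.continuous_parametric_intervalIntegral_of_continuous' hcont' a b

end Pool.Agent.Helper10.CritPer
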