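import Pool.Agent.Helper10.CritPer.Basic

/-!
Near a centre there are periodic orbits in every neighbourhood.
-/

open Set Filter Topology Metric

namespace Pool.Agent.Helper10.CritPer

variable {V : ℝ × ℝ → ℝ × ℝ} {γ δ : ℝ → ℝ × ℝ} {p q : ℝ × ℝ} {T : ℝ}

theorem isPreconnected_far {R : ℝ} (hR : 0 ≤ R) : IsPreconnected {x : ℝ × ℝ | R < ‖x‖} := by
  have h2 : 1 < Module.rank ℝ (ℝ × ℝ) := by
    rw [rank_prod']
    simp only [Module.rank_self]
    exact_mod_cast (by norm_num : (1 : ℕ) < 1 + 1)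
  have h1 : IsPreconnected ((Ioi R) ×ˢ (sphere (0 : ℝ × ℝ) 1)) :=
    isPreconnected_Ioi.prod (isPreconnected_sphere h2 0 1)
  have h3 : {x : ℝ × ℝ | R < ‖x‖} = (fun z : ℝ × (ℝ × ℝ) => z.1 • z.2) ''
      ((Ioi R) ×ˢ (sphere (0 : ℝ × ℝ) 1)) := by
    ext x
    constructor
    · intro hx
      have hx' : R < ‖x‖ := hx
      have hx0 : 0 < ‖x‖ := lt_of_le_of_lt hR hx'
      refine ⟨(‖x‖, ‖x‖⁻¹ • x), ⟨hx', ?_⟩, ?_⟩
      · rw [mem_sphere_zero_iff_norm, norm_smul, norm_inv, norm_norm]
        exact inv_mul_cancel₀ hx0.ne'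
      · simp only [smul_smul]
        rw [mul_inv_cancel₀ hx0.ne', one_smul]
    · rintro ⟨⟨t, u⟩, ⟨ht, hu⟩, rfl⟩
      have ht' : R < t := ht
      rw [mem_sphere_zero_iff_norm] at hu
      have hu' : ‖u‖ = 1 := hu
      change R < ‖t • u‖
      rw [norm_smul, hu', mul_one, Real.norm_eq_abs]
      exact lt_of_lt_of_le ht' (le_abs_self t)
  rw [h3]
  exact h1.image _ (by fun_prop)

/-- the inside of the orbit of `p` -/
def inside (V : ℝ × ℝ → ℝ × ℝ) (p : ℝ × ℝ) : Set (ℝ × ℝ) := connectedComponentIn (orbit V p)ᶜ 0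

theorem inside_subset : inside V p ⊆ (orbit V p)ᶜ := connectedComponentIn_subset _ _

theorem zero_mem_inside (hp : p ∈ surr V) : (0 : ℝ × ℝ) ∈ inside V p :=
  mem_connectedComponentIn hp.2.2.1

theorem isOpen_inside (hV : ContDiff ℝ 1 V) (hp : p ∈ surr V) : IsOpen (inside V p) :=
  (orbit_isCompact hV hp.2.1).isClosed.isOpen_compl.connectedComponentIn

theorem orbit_disjoint (hV : ContDiff ℝ 1 V) (hq : ∃ T, IsPeriod V q T) (h : q ∉ orbit V p) :
    orbit V q ⊆ (orbit V p)ᶜ := by
  intro z hz hz'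
  apply h
  have h1 := orbit_eq_of_mem hV hz
  have h2 := orbit_eq_of_mem hV hz'
  rw [← h2, h1]
  exact mem_orbit_self hq

/-- the orbit of a point inside lies inside -/
theorem orbit_subset_inside (hV : ContDiff ℝ 1 V) (hq : q ∈ surr V)
    (h : q ∈ inside V p) : orbit V q ⊆ inside V p := by
  have h1 : orbit V q ⊆ (orbit V p)ᶜ := orbit_disjoint hV hq.2.1 (inside_subset h)
  have h2 := (orbit_isConnected hV hq.2.1).isPreconnected.subset_connectedComponentIn
    (mem_orbit_self hq.2.1) h1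
  rw [← connectedComponentIn_eq h] at h2
  exact h2

/-- two orbits cannot lie inside each other -/
theorem not_both (hV : ContDiff ℝ 1 V) (hp : p ∈ surr V) (hq : q ∈ surr V)
    (h1 : orbit V q ⊆ inside V p) (h2 : orbit V p ⊆ inside V q) : False := by
  have hb : Bornology.IsBounded (orbit V p ∪ (inside V p ∪ inside V q)) :=
    (orbit_isCompact hV hp.2.1).isBounded.union (hp.2.2.2.union hq.2.2.2)
  obtain ⟨R, hR0, hR⟩ := hb.subset_closedBall_lt 0 (0 : ℝ × ℝ)
  set x0 : ℝ × ℝ := (R + 1, 0) with hx0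
  have hx0n : R < ‖x0‖ := by
    rw [hx0, Prod.norm_def]
    apply lt_max_of_lt_left
    rw [Real.norm_eq_abs]
    exact lt_of_lt_of_le (lt_add_one R) (le_abs_self _)
  have hfar : ∀ z, z ∈ orbit V p ∪ (inside V p ∪ inside V q) → ¬ R < ‖z‖ := by
    intro z hz
    have := hR hz
    rw [mem_closedBall_zero_iff] at this
    exact not_lt.2 this
  have hx0O : x0 ∈ (orbit V p)ᶜ := fun h => hfar x0 (Or.inl h) hx0n
  set E := connectedComponentIn (orbit V p)ᶜ x0 with hE
  have hx0E : x0 ∈ E := mem_connectedComponentIn hx0O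
  have hEO : E ⊆ (orbit V p)ᶜ := connectedComponentIn_subset _ _
  have hEW : ∀ z ∈ E, z ∉ inside V p := by
    intro z hz hz'
    have e1 := connectedComponentIn_eq hz
    have e2 := connectedComponentIn_eq hz'
    have : x0 ∈ inside V p := by
      unfold inside
      rw [e2, ← e1]
      exact hx0E
    exact hfar x0 (Or.inr (Or.inl this)) hx0n
  have hEopen : IsOpen E :=
    (orbit_isCompact hV hp.2.1).isClosed.isOpen_compl.connectedComponentIn
  have hEpre : IsPreconnected E := isPreconnected_connectedComponentIn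
  -- the closure of E meets the orbit
  obtain ⟨y, hyE, hyO⟩ : ∃ y, y ∈ closure E ∧ y ∈ orbit V p := by
    by_contra hcon
    push Not at hcon
    have e1 : closure E ⊆ (orbit V p)ᶜ := fun z hz hz' => hcon z hz hz'
    have e2 : closure E ⊆ E :=
      hEpre.closure.subset_connectedComponentIn (subset_closure hx0E) e1
    have e3 : IsClosed E := closure_subset_iff_isClosed.1 e2
    have e4 := IsClopen.eq_univ ⟨e3, hEopen⟩ ⟨x0, hx0E⟩
    have e5 : p ∈ E := by rw [e4]; trivial
    exact hEO e5 (mem_orbit_self hp.2.1)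
  have hpre1 : IsPreconnected (insert y E) :=
    hEpre.subset_closure (subset_insert _ _) (insert_subset hyE subset_closure)
  have hpre2 : IsPreconnected (insert y E ∪ orbit V p) :=
    IsPreconnected.union y (mem_insert _ _) hyO hpre1
      (orbit_isConnected hV hp.2.1).isPreconnected
  have hsub : insert y E ∪ orbit V p ⊆ (orbit V q)ᶜ := by
    rintro z ((rfl | hz) | hz) hzq
    · exact inside_subset (h2 hyO) hzq
    · exact hEW z hz (h1 hzq)
    · exact inside_subset (h2 hz) hzq
  have hy : y ∈ inside V q := h2 hyO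
  have h3 := hpre2.subset_connectedComponentIn (Or.inl (mem_insert y E)) hsub
  rw [← connectedComponentIn_eq hy] at h3
  have h4 : x0 ∈ inside V q := h3 (Or.inl (mem_insert_of_mem _ hx0E))
  exact hfar x0 (Or.inr (Or.inr h4)) hx0n

/-- a centre has periodic orbits in every neighbourhood -/
theorem exists_small (hV : ContDiff ℝ 1 V) (hc : IsCenter V) {δ : ℝ} (hδ : 0 < δ) :
    ∃ p ∈ surr V, orbit V p ⊆ ball 0 δ := by
  obtain ⟨-, hc⟩ := hc
  rw [eventually_nhdsWithin_iff, Metric.eventually_nhds_iff] at hc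
  obtain ⟨ε, hε, hc⟩ := hc
  have hc' : ∀ z : ℝ × ℝ, ‖z‖ < ε → z ≠ 0 → z ∈ surr V := by
    intro z hz hz0
    exact hc (by rwa [dist_zero_right]) hz0
  by_contra hcon
  push Not at hcon
  set d := min δ (ε / 2) with hd
  have hd0 : 0 < d := lt_min hδ (by linarith)
  have hdε : d < ε := lt_of_le_of_lt (min_le_right _ _) (by linarith)
  -- norm of points on the axis
  have hnorm : ∀ r : ℝ, 0 < r → ‖((r, 0) : ℝ × ℝ)‖ = r := by
    intro r hr
    rw [Prod.norm_def]
    simp [abs_of_pos hr, hr.le]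
  have hne : ∀ r : ℝ, 0 < r → ((r, 0) : ℝ × ℝ) ≠ 0 := by
    intro r hr h
    have := congrArg Prod.fst h
    simp only [Prod.fst_zero] at this
    exact hr.ne' this
  -- the orbits of the points near the origin meet the sphere
  have hz : ∀ n : ℕ, ∃ z ∈ orbit V ((d / (n + 2), 0) : ℝ × ℝ), ‖z‖ = d := by
    intro n
    have hn : 0 < d / ((n : ℝ) + 2) := by positivity
    have hnd : d / ((n : ℝ) + 2) < d := by
      apply div_lt_self hd0
      have : (0 : ℝ) ≤ n := Nat.cast_nonneg n
      linarith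
    have hs : ((d / (n + 2), 0) : ℝ × ℝ) ∈ surr V :=
      hc' _ (by rw [hnorm _ hn]; linarith) (hne _ hn)
    have h1 := hcon _ hs
    obtain ⟨z1, hz1, hz1'⟩ := not_subset.1 h1
    rw [mem_ball_zero_iff, not_lt] at hz1'
    have hpre : IsPreconnected (norm '' orbit V ((d / (n + 2), 0) : ℝ × ℝ)) :=
      (orbit_isConnected hV hs.2.1).isPreconnected.image _ continuous_norm.continuousOn
    have h2 : d ∈ norm '' orbit V ((d / (n + 2), 0) : ℝ × ℝ) := by
      apply hpre.Icc_subset (a := d / (n + 2)) (b := ‖z1‖)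
      · exact ⟨_, mem_orbit_self hs.2.1, hnorm _ hn⟩
      · exact ⟨z1, hz1, rfl⟩
      · exact ⟨hnd.le, le_trans (min_le_left _ _) hz1'⟩
    obtain ⟨z, hz, hz'⟩ := h2
    exact ⟨z, hz, hz'⟩
  choose z hzO hzn using hz
  obtain ⟨a, ha, φ, hφ, hlim⟩ := (isCompact_sphere (0 : ℝ × ℝ) d).tendsto_subseq
    (x := z) (fun n => by rw [mem_sphere_zero_iff_norm]; exact hzn n)
  rw [mem_sphere_zero_iff_norm] at ha
  have hasurr : a ∈ surr V := hc' a (by rw [ha]; exact hdε) (by
    intro h
    rw [h, norm_zero] at ha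
    exact hd0.ne ha)
  -- a point inside the limit orbit
  obtain ⟨r, hr, hrW⟩ := Metric.isOpen_iff.1 (isOpen_inside hV hasurr) 0 (zero_mem_inside hasurr)
  set s := min (r / 2) (ε / 2) with hs
  have hs0 : 0 < s := lt_min (by linarith) (by linarith)
  set w : ℝ × ℝ := (s, 0) with hw
  have hwn : ‖w‖ = s := hnorm s hs0
  have hwW : w ∈ inside V a := by
    apply hrW
    rw [mem_ball_zero_iff, hwn]
    exact lt_of_le_of_lt (min_le_left _ _) (by linarith)
  have hwsurr : w ∈ surr V := hc' w (by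
    rw [hwn]
    exact lt_of_le_of_lt (min_le_right _ _) (by linarith)) (hne s hs0)
  have h1 : orbit V w ⊆ inside V a := orbit_subset_inside hV hwsurr hwW
  -- the points z (φ n) are inside the orbit of w for large n
  have hWw : IsOpen (inside V w) := isOpen_inside hV hwsurr
  have hlim2 : Tendsto (fun n : ℕ => ((d / ((φ n : ℕ) + 2), 0) : ℝ × ℝ)) atTop (𝓝 0) := by
    have e1 : Tendsto (fun n : ℕ => d / ((φ n : ℝ) + 2)) atTop (𝓝 0) := by
      apply Tendsto.div_atTop tendsto_const_nhds
      apply tendsto_atTop_add_const_right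
      exact tendsto_natCast_atTop_atTop.comp hφ.tendsto_atTop
    have e2 := e1.prodMk_nhds (tendsto_const_nhds (x := (0 : ℝ)))
    exact e2
  have hev : ∀ᶠ n in atTop, z (φ n) ∈ inside V w := by
    filter_upwards [hlim2.eventually (hWw.mem_nhds (zero_mem_inside hwsurr))] with n hn
    have hn0 : 0 < d / (((φ n : ℕ) : ℝ) + 2) := by positivity
    have hnd : d / (((φ n : ℕ) : ℝ) + 2) < d := by
      apply div_lt_self hd0
      have : (0 : ℝ) ≤ ((φ n : ℕ) : ℝ) := Nat.cast_nonneg _
      linarith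
    have hsn : ((d / ((φ n : ℕ) + 2), 0) : ℝ × ℝ) ∈ surr V :=
      hc' _ (by rw [hnorm _ hn0]; linarith) (hne _ hn0)
    exact orbit_subset_inside hV hsn hn (hzO (φ n))
  have hacl : a ∈ closure (inside V w) := mem_closure_of_tendsto hlim hev
  have haO : a ∈ (orbit V w)ᶜ := by
    intro h
    exact inside_subset (h1 h) (mem_orbit_self hasurr.2.1)
  have hains : a ∈ inside V w := by
    have hpre : IsPreconnected (insert a (inside V w)) :=
      isPreconnected_connectedComponentIn.subset_closure (subset_insert _ _)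
        (insert_subset hacl subset_closure)
    have h5 : insert a (inside V w) ⊆ (orbit V w)ᶜ := insert_subset haO inside_subset
    exact hpre.subset_connectedComponentIn (mem_insert_of_mem _ (zero_mem_inside hwsurr)) h5
      (mem_insert _ _)
  have h2 : orbit V a ⊆ inside V w := orbit_subset_inside hV hasurr hains
  exact not_both hV hasurr hwsurr h1 h2

end Pool.Agent.Helper10.CritPer
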