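import Pool.Agent.Helper10.CritPer.Cvx

/-!
The period function of the canonical system has at most one critical point.
-/

open Set Filter Topology Metric MeasureTheory

namespace Pool.Agent.Helper10.CritPer

variable {n : ℕ} {α D : ℝ}

theorem gg_add_pi (μ θ : ℝ) : gg n α D μ (θ + Real.pi) = gg n α D μ θ := by
  unfold gg
  rw [Gam_add_pi]

theorem Per_eq_interval (hα : 0 < α) (μ : ℝ) :
    Per n α D μ = 4 * ∫ θ in (0 : ℝ)..(Real.pi / 2), (gg n α D μ θ)⁻¹ := by
  have hc := gg_inv_continuous (n := n) (D := D) hα μ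
  have hi : ∀ a b : ℝ, IntervalIntegrable (fun φ => (gg n α D μ φ)⁻¹) volume a b :=
    fun a b => hc.intervalIntegrable a b
  have h1 : ∫ θ in (0 : ℝ)..(2 * Real.pi), (gg n α D μ θ)⁻¹ =
      (∫ θ in (0 : ℝ)..Real.pi, (gg n α D μ θ)⁻¹) + ∫ θ in Real.pi..(2 * Real.pi), (gg n α D μ θ)⁻¹ :=
    (intervalIntegral.integral_add_adjacent_intervals (hi _ _) (hi _ _)).symm
  have h2 : ∫ θ in Real.pi..(2 * Real.pi), (gg n α D μ θ)⁻¹ =
      ∫ θ in (0 : ℝ)..Real.pi, (gg n α D μ θ)⁻¹ := by
    have e1 := intervalIntegral.integral_comp_add_right (a := 0) (b := Real.pi)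
      (fun θ => (gg n α D μ θ)⁻¹) Real.pi
    simp only [gg_add_pi] at e1
    rw [e1, zero_add, two_mul]
  have h3 : ∫ θ in (0 : ℝ)..Real.pi, (gg n α D μ θ)⁻¹ =
      (∫ θ in (0 : ℝ)..(Real.pi / 2), (gg n α D μ θ)⁻¹) +
        ∫ θ in (Real.pi / 2)..Real.pi, (gg n α D μ θ)⁻¹ :=
    (intervalIntegral.integral_add_adjacent_intervals (hi _ _) (hi _ _)).symm
  have h4 : ∫ θ in (Real.pi / 2)..Real.pi, (gg n α D μ θ)⁻¹ =
      ∫ θ in (0 : ℝ)..(Real.pi / 2), (gg n α D μ θ)⁻¹ := by
    have e1 := intervalIntegral.integral_comp_sub_left (a := 0) (b := Real.pi / 2)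
      (fun θ => (gg n α D μ θ)⁻¹) Real.pi
    simp only [gg_pi_sub] at e1
    rw [e1, sub_zero]
    congr 1
    ring
  unfold Per tau
  rw [h1, h2, h3, h4]
  ring

theorem Per_eq (hα : 0 < α) (μ : ℝ) :
    Per n α D μ = 4 * ∫ θ in Ioo 0 (Real.pi / 2), (gg n α D μ θ)⁻¹ := by
  rw [Per_eq_interval hα, intervalIntegral.integral_of_le (by positivity),
    integral_Ioc_eq_integral_Ioo]

/-- the new variable -/
noncomputable def UU (n : ℕ) (α D μ θ : ℝ) : ℝ :=
  zz n α D (Real.exp μ * Real.sin θ ^ 2) / zz n α D (Real.exp μ)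

theorem trig_pos {θ : ℝ} (hθ : θ ∈ Ioo 0 (Real.pi / 2)) : 0 < Real.sin θ ∧ 0 < Real.cos θ := by
  constructor
  · exact Real.sin_pos_of_pos_of_lt_pi hθ.1 (by linarith [hθ.2, Real.pi_pos])
  · exact Real.cos_pos_of_mem_Ioo ⟨by linarith [hθ.1, Real.pi_pos], hθ.2⟩

theorem sig_pos {μ θ : ℝ} (hθ : θ ∈ Ioo 0 (Real.pi / 2)) : 0 < Real.exp μ * Real.sin θ ^ 2 := by
  have := (trig_pos hθ).1
  positivity

theorem UU_hasDerivAt (hα : 0 < α) {μ θ : ℝ} (hθ : θ ∈ Ioo 0 (Real.pi / 2)) :
    HasDerivAt (UU n α D μ) (ff n α D (Real.exp μ * Real.sin θ ^ 2) /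
      (2 * zz n α D (Real.exp μ * Real.sin θ ^ 2)) *
      (2 * Real.exp μ * Real.sin θ * Real.cos θ) / zz n α D (Real.exp μ)) θ := by
  have hs : HasDerivAt (fun θ => Real.exp μ * Real.sin θ ^ 2)
      (2 * Real.exp μ * Real.sin θ * Real.cos θ) θ := by
    refine (((Real.hasDerivAt_sin θ).fun_pow 2).const_mul (Real.exp μ)).congr_deriv ?_
    push_cast
    ring
  exact ((zz_hasDerivAt hα (sig_pos hθ)).comp θ hs).div_const _

theorem UU_strictMonoOn (hα : 0 < α) (μ : ℝ) :
    StrictMonoOn (UU n α D μ) (Icc 0 (Real.pi / 2)) := by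
  intro a ha b hb hab
  have hm := zz_pos (n := n) (D := D) hα (Real.exp_pos μ)
  unfold UU
  apply div_lt_div_of_pos_right _ hm
  apply zz_strictMonoOn hα
  · exact (by positivity : 0 ≤ Real.exp μ * Real.sin a ^ 2)
  · exact (by positivity : 0 ≤ Real.exp μ * Real.sin b ^ 2)
  · apply mul_lt_mul_of_pos_left _ (Real.exp_pos μ)
    apply pow_lt_pow_left₀ _ _ (by norm_num)
    · exact Real.strictMonoOn_sin ⟨by linarith [ha.1, Real.pi_pos], ha.2⟩
        ⟨by linarith [hb.1, Real.pi_pos], hb.2⟩ hab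
    · exact Real.sin_nonneg_of_nonneg_of_le_pi ha.1 (by linarith [ha.2, Real.pi_pos])

theorem UU_continuous (μ : ℝ) : Continuous (UU n α D μ) := by
  unfold UU zz
  have := AA_continuous (n := n) (α := α) (D := D)
  fun_prop

theorem UU_image (hα : 0 < α) (μ : ℝ) : UU n α D μ '' Ioo 0 (Real.pi / 2) = Ioo 0 1 := by
  have hm := zz_pos (n := n) (D := D) hα (Real.exp_pos μ)
  have h0 : UU n α D μ 0 = 0 := by simp [UU, zz, AA_zero]
  have h1 : UU n α D μ (Real.pi / 2) = 1 := by
    unfold UU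
    rw [Real.sin_pi_div_two, one_pow, mul_one]
    exact div_self hm.ne'
  have hp : (0 : ℝ) < Real.pi / 2 := by positivity
  apply subset_antisymm
  · rintro _ ⟨θ, hθ, rfl⟩
    constructor
    · rw [← h0]
      exact UU_strictMonoOn hα μ ⟨le_rfl, hp.le⟩ ⟨hθ.1.le, hθ.2.le⟩ hθ.1
    · rw [← h1]
      exact UU_strictMonoOn hα μ ⟨hθ.1.le, hθ.2.le⟩ ⟨hp.le, le_rfl⟩ hθ.2
  · have := intermediate_value_Ioo hp.le (UU_continuous (n := n) (α := α) (D := D) μ).continuousOn
    rwa [h0, h1] at this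

/-- the integrand in the new variable -/
noncomputable def gint (n : ℕ) (α D r u : ℝ) : ℝ := Nt n α D (r * u) * (Real.sqrt (1 - u ^ 2))⁻¹

theorem sqrt_BB (s : ℝ) : BB n D s = Real.exp (-D * s ^ (n + 1) / 2) ^ 2 := by
  unfold BB
  rw [← Real.exp_nat_mul]
  congr 1
  push_cast
  ring

theorem integrand_eq (hα : 0 < α) {μ θ : ℝ} (hθ : θ ∈ Ioo 0 (Real.pi / 2)) :
    |ff n α D (Real.exp μ * Real.sin θ ^ 2) /
      (2 * zz n α D (Real.exp μ * Real.sin θ ^ 2)) *
      (2 * Real.exp μ * Real.sin θ * Real.cos θ) / zz n α D (Real.exp μ)| •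
      gint n α D (zz n α D (Real.exp μ)) (UU n α D μ θ) = (gg n α D μ θ)⁻¹ := by
  obtain ⟨hS, hC⟩ := trig_pos hθ
  have hm := zz_pos (n := n) (D := D) hα (Real.exp_pos μ)
  have hσ : 0 < Real.exp μ * Real.sin θ ^ 2 := sig_pos hθ
  have hz := zz_pos (n := n) (D := D) hα hσ
  have hf := ff_pos (n := n) (D := D) hα hσ
  have hg := gg_pos (n := n) (D := D) hα μ θ
  have hR := Real.exp_pos (μ / 2)
  have hRs := exp_half_sq μ
  have hkey := Gam_key (n := n) (α := α) (D := D) μ θ
  set σ := Real.exp μ * Real.sin θ ^ 2 with hσd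
  set E := Real.exp (-D * σ ^ (n + 1) / 2) with hE
  have hE0 : 0 < E := Real.exp_pos _
  have hB : BB n D σ = E ^ 2 := sqrt_BB σ
  have hsq : Real.sqrt σ = Real.exp (μ / 2) * Real.sin θ := by
    rw [hσd, ← hRs, ← mul_pow]
    exact Real.sqrt_sq (by positivity)
  have e1 : zz n α D (Real.exp μ) * UU n α D μ θ = zz n α D σ := by
    unfold UU
    field_simp
    rw [hσd]
  have e2 : 1 - UU n α D μ θ ^ 2 =
      (Real.exp (μ / 2) * Real.cos θ * gg n α D μ θ * E / zz n α D (Real.exp μ)) ^ 2 := by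
    unfold UU
    rw [← hσd, div_pow, div_pow, eq_div_iff (by positivity), sub_mul, div_mul_cancel₀ _
      (by positivity), one_mul, zz_sq hα hσ.le, zz_sq hα (Real.exp_pos μ).le, ← hkey, hB, ← gg_sq hα,
      ← hRs]
    ring
  have e3 : Real.sqrt (1 - UU n α D μ θ ^ 2) =
      Real.exp (μ / 2) * Real.cos θ * gg n α D μ θ * E / zz n α D (Real.exp μ) := by
    rw [e2]
    exact Real.sqrt_sq (by positivity)
  have e4 : Nt n α D (zz n α D σ) = zz n α D σ /
      (α * σ ^ (n + 1) * (Real.exp (μ / 2) * Real.sin θ) * E) := by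
    rw [Nt_zz hα hσ]
    unfold NN kk
    rw [hsq]
  unfold gint
  rw [e1, e3, e4, ff_eq, hB, smul_eq_mul]
  generalize zz n α D (Real.exp μ) = zm at hm ⊢
  rw [← hRs, abs_of_pos (by positivity)]
  field_simp

theorem change_var (hα : 0 < α) (μ : ℝ) :
    ∫ u in Ioo 0 1, gint n α D (zz n α D (Real.exp μ)) u =
      ∫ θ in Ioo 0 (Real.pi / 2), (gg n α D μ θ)⁻¹ := by
  rw [← UU_image (n := n) (D := D) hα μ, integral_image_eq_integral_abs_deriv_smul
    measurableSet_Ioo (fun θ hθ => (UU_hasDerivAt hα hθ).hasDerivWithinAt)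
    (((UU_strictMonoOn hα μ).mono Ioo_subset_Icc_self).injOn)]
  apply setIntegral_congr_fun measurableSet_Ioo
  intro θ hθ
  exact integrand_eq hα hθ

theorem integrable_gint (hα : 0 < α) (μ : ℝ) :
    IntegrableOn (gint n α D (zz n α D (Real.exp μ))) (Ioo 0 1) := by
  rw [← UU_image (n := n) (D := D) hα μ, integrableOn_image_iff_integrableOn_abs_deriv_smul
    measurableSet_Ioo (fun θ hθ => (UU_hasDerivAt hα hθ).hasDerivWithinAt)
    (((UU_strictMonoOn hα μ).mono Ioo_subset_Icc_self).injOn)]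
  have h1 : IntegrableOn (fun θ => (gg n α D μ θ)⁻¹) (Ioo 0 (Real.pi / 2)) :=
    ((gg_inv_continuous (n := n) (D := D) hα μ).continuousOn.integrableOn_compact
      isCompact_Icc).mono_set Ioo_subset_Icc_self
  apply h1.congr_fun _ measurableSet_Ioo
  intro θ hθ
  exact (integrand_eq hα hθ).symm

/-- a quarter of the period as a function of `zz` -/
noncomputable def GG (n : ℕ) (α D r : ℝ) : ℝ := ∫ u in Ioo (0 : ℝ) 1, gint n α D r u

theorem Per_eq_GG (hα : 0 < α) (μ : ℝ) :
    Per n α D μ = 4 * GG n α D (zz n α D (Real.exp μ)) := by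
  unfold GG
  rw [change_var hα, Per_eq hα]

theorem exists_mu_of_SS {r : ℝ} (hr : r ∈ SS n α D) : ∃ μ, r = zz n α D (Real.exp μ) := by
  obtain ⟨s, hs, rfl⟩ := hr
  exact ⟨Real.log s, by rw [Real.exp_log hs]⟩

theorem mem_SS (μ : ℝ) : zz n α D (Real.exp μ) ∈ SS n α D := ⟨Real.exp μ, Real.exp_pos μ, rfl⟩

theorem integrable_SS (hα : 0 < α) {r : ℝ} (hr : r ∈ SS n α D) :
    IntegrableOn (gint n α D r) (Ioo 0 1) := by
  obtain ⟨μ, rfl⟩ := exists_mu_of_SS hr
  exact integrable_gint hα μ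

theorem GG_strictConvexOn (hα : 0 < α) : StrictConvexOn ℝ (SS n α D) (GG n α D) := by
  refine ⟨SS_convex hα, ?_⟩
  intro x hx y hy hxy a b ha hb hab
  have hz : a • x + b • y ∈ SS n α D := SS_convex hα hx hy ha.le hb.le hab
  have ix := integrable_SS hα hx
  have iy := integrable_SS hα hy
  have iz := integrable_SS hα hz
  have hpt : ∀ u ∈ Ioo (0 : ℝ) 1, gint n α D (a • x + b • y) u <
      a * gint n α D x u + b * gint n α D y u := by
    intro u hu
    have hdown : ∀ r ∈ SS n α D, r * u ∈ SS n α D := by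
      intro r hr
      have hr0 := SS_pos hα hr
      apply SS_down hα hr (mul_pos hr0 hu.1)
      have := mul_le_mul_of_nonneg_left hu.2.le hr0.le
      rwa [mul_one] at this
    have hne : x * u ≠ y * u := fun h => hxy (mul_right_cancel₀ hu.1.ne' h)
    have h1 := (Nt_strictConvexOn (n := n) (D := D) hα).2 (hdown x hx) (hdown y hy) hne ha hb hab
    have hw : 0 < (Real.sqrt (1 - u ^ 2))⁻¹ := by
      apply inv_pos.2
      apply Real.sqrt_pos.2
      nlinarith [hu.1, hu.2]
    unfold gint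
    have e1 : (a • x + b • y) * u = a • (x * u) + b • (y * u) := by
      simp only [smul_eq_mul]
      ring
    rw [e1]
    have h2 := mul_lt_mul_of_pos_right h1 hw
    simp only [smul_eq_mul] at h2 ⊢
    linarith
  have hint : IntegrableOn (fun u => a * gint n α D x u + b * gint n α D y u -
      gint n α D (a • x + b • y) u) (Ioo 0 1) := ((ix.const_mul a).add (iy.const_mul b)).sub iz
  have hpos : 0 < ∫ u in Ioo (0 : ℝ) 1, (a * gint n α D x u + b * gint n α D y u -
      gint n α D (a • x + b • y) u) := by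
    rw [setIntegral_pos_iff_support_of_nonneg_ae]
    · have hsub : Ioo (0 : ℝ) 1 ⊆ Function.support (fun u => a * gint n α D x u +
          b * gint n α D y u - gint n α D (a • x + b • y) u) ∩ Ioo 0 1 := by
        intro u hu
        refine ⟨?_, hu⟩
        rw [Function.mem_support]
        exact (sub_pos.2 (hpt u hu)).ne'
      refine lt_of_lt_of_le ?_ (measure_mono hsub)
      simp
    · rw [EventuallyLE, ae_restrict_iff' measurableSet_Ioo]
      apply Filter.Eventually.of_forall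
      intro u hu
      exact (sub_pos.2 (hpt u hu)).le
    · exact hint
  have heq : ∫ u in Ioo (0 : ℝ) 1, (a * gint n α D x u + b * gint n α D y u -
      gint n α D (a • x + b • y) u) = a * GG n α D x + b * GG n α D y - GG n α D (a • x + b • y) := by
    unfold GG
    have j1 : IntegrableOn (fun u => a * gint n α D x u) (Ioo 0 1) := ix.const_mul a
    have j2 : IntegrableOn (fun u => b * gint n α D y u) (Ioo 0 1) := iy.const_mul b
    have j3 : IntegrableOn (fun u => a * gint n α D x u + b * gint n α D y u) (Ioo 0 1) := j1.add j2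
    rw [integral_sub j3 iz, integral_add j1 j2, integral_const_mul, integral_const_mul]
  rw [heq] at hpos
  simp only [smul_eq_mul] at hpos ⊢
  linarith

/-- at a critical point of the period the function `GG` has derivative zero -/
theorem GG_deriv (hα : 0 < α) {μ : ℝ} (h : deriv (Per n α D) μ = 0) :
    HasDerivAt (GG n α D) 0 (zz n α D (Real.exp μ)) := by
  set a : ℝ → ℝ := fun μ => zz n α D (Real.exp μ) with ha
  have hm := Real.exp_pos μ
  have had : HasStrictDerivAt a (ff n α D (Real.exp μ) / (2 * zz n α D (Real.exp μ)) *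
      Real.exp μ) μ := by
    have h1 : HasStrictDerivAt (AA n α D) (ff n α D (Real.exp μ)) (Real.exp μ) :=
      ff_continuous.integral_hasStrictDerivAt 0 _
    have h2 : HasStrictDerivAt (zz n α D) (ff n α D (Real.exp μ) / (2 * zz n α D (Real.exp μ)))
        (Real.exp μ) := h1.sqrt (AA_pos hα hm).ne'
    exact h2.comp μ (Real.hasStrictDerivAt_exp μ)
  have hne : ff n α D (Real.exp μ) / (2 * zz n α D (Real.exp μ)) * Real.exp μ ≠ 0 := by
    have := ff_pos (n := n) (D := D) hα hm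
    have := zz_pos (n := n) (D := D) hα hm
    positivity
  set L := had.localInverse a _ μ hne with hL
  have hLd : HasStrictDerivAt L (ff n α D (Real.exp μ) / (2 * zz n α D (Real.exp μ)) *
      Real.exp μ)⁻¹ (a μ) := had.to_localInverse hne
  have hL0 : L (a μ) = μ :=
    HasStrictFDerivAt.localInverse_apply_image (had.hasStrictFDerivAt_equiv hne)
  have hLr : ∀ᶠ y in 𝓝 (a μ), a (L y) = y :=
    HasStrictFDerivAt.eventually_right_inverse (had.hasStrictFDerivAt_equiv hne)
  have hPer : HasDerivAt (Per n α D) 0 (L (a μ)) := by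
    rw [hL0, ← h]
    exact ((Per_contDiff hα).differentiable (by norm_num) μ).hasDerivAt
  have hcomp := (hPer.comp _ hLd.hasDerivAt).div_const 4
  have hev : GG n α D =ᶠ[𝓝 (a μ)] fun y => (Per n α D ∘ L) y / 4 := by
    filter_upwards [hLr] with y hy
    simp only [Function.comp_apply]
    rw [Per_eq_GG hα]
    have : zz n α D (Real.exp (L y)) = y := hy
    rw [this]
    ring
  have hfin := hcomp.congr_of_eventuallyEq hev
  rw [zero_mul, zero_div] at hfin
  exact hfin

/-- the period function has at most one critical point -/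
theorem Per_unique (hα : 0 < α) {μ ν : ℝ} (h1 : deriv (Per n α D) μ = 0)
    (h2 : deriv (Per n α D) ν = 0) : μ = ν := by
  have key : ∀ μ ν : ℝ, deriv (Per n α D) μ = 0 → deriv (Per n α D) ν = 0 → ¬ μ < ν := by
    intro μ ν h1 h2 hlt
    have hz : zz n α D (Real.exp μ) < zz n α D (Real.exp ν) :=
      zz_strictMonoOn hα (Real.exp_pos μ).le (Real.exp_pos ν).le (Real.exp_lt_exp.2 hlt)
    have a1 := (GG_strictConvexOn hα).lt_slope_of_hasDerivAt (mem_SS μ) (mem_SS ν) hz
      (GG_deriv hα h1)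
    have a2 := (GG_strictConvexOn hα).slope_lt_of_hasDerivAt (mem_SS μ) (mem_SS ν) hz
      (GG_deriv hα h2)
    exact lt_irrefl _ (a1.trans a2)
  rcases lt_trichotomy μ ν with h | h | h
  · exact absurd h (key μ ν h1 h2)
  · exact h
  · exact absurd h (key ν μ h2 h1)

theorem critOrbits_le (hα : 0 < α) : (critOrbits (VV n α D)).encard ≤ 1 :=
  critOrbits_le_one hα fun _ _ h1 h2 => Per_unique hα h1 h2

end Pool.Agent.Helper10.CritPer
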